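import Mathlib
import Pool.Agent.H160.TF.Conv
import Pool.Agent.H160.TF.Cover

set_option autoImplicit false

/-! # Modules of logarithmic vector fields with one more generator than the rank -/

namespace Pool.Agent.H160.PG

open MvPolynomial Pool.Agent.H160.TF

section

variable {K : Type*} [Field K] {l : ℕ} {ι : Type*}

/-- generators `η` of degrees `dd`, with one relation `F` -/
structure Gen (A : ι → Fin l → K) (dd : Fin (l + 1) → ℕ)
    (η : Fin (l + 1) → Fin l → MvPolynomial (Fin l) K)
    (F : Fin (l + 1) → MvPolynomial (Fin l) K) : Prop where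
  hom : ∀ j, HomF (dd j) (η j)
  span : LD A = Submodule.span (MvPolynomial (Fin l) K) (Set.range η)
  rel : ∑ j, F j • η j = 0
  gen : ∀ g : Fin (l + 1) → MvPolynomial (Fin l) K, ∑ j, g j • η j = 0 → ∃ c, ∀ j, g j = c * F j

/-- the maximal minors -/
noncomputable def mino (η : Fin (l + 1) → Fin l → MvPolynomial (Fin l) K) (j : Fin (l + 1)) :
    MvPolynomial (Fin l) K :=
  Matrix.det (Matrix.of fun i k => η (j.succAbove i) k)

theorem mino_rel (η : Fin (l + 1) → Fin l → MvPolynomial (Fin l) K) :
    ∑ j : Fin (l + 1), ((-1) ^ (j : ℕ) * mino η j) • η j = 0 := by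
  funext p
  rw [Finset.sum_apply]
  simp only [Pi.smul_apply, smul_eq_mul, Pi.zero_apply]
  set N : Matrix (Fin (l + 1)) (Fin (l + 1)) (MvPolynomial (Fin l) K) :=
    Matrix.of fun j => Fin.cons (η j p) (η j) with hN
  have h1 : N.det = 0 := by
    apply Matrix.det_zero_of_column_eq (i := 0) (j := p.succ) (Fin.succ_ne_zero p).symm
    intro k
    simp [hN]
  rw [Matrix.det_succ_column_zero] at h1
  rw [← h1]
  apply Finset.sum_congr rfl
  intro j _
  have h2 : N j 0 = η j p := by simp [hN]
  have h3 : N.submatrix j.succAbove Fin.succ = Matrix.of fun i k => η (j.succAbove i) k := by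
    ext i k
    simp [hN]
  rw [h2, h3, mino]
  ring

theorem dvd_det_base {η : Fin (l + 1) → Fin l → MvPolynomial (Fin l) K} {c : MvPolynomial (Fin l) K}
    (hc : ∀ j, c ∣ mino η j) (t : Fin l → Fin (l + 1)) :
    c ∣ Matrix.det (Matrix.of fun i => η (t i)) := by
  by_cases ht : Function.Injective t
  · obtain ⟨j, hj⟩ : ∃ j, ∀ i, t i ≠ j := by
      by_contra hcon
      push Not at hcon
      have h1 : Function.Surjective t := hcon
      have h2 := Fintype.card_le_of_surjective t h1
      simp at h2
    choose π hπ using fun i => Fin.exists_succAbove_eq (hj i)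
    have hinj : Function.Injective π := by
      intro a b hab
      apply ht
      rw [← hπ a, ← hπ b, hab]
    set σ : Equiv.Perm (Fin l) := Equiv.ofBijective π (Finite.injective_iff_bijective.1 hinj)
    have h3 : (Matrix.of fun i => η (t i)) =
        (Matrix.of fun i k => η (j.succAbove i) k).submatrix σ id := by
      ext i k
      simp only [Matrix.of_apply, Matrix.submatrix_apply, id]
      rw [← hπ i]
      rfl
    rw [h3, Matrix.det_permute]
    exact (hc j).mul_left _
  · have h1 : ∃ a b, t a = t b ∧ a ≠ b := by
      by_contra hcon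
      push Not at hcon
      exact ht hcon
    obtain ⟨a, b, hab, hne⟩ := h1
    rw [Matrix.det_zero_of_row_eq hne]
    · exact dvd_zero _
    · show η (t a) = η (t b)
      rw [hab]

theorem dvd_det_aux {η : Fin (l + 1) → Fin l → MvPolynomial (Fin l) K} {c : MvPolynomial (Fin l) K}
    (hc : ∀ j, c ∣ mino η j) (s : Finset (Fin l)) :
    ∀ (ψ : Matrix (Fin l) (Fin l) (MvPolynomial (Fin l) K)) (t : Fin l → Fin (l + 1)),
      (∀ i ∈ s, ψ i ∈ Submodule.span (MvPolynomial (Fin l) K) (Set.range η)) →
      (∀ i, i ∉ s → ψ i = η (t i)) → c ∣ ψ.det := by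
  classical
  induction s using Finset.induction_on with
  | empty =>
    intro ψ t _ h2
    have h3 : ψ = Matrix.of fun i => η (t i) := by
      ext i k
      rw [h2 i (by simp)]
      rfl
    rw [h3]
    exact dvd_det_base hc t
  | insert a s ha ih =>
    intro ψ t h1 h2
    have key : ∀ v ∈ Submodule.span (MvPolynomial (Fin l) K) (Set.range η),
        c ∣ (ψ.updateRow a v).det := by
      intro v hv
      induction hv using Submodule.span_induction with
      | mem v hv =>
        obtain ⟨j, rfl⟩ := hv
        apply ih (ψ.updateRow a (η j)) (Function.update t a j)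
        · intro i hi
          have hia : i ≠ a := fun h => ha (h ▸ hi)
          rw [Matrix.updateRow_ne hia]
          exact h1 i (Finset.mem_insert_of_mem hi)
        · intro i hi
          by_cases hia : i = a
          · subst hia
            rw [Matrix.updateRow_self, Function.update_self]
          · rw [Matrix.updateRow_ne hia, Function.update_of_ne hia]
            exact h2 i (by simp [hia, hi])
      | zero =>
        rw [show (0 : Fin l → MvPolynomial (Fin l) K) = (0 : MvPolynomial (Fin l) K) •
          (0 : Fin l → MvPolynomial (Fin l) K) by simp, Matrix.det_updateRow_smul, zero_mul]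
        exact dvd_zero _
      | add x y _ _ hx hy =>
        rw [Matrix.det_updateRow_add]
        exact dvd_add hx hy
      | smul r x _ hx =>
        rw [Matrix.det_updateRow_smul]
        exact hx.mul_left _
    have h3 := key (ψ a) (h1 a (Finset.mem_insert_self _ _))
    rwa [Matrix.updateRow_eq_self] at h3

theorem dvd_det {η : Fin (l + 1) → Fin l → MvPolynomial (Fin l) K} {c : MvPolynomial (Fin l) K}
    (hc : ∀ j, c ∣ mino η j) (ψ : Matrix (Fin l) (Fin l) (MvPolynomial (Fin l) K))
    (hψ : ∀ i, ψ i ∈ Submodule.span (MvPolynomial (Fin l) K) (Set.range η)) : c ∣ ψ.det :=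
  dvd_det_aux hc Finset.univ ψ (fun _ => 0) (fun i _ => hψ i) (fun i hi => absurd (Finset.mem_univ i) hi)

/-- the vector fields tangent to one hyperplane -/
noncomputable def tang (a : Fin l → K) (i0 : Fin l) : Matrix (Fin l) (Fin l) (MvPolynomial (Fin l) K) :=
  Matrix.updateRow (Matrix.of fun k j => C ((if k = j then 1 else 0) - (if j = i0 then a k / a i0 else 0)))
    i0 (fun j => X j)

theorem det_one_updateRow' {R : Type*} [CommRing R] (i0 : Fin l) (w : Fin l → R) :
    (Matrix.updateRow (1 : Matrix (Fin l) (Fin l) R) i0 w).det = w i0 := by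
  rw [← Matrix.det_transpose, ← Matrix.updateCol_transpose, Matrix.transpose_one,
    ← Matrix.cramer_apply, Matrix.cramer_one]
  rfl

theorem det_tang {a : Fin l → K} {i0 : Fin l} (h : a i0 ≠ 0) :
    (tang a i0).det = C (1 / a i0) * lf a := by
  set T : Matrix (Fin l) (Fin l) (MvPolynomial (Fin l) K) :=
    Matrix.of fun k j => C (if j = i0 then a k / a i0 else if k = j then 1 else 0) with hT
  have hT1 : T.det = 1 := by
    have h1 : T = Matrix.updateCol 1 i0 (fun k => C (a k / a i0)) := by
      ext k j
      by_cases hj : j = i0
      · subst hj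
        simp [hT]
      · rw [Matrix.updateCol_ne hj]
        by_cases hk : k = j
        · subst hk
          simp [hT, hj, Matrix.one_apply]
        · simp [hT, hj, hk]
    rw [h1, ← Matrix.cramer_apply, Matrix.cramer_one]
    simp [div_self h]
  have h2 : tang a i0 * T = Matrix.updateRow 1 i0
      (fun j => if j = i0 then C (1 / a i0) * lf a else X j) := by
    ext1 k j
    rw [Matrix.mul_apply]
    by_cases hk : k = i0
    · subst hk
      rw [Matrix.updateRow_self]
      simp only [tang, Matrix.updateRow_self, hT, Matrix.of_apply]
      by_cases hj : j = k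
      · subst hj
        simp only [if_true, lf, Finset.mul_sum]
        apply Finset.sum_congr rfl
        intro i _
        rw [div_eq_mul_one_div, C_mul]
        ring
      · simp only [if_neg hj]
        rw [Finset.sum_eq_single j]
        · simp
        · intro i _ hi
          simp [hi]
        · intro h
          exact absurd (Finset.mem_univ _) h
    · rw [Matrix.updateRow_ne hk]
      simp only [tang, Matrix.updateRow_ne hk, hT, Matrix.of_apply]
      simp only [← map_mul, ← map_sum]
      have h3 : ∑ i, (((if k = i then (1 : K) else 0) - if i = i0 then a k / a i0 else 0) *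
          if j = i0 then a i / a i0 else if i = j then 1 else 0) =
          (1 : Matrix (Fin l) (Fin l) K) k j := by
        simp only [sub_mul, ite_mul, zero_mul, one_mul, Finset.sum_sub_distrib, Finset.sum_ite_eq,
          Finset.mem_univ, if_true, Finset.sum_ite_eq']
        by_cases hj : j = i0
        · subst hj
          simp [hk, div_self h]
        · by_cases hkj : k = j
          · subst hkj
            simp [hj, Ne.symm hj]
          · simp [hj, hkj, Ne.symm hj]
      rw [h3]
      simp [Matrix.one_apply, apply_ite]
  have h4 := congrArg Matrix.det h2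
  rw [Matrix.det_mul, hT1, mul_one, det_one_updateRow', if_pos rfl] at h4
  exact h4

end

end Pool.Agent.H160.PG
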