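import Mathlib
import Pool.Agent.H160.PG.Bound

set_option autoImplicit false

/-! # A degree bound and a counting lemma for modules with one more generator than the rank -/

namespace Pool.Agent.H160.PG

open MvPolynomial Pool.Agent.H160.TF

section

variable {K : Type*} [Field K] {l : ℕ} {ι : Type*}

theorem pr_tang_ne {a : Fin l → K} {i0 : Fin l} (h : a i0 ≠ 0) {k : Fin l} (hk : k ≠ i0) :
    pr (tang a i0 k) a = 0 := by
  rw [pr_apply]
  simp only [tang, Matrix.updateRow_ne hk, Matrix.of_apply, ← map_mul, ← map_sum]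
  rw [← C_0]
  congr 1
  simp only [mul_sub, mul_ite, mul_one, mul_zero, Finset.sum_sub_distrib, Finset.sum_ite_eq,
    Finset.mem_univ, if_true, Finset.sum_ite_eq']
  field_simp
  ring

theorem pr_X (a : Fin l → K) : pr (fun j => (X j : MvPolynomial (Fin l) K)) a = lf a := rfl

/-- vector fields multiplied by the product of the other forms -/
theorem dvd_special [Fintype ι] [DecidableEq ι] {A : ι → Fin l → K} (hA : Dist A)
    {η : Fin (l + 1) → Fin l → MvPolynomial (Fin l) K} {c : MvPolynomial (Fin l) K}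
    (hs : LD A = Submodule.span (MvPolynomial (Fin l) K) (Set.range η))
    (hc : ∀ j, c ∣ mino η j) (hl : 2 ≤ l) (i1 : ι) :
    c ∣ (∏ i, lf (A i)) * (∏ i ∈ Finset.univ.erase i1, lf (A i)) ^ (l - 2) := by
  obtain ⟨i0, hi0⟩ : ∃ i0, A i1 i0 ≠ 0 := by
    by_contra hcon
    push Not at hcon
    exact hA.2 i1 (funext hcon)
  set g : MvPolynomial (Fin l) K := ∏ i ∈ Finset.univ.erase i1, lf (A i) with hg
  set ψ : Matrix (Fin l) (Fin l) (MvPolynomial (Fin l) K) :=
    Matrix.of fun k j => (if k = i0 then 1 else g) * tang (A i1) i0 k j with hψ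
  have h1 : c ∣ ψ.det := by
    apply dvd_det hc
    intro k
    rw [← hs, mem_LD]
    intro i
    by_cases hk : k = i0
    · have h2 : ψ k = fun j => X j := by
        funext j
        simp [hψ, hk, tang]
      rw [h2, pr_X]
    · have h2 : ψ k = g • tang (A i1) i0 k := by
        funext j
        simp [hψ, hk]
      rw [h2, pr_smul]
      by_cases hi : i = i1
      · subst hi
        rw [pr_tang_ne hi0 hk, mul_zero]
        exact dvd_zero _
      · apply Dvd.dvd.mul_right
        exact Finset.dvd_prod_of_mem (fun i => lf (A i)) (Finset.mem_erase.2 ⟨hi, Finset.mem_univ i⟩)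
  rw [hψ, Matrix.det_mul_column, det_tang hi0, Finset.prod_ite, Finset.prod_const_one, one_mul,
    Finset.prod_const] at h1
  have h3 : (Finset.univ.filter (fun k : Fin l => ¬ k = i0)).card = l - 1 := by
    rw [Finset.filter_ne', Finset.card_erase_of_mem (Finset.mem_univ _), Finset.card_univ,
      Fintype.card_fin]
  rw [h3, show l - 1 = (l - 2) + 1 by omega, pow_succ] at h1
  have h4 : (∏ i, lf (A i)) = g * lf (A i1) := by
    rw [hg, Finset.prod_erase_mul _ _ (Finset.mem_univ i1)]
  rw [h4]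
  have h5 : g ^ (l - 2) * g * (C (1 / A i1 i0) * lf (A i1)) =
      C (1 / A i1 i0) * (g * lf (A i1) * g ^ (l - 2)) := by ring
  rw [h5] at h1
  have h6 : IsUnit (C (1 / A i1 i0) : MvPolynomial (Fin l) K) := by
    apply IsUnit.map C
    exact (isUnit_iff_ne_zero.2 (one_div_ne_zero hi0))
  exact (h6.dvd_mul_left).1 h1

theorem prod_lf_ne [Fintype ι] {A : ι → Fin l → K} (hA : Dist A) (s : Finset ι) :
    ∏ i ∈ s, lf (A i) ≠ 0 :=
  Finset.prod_ne_zero_iff.2 fun i _ => lf_ne_zero (hA.2 i)

theorem det_homog {M : Matrix (Fin l) (Fin l) (MvPolynomial (Fin l) K)} {d : Fin l → ℕ}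
    (h : ∀ i j, (M i j).IsHomogeneous (d i)) : M.det.IsHomogeneous (∑ i, d i) := by
  rw [← Matrix.det_transpose, Matrix.det_apply]
  apply IsHomogeneous.sum
  intro σ _
  have h1 : (∏ i, M.transpose (σ i) i).IsHomogeneous (∑ i, d i) := by
    apply IsHomogeneous.prod
    intro i _
    exact h i (σ i)
  rcases Int.units_eq_one_or (Equiv.Perm.sign σ) with h2 | h2
  · rw [h2, one_smul]
    exact h1
  · rw [h2, Units.neg_smul, one_smul]
    exact h1.neg

/-- **the degree bound** -/
theorem Gen.bound [Fintype ι] [Nonempty ι] {A : ι → Fin l → K} (hA : Dist A)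
    {dd : Fin (l + 1) → ℕ} {η : Fin (l + 1) → Fin l → MvPolynomial (Fin l) K}
    {F : Fin (l + 1) → MvPolynomial (Fin l) K} (h : Gen A dd η F) (hl : 3 ≤ l) {j : Fin (l + 1)}
    {m : ℕ} (hF : (F j).IsHomogeneous m) (hFj : F j ≠ 0) :
    ∑ i, dd (j.succAbove i) ≤ Fintype.card ι + m := by
  classical
  obtain ⟨c, hc⟩ := h.gen _ (mino_rel η)
  have hcd : ∀ j, c ∣ mino η j := by
    intro j
    have h1 : mino η j = (-1) ^ (j : ℕ) * ((-1) ^ (j : ℕ) * mino η j) := by
      rw [← mul_assoc, ← pow_add, ← two_mul, pow_mul]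
      simp
    rw [h1, hc j]
    exact (Dvd.intro _ rfl).mul_left _
  have hsp := dvd_special hA h.span hcd (by omega)
  obtain ⟨i1⟩ : Nonempty ι := inferInstance
  have hc0 : c ≠ 0 := by
    rintro rfl
    have h2 := zero_dvd_iff.1 (hsp i1)
    rcases mul_eq_zero.1 h2 with h3 | h3
    · exact prod_lf_ne hA _ h3
    · exact prod_lf_ne hA _ (pow_eq_zero_iff (show l - 2 ≠ 0 by omega) |>.1 h3)
  have hcQ : c ∣ ∏ i, lf (A i) := by
    apply dvd_of_mul_dvd (fun i : ι => (∏ i ∈ Finset.univ.erase i, lf (A i)) ^ (l - 2)) _ c hc0 _ hsp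
    intro p hp
    by_contra hcon
    push Not at hcon
    have h3 := hp.dvd_of_dvd_pow (hcon i1)
    obtain ⟨i2, -, h4⟩ := (Prime.dvd_finsetProd_iff hp _).1 h3
    have h5 := hp.dvd_of_dvd_pow (hcon i2)
    obtain ⟨i3, h6, h7⟩ := (Prime.dvd_finsetProd_iff hp _).1 h5
    have h8 := (isRelPrime_lf (hA.2 i3) (fun c => hA.1 i2 i3 (Finset.ne_of_mem_erase h6).symm c))
    exact hp.not_isUnit (h8 h7 h4)
  have hQh : (∏ i, lf (A i)).IsHomogeneous (Fintype.card ι) := by
    have h3 := IsHomogeneous.prod (Finset.univ : Finset ι) (fun i => lf (A i)) (fun _ => 1)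
      (fun i _ => lf_homogeneous (A i))
    rwa [Finset.sum_const, smul_eq_mul, mul_one, Finset.card_univ] at h3
  have hcdeg : c.totalDegree ≤ Fintype.card ι := by
    obtain ⟨t, ht⟩ := hcQ
    have ht0 : t ≠ 0 := by
      rintro rfl
      rw [mul_zero] at ht
      exact prod_lf_ne hA _ ht
    have h3 := totalDegree_mul_of_isDomain hc0 ht0
    rw [← ht, hQh.totalDegree (prod_lf_ne hA _)] at h3
    omega
  have h9 : (-1) ^ (j : ℕ) * mino η j ≠ 0 := by
    rw [hc j]
    exact mul_ne_zero hc0 hFj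
  have h10 : mino η j ≠ 0 := fun h0 => h9 (by rw [h0, mul_zero])
  have h11 : (mino η j).IsHomogeneous (∑ i, dd (j.succAbove i)) :=
    det_homog fun i k => h.hom (j.succAbove i) k
  have h12 : ((-1) ^ (j : ℕ) * mino η j).totalDegree = ∑ i, dd (j.succAbove i) := by
    rcases neg_one_pow_eq_or (MvPolynomial (Fin l) K) (j : ℕ) with h13 | h13
    · rw [h13, one_mul, h11.totalDegree h10]
    · rw [h13, neg_one_mul, totalDegree_neg, h11.totalDegree h10]
  rw [hc j, totalDegree_mul_of_isDomain hc0 hFj, hF.totalDegree hFj] at h12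
  omega

/-- **the counting lemma** -/
theorem Gen.count {A : ι → Fin l → K}
    {dd : Fin (l + 1) → ℕ} {η : Fin (l + 1) → Fin l → MvPolynomial (Fin l) K}
    {F : Fin (l + 1) → MvPolynomial (Fin l) K} (h : Gen A dd η F)
    (hF : ∀ j, constantCoeff (F j) = 0) {κ : Type*} [Fintype κ]
    (b : κ → Fin l → MvPolynomial (Fin l) K) (hb : ∀ i, b i ∈ LD A) (T : Finset (Fin (l + 1)))
    (hT : ∀ j ∈ T, η j ∈ Submodule.span (MvPolynomial (Fin l) K) (Set.range b)) :
    T.card ≤ Fintype.card κ := by
  classical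
  by_contra hcon
  push Not at hcon
  have h1 : ∀ j : T, ∃ s : κ → MvPolynomial (Fin l) K, ∑ i, s i • b i = η j := fun j =>
    (Submodule.mem_span_range_iff_exists_fun _).1 (hT j j.2)
  choose s hs using h1
  have h2 : ∀ i, ∃ g : Fin (l + 1) → MvPolynomial (Fin l) K, ∑ j, g j • η j = b i := by
    intro i
    have := hb i
    rw [h.span] at this
    exact (Submodule.mem_span_range_iff_exists_fun _).1 this
  choose g hg using h2
  -- a vanishing combination of constant terms
  set cm : T → κ → K := fun j i => constantCoeff (s j i) with hcm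
  have h3 : ¬ LinearIndependent K cm := by
    intro hli
    have h4 := hli.fintype_card_le_finrank
    rw [Module.finrank_fintype_fun_eq_card, Fintype.card_coe] at h4
    omega
  obtain ⟨lam, hlam, j0, hj0⟩ := Fintype.not_linearIndependent_iff.1 h3
  -- the relation
  set μ : κ → MvPolynomial (Fin l) K := fun i => ∑ j : T, C (lam j) * s j i with hμ
  have hμ0 : ∀ i, constantCoeff (μ i) = 0 := by
    intro i
    have h5 := congrFun hlam i
    simp only [hμ, map_sum, map_mul, constantCoeff_C]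
    simpa [hcm, Finset.sum_apply] using h5
  have h6 : ∑ j : T, (C (lam j) : MvPolynomial (Fin l) K) • η j = ∑ i, μ i • b i := by
    simp only [hμ, Finset.sum_smul, ← hs, Finset.smul_sum, smul_smul]
    rw [Finset.sum_comm]
  have h7 : ∑ i, μ i • b i = ∑ j, (∑ i, μ i * g i j) • η j := by
    simp only [← hg, Finset.smul_sum, smul_smul, Finset.sum_smul]
    rw [Finset.sum_comm]
  have h8 : ∑ j : T, (C (lam j) : MvPolynomial (Fin l) K) • η j =
      ∑ j : Fin (l + 1), (if hj : j ∈ T then C (lam ⟨j, hj⟩) else (0 : MvPolynomial (Fin l) K)) • η j := by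
    rw [← Finset.sum_subset (Finset.subset_univ T)]
    · rw [← Finset.sum_coe_sort T (fun j => (if hj : j ∈ T then C (lam ⟨j, hj⟩) else
        (0 : MvPolynomial (Fin l) K)) • η j)]
      apply Finset.sum_congr rfl
      intro j _
      rw [dif_pos j.2]
    · intro j _ hj
      rw [dif_neg hj, zero_smul]
  have h9 : ∑ j : Fin (l + 1), ((if hj : j ∈ T then C (lam ⟨j, hj⟩) else
      (0 : MvPolynomial (Fin l) K)) - ∑ i, μ i * g i j) • η j = 0 := by
    simp only [sub_smul, Finset.sum_sub_distrib]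
    rw [← h8, ← h7, h6, sub_self]
  obtain ⟨c, hc⟩ := h.gen _ h9
  have h10 := congrArg constantCoeff (hc j0)
  rw [map_mul, hF, mul_zero, dif_pos j0.2, map_sub, constantCoeff_C, map_sum] at h10
  simp only [map_mul, hμ0, zero_mul, Finset.sum_const_zero, sub_zero] at h10
  exact hj0 h10

end

end Pool.Agent.H160.PG
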