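import Mathlib
import Pool.Agent.H160.TF.Graded

set_option autoImplicit false

/-! # Arrangements with a distinguished pencil -/

namespace Pool.Agent.H160.PG

open MvPolynomial Pool.Agent.H160.TF

section

variable {K : Type*} [Field K] {r : ℕ}

/-- vectors with at most three nonzero coordinates -/
def v3 (r : ℕ) (a b c : K) : Fin (r + 3) → K := Fin.cons a (Fin.cons b (Fin.cons c 0))

theorem sum3 {M : Type*} [AddCommMonoid M] (f : Fin (r + 3) → M) :
    ∑ j, f j = f 0 + (f 1 + (f 2 + ∑ j : Fin r, f j.succ.succ.succ)) := by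
  rw [Fin.sum_univ_succ, Fin.sum_univ_succ, Fin.sum_univ_succ]
  rfl

@[simp] theorem v3_0 (a b c : K) : v3 r a b c 0 = a := rfl
@[simp] theorem v3_1 (a b c : K) : v3 r a b c 1 = b := rfl
@[simp] theorem v3_2 (a b c : K) : v3 r a b c 2 = c := rfl
@[simp] theorem v3_s (a b c : K) (j : Fin r) : v3 r a b c j.succ.succ.succ = 0 := rfl

theorem ext3 {M : Type*} {f g : Fin (r + 3) → M} (h0 : f 0 = g 0) (h1 : f 1 = g 1)
    (h2 : f 2 = g 2) (h : ∀ j : Fin r, f j.succ.succ.succ = g j.succ.succ.succ) : f = g := by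
  funext j
  refine Fin.cases h0 (fun j => ?_) j
  refine Fin.cases h1 (fun j => ?_) j
  exact Fin.cases h2 (fun j => h j) j

theorem lf_v3 (a b c : K) : lf (v3 r a b c) = C a * X 0 + C b * X 1 + C c * X 2 := by
  rw [lf, sum3]
  simp only [v3_0, v3_1, v3_2, v3_s, map_zero, zero_mul, Finset.sum_const_zero, add_zero]
  ring

theorem pr_v3 (θ : Fin (r + 3) → MvPolynomial (Fin (r + 3)) K) (a b c : K) :
    pr θ (v3 r a b c) = C a * θ 0 + C b * θ 1 + C c * θ 2 := by
  rw [pr_apply, sum3]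
  simp only [v3_0, v3_1, v3_2, v3_s, map_zero, zero_mul, Finset.sum_const_zero, add_zero]
  ring

/-- lines of the distinguished pencil -/
noncomputable def LP (r : ℕ) (e : K) : MvPolynomial (Fin (r + 3)) K := X 1 - C e * X 0

/-- the other lines -/
noncomputable def LO (r : ℕ) (p q : K) : MvPolynomial (Fin (r + 3)) K := X 2 - C p * X 0 - C q * X 1

theorem lf_P (e : K) : lf (v3 r (-e) 1 0) = LP r e := by
  rw [lf_v3, LP, map_neg, map_one, map_zero]
  ring

theorem lf_O (p q : K) : lf (v3 r (-p) (-q) 1) = LO r p q := by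
  rw [lf_v3, LO, map_neg, map_neg, map_one]
  ring

theorem v3_ne (a b c : K) (h : a ≠ 0 ∨ b ≠ 0 ∨ c ≠ 0) : v3 r a b c ≠ 0 := by
  intro h0
  rcases h with h | h | h
  · exact h (congrFun h0 0)
  · exact h (congrFun h0 1)
  · exact h (congrFun h0 2)

theorem vP_ne (e : K) : v3 r (-e) 1 0 ≠ 0 := v3_ne _ _ _ (Or.inr (Or.inl one_ne_zero))

theorem vO_ne (p q : K) : v3 r (-p) (-q) 1 ≠ 0 := v3_ne _ _ _ (Or.inr (Or.inr one_ne_zero))

theorem prime_P (e : K) : Prime (LP r e) := by
  rw [← lf_P]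
  exact prime_lf (vP_ne e)

theorem prime_O (p q : K) : Prime (LO r p q) := by
  rw [← lf_O]
  exact prime_lf (vO_ne p q)

theorem rel_PP {e e' : K} (h : e ≠ e') : IsRelPrime (LP r e) (LP r e') := by
  rw [← lf_P, ← lf_P]
  apply isRelPrime_lf (vP_ne e)
  intro c hc
  have h1 := congrFun hc 1
  have h0 := congrFun hc 0
  simp only [Pi.smul_apply, v3_1, v3_0, smul_eq_mul, mul_one] at h1 h0
  rw [← h1, one_mul] at h0
  exact h (neg_injective h0).symm

theorem rel_OO {p q p' q' : K} (h : ¬ (p = p' ∧ q = q')) : IsRelPrime (LO r p q) (LO r p' q') := by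
  rw [← lf_O, ← lf_O]
  apply isRelPrime_lf (vO_ne p q)
  intro c hc
  have h2 := congrFun hc 2
  have h1 := congrFun hc 1
  have h0 := congrFun hc 0
  simp only [Pi.smul_apply, v3_2, v3_1, v3_0, smul_eq_mul, mul_one] at h2 h1 h0
  rw [← h2, one_mul] at h0 h1
  exact h ⟨(neg_injective h0).symm, (neg_injective h1).symm⟩

variable {T O : Type*}

/-- the arrangement -/
def arr (r : ℕ) (e : T → K) (p q : O → K) : T ⊕ (O ⊕ Fin r) → Fin (r + 3) → K :=
  Sum.elim (fun t => v3 r (-e t) 1 0) (Sum.elim (fun o => v3 r (-p o) (-q o) 1)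
    (fun j => Pi.single j.succ.succ.succ 1))

theorem mem_arr {e : T → K} {p q : O → K} {θ : Fin (r + 3) → MvPolynomial (Fin (r + 3)) K} :
    θ ∈ LD (arr r e p q) ↔ (∀ t, LP r (e t) ∣ θ 1 - C (e t) * θ 0) ∧
      (∀ o, LO r (p o) (q o) ∣ θ 2 - C (p o) * θ 0 - C (q o) * θ 1) ∧
      ∀ j : Fin r, (X j.succ.succ.succ : MvPolynomial (Fin (r + 3)) K) ∣ θ j.succ.succ.succ := by
  rw [mem_LD]
  constructor
  · intro h
    refine ⟨fun t => ?_, fun o => ?_, fun j => ?_⟩
    · have h1 := h (Sum.inl t)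
      simp only [arr, Sum.elim_inl] at h1
      rw [lf_P, pr_v3] at h1
      convert h1 using 1
      rw [map_neg, map_one, map_zero]
      ring
    · have h1 := h (Sum.inr (Sum.inl o))
      simp only [arr, Sum.elim_inl, Sum.elim_inr] at h1
      rw [lf_O, pr_v3] at h1
      convert h1 using 1
      rw [map_neg, map_neg, map_one]
      ring
    · have h1 := h (Sum.inr (Sum.inr j))
      simp only [arr, Sum.elim_inr] at h1
      rwa [lf_single, pr_single] at h1
  · rintro ⟨h1, h2, h3⟩ (t | o | j)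
    · simp only [arr, Sum.elim_inl]
      rw [lf_P, pr_v3]
      convert h1 t using 1
      rw [map_neg, map_one, map_zero]
      ring
    · simp only [arr, Sum.elim_inl, Sum.elim_inr]
      rw [lf_O, pr_v3]
      convert h2 o using 1
      rw [map_neg, map_neg, map_one]
      ring
    · simp only [arr, Sum.elim_inr]
      rw [lf_single, pr_single]
      exact h3 j

variable [Fintype T] [DecidableEq T]

/-- the product of the lines of the pencil but one -/
noncomputable def RR (r : ℕ) (e : T → K) (t0 : T) : MvPolynomial (Fin (r + 3)) K :=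
  ∏ t ∈ Finset.univ.erase t0, LP r (e t)

theorem prod_P (e : T → K) (t0 : T) : ∏ t, LP r (e t) = RR r e t0 * LP r (e t0) := by
  rw [RR, Finset.prod_erase_mul _ _ (Finset.mem_univ t0)]

theorem prime_X (i : Fin (r + 3)) : Prime (X i : MvPolynomial (Fin (r + 3)) K) := by
  rw [← lf_single]
  apply prime_lf
  intro h
  have := congrFun h i
  simp at this

theorem X_ndvd {i j : Fin (r + 3)} (h : i ≠ j) :
    ¬ (X i : MvPolynomial (Fin (r + 3)) K) ∣ X j := by
  rw [← lf_single, ← lf_single]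
  intro hd
  obtain ⟨c, hc⟩ := eq_smul_of_dvd (fun h => by simpa using congrFun h i) hd
  have h1 := congrFun hc j
  rw [Pi.smul_apply, Pi.single_eq_same, Pi.single_eq_of_ne h.symm, smul_zero] at h1
  exact one_ne_zero h1

theorem decomp {e : T → K} (he : Function.Injective e) {p q : O → K} (t0 : T)
    {θ : Fin (r + 3) → MvPolynomial (Fin (r + 3)) K} (hθ : θ ∈ LD (arr r e p q)) :
    ∃ F G h : MvPolynomial (Fin (r + 3)) K, θ 0 = F * X 0 + G * RR r e t0 ∧
      θ 1 = F * X 1 + G * (C (e t0) * RR r e t0) ∧ θ 2 = F * X 2 + h ∧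
      (∀ o, LO r (p o) (q o) ∣ h - C (p o + q o * e t0) * RR r e t0 * G) ∧
      X 0 * θ 1 - X 1 * θ 0 = -(G * ∏ t, LP r (e t)) := by
  obtain ⟨h1, h2, -⟩ := mem_arr.1 hθ
  have h3 : ∏ t, LP r (e t) ∣ X 0 * θ 1 - X 1 * θ 0 := by
    apply Finset.prod_dvd_of_isRelPrime
    · intro t _ t' _ htt
      exact rel_PP (fun h => htt (he h))
    · intro t _
      have h4 : X 0 * θ 1 - X 1 * θ 0 = X 0 * (θ 1 - C (e t) * θ 0) - LP r (e t) * θ 0 := by
        rw [LP]
        ring
      rw [h4]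
      exact dvd_sub ((h1 t).mul_left _) (Dvd.intro _ rfl)
  obtain ⟨G', hG'⟩ := h3
  set G := -G' with hG
  have h5 : X 0 * θ 1 - X 1 * θ 0 = -(G * ∏ t, LP r (e t)) := by
    rw [hG', hG]
    ring
  have h6 : X 0 * (θ 1 - G * (C (e t0) * RR r e t0)) = X 1 * (θ 0 - G * RR r e t0) := by
    rw [prod_P e t0, LP] at h5
    linear_combination h5
  have h7 : (X 0 : MvPolynomial (Fin (r + 3)) K) ∣ θ 0 - G * RR r e t0 := by
    have h8 : (X 0 : MvPolynomial (Fin (r + 3)) K) ∣ X 1 * (θ 0 - G * RR r e t0) :=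
      Dvd.intro _ h6
    exact ((prime_X 0).dvd_or_dvd h8).resolve_left (X_ndvd (by
      intro h
      have := congrArg Fin.val h
      simp at this))
  obtain ⟨F, hF⟩ := h7
  have h8 : θ 1 - G * (C (e t0) * RR r e t0) = X 1 * F := by
    rw [hF] at h6
    apply mul_left_cancel₀ (prime_X (K := K) (0 : Fin (r + 3))).ne_zero
    rw [h6]
    ring
  refine ⟨F, G, θ 2 - F * X 2, ?_, ?_, ?_, ?_, h5⟩
  · linear_combination hF
  · linear_combination h8
  · ring
  · intro o
    have h9 : θ 2 - F * X 2 - C (p o + q o * e t0) * RR r e t0 * G =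
        (θ 2 - C (p o) * θ 0 - C (q o) * θ 1) - LO r (p o) (q o) * F := by
      rw [LO, map_add, map_mul]
      linear_combination C (p o) * hF + C (q o) * h8
    rw [h9]
    exact dvd_sub (h2 o) (Dvd.intro _ rfl)

end

end Pool.Agent.H160.PG
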