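import Mathlib
import Pool.Agent.H160.PG.Str

set_option autoImplicit false

/-! # Restriction to a coordinate hyperplane -/

namespace Pool.Agent.H160.PG

open MvPolynomial Pool.Agent.H160.TF

section

variable {K : Type*} [Field K] {l : ℕ}

/-- setting one variable to zero -/
noncomputable def rho (i : Fin l) : MvPolynomial (Fin l) K →ₐ[K] MvPolynomial (Fin l) K :=
  ret (Pi.single i 1) (Pi.single i 1)

theorem single_dot (i : Fin l) : (Pi.single i 1 : Fin l → K) ⬝ᵥ Pi.single i 1 = 1 := by
  simp

theorem rho_X_self (i : Fin l) : rho i (X i : MvPolynomial (Fin l) K) = 0 := by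
  rw [rho, ← lf_single, ret_self (single_dot i)]

theorem rho_X_ne {i j : Fin l} (h : j ≠ i) : rho i (X j : MvPolynomial (Fin l) K) = X j := by
  rw [rho, ret, aeval_X, Pi.single_eq_of_ne h, map_zero, zero_mul, sub_zero]

theorem rho_C (i : Fin l) (c : K) : rho i (C c : MvPolynomial (Fin l) K) = C c := by
  rw [rho, algHom_C]
  rfl

theorem rho_eq_zero_iff (i : Fin l) (s : MvPolynomial (Fin l) K) : rho i s = 0 ↔ X i ∣ s := by
  rw [rho, ret_eq_zero_iff (single_dot i), lf_single]

theorem rho_idem (i : Fin l) (s : MvPolynomial (Fin l) K) : rho i (rho i s) = rho i s := by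
  have h := dvd_sub_ret (Pi.single i 1) (Pi.single i 1) s
  rw [lf_single, ← rho_eq_zero_iff, map_sub, sub_eq_zero] at h
  exact h.symm

theorem rho_totalDegree (i : Fin l) (s : MvPolynomial (Fin l) K) :
    (rho i s).totalDegree ≤ s.totalDegree := by
  conv_lhs => rw [← sum_homogeneousComponent s, map_sum]
  apply totalDegree_finsetSum_le
  intro k hk
  have h1 : (rho i (homogeneousComponent k s)).IsHomogeneous k := by
    have h4 : ∀ j : Fin l, ((X j : MvPolynomial (Fin l) K) - C ((Pi.single i 1 : Fin l → K) j) *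
        lf (Pi.single i 1)).IsHomogeneous 1 := by
      intro j
      apply IsHomogeneous.sub (isHomogeneous_X K j)
      have := (isHomogeneous_C (Fin l) ((Pi.single i 1 : Fin l → K) j)).mul
        (lf_homogeneous (Pi.single i 1 : Fin l → K))
      rwa [zero_add] at this
    have h2 := (homogeneousComponent_isHomogeneous k s).aeval
      (fun j => (X j : MvPolynomial (Fin l) K) - C ((Pi.single i 1 : Fin l → K) j) *
        lf (Pi.single i 1)) h4
    rwa [one_mul] at h2
  have h3 := h1.totalDegree_le
  rw [Finset.mem_range] at hk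
  omega

end

section

variable {K : Type*} [Field K] {r : ℕ}

theorem ne10 : (1 : Fin (r + 3)) ≠ 0 := by
  intro h
  have := congrArg Fin.val h
  simp at this

theorem val2 : ((2 : Fin (r + 3)) : ℕ) = 2 := by
  show 2 % (r + 3) = 2
  exact Nat.mod_eq_of_lt (by omega)

theorem ne20 : (2 : Fin (r + 3)) ≠ 0 := by
  intro h
  have := congrArg Fin.val h
  rw [val2] at this
  simp at this

theorem ne21 : (2 : Fin (r + 3)) ≠ 1 := by
  intro h
  have := congrArg Fin.val h
  rw [val2] at this
  simp at this

theorem rho0_LP (e : K) : rho 0 (LP r e) = X 1 := by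
  rw [LP, map_sub, map_mul, rho_X_self, rho_X_ne ne10, mul_zero, sub_zero]

theorem rho0_LO (p q : K) : rho 0 (LO r p q) = X 2 - C q * X 1 := by
  rw [LO, map_sub, map_sub, map_mul, map_mul, rho_X_self, rho_X_ne ne10, rho_X_ne ne20, rho_C,
    rho_C, mul_zero, sub_zero]

theorem rho1_LP (e : K) : rho 1 (LP r e) = -(C e * X 0) := by
  rw [LP, map_sub, map_mul, rho_X_self, rho_X_ne ne10.symm, rho_C, zero_sub]

theorem rho1_LO (p q : K) : rho 1 (LO r p q) = X 2 - C p * X 0 := by
  rw [LO, map_sub, map_sub, map_mul, map_mul, rho_X_self, rho_X_ne ne10.symm, rho_X_ne ne21, rho_C,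
    rho_C, mul_zero, sub_zero]

variable {T : Type*} [Fintype T] [DecidableEq T]

theorem rho0_RR (e : T → K) (t0 : T) : rho 0 (RR r e t0) = X 1 ^ (Fintype.card T - 1) := by
  rw [RR, map_prod, Finset.prod_congr rfl fun t _ => rho0_LP (e t), Finset.prod_const,
    Finset.card_erase_of_mem (Finset.mem_univ _), Finset.card_univ]

/-- the pole part along a class of concurrent lines -/
theorem pow_dvd {i : Fin (r + 3)} {n : ℕ} {A B G : MvPolynomial (Fin (r + 3)) K}
    {y : MvPolynomial (Fin (r + 3)) K} (hy : Prime y) (hA : ¬ y ∣ rho i A)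
    (h : y ^ (n + 1) ∣ rho i (X i * B - y * A * G)) (hyr : rho i y = y) : y ^ n ∣ rho i G := by
  rw [map_sub, map_mul, rho_X_self, zero_mul, zero_sub, map_mul, map_mul, hyr, dvd_neg, pow_succ',
    mul_assoc] at h
  have h1 := (mul_dvd_mul_iff_left hy.ne_zero).1 h
  exact hy.pow_dvd_of_dvd_mul_left n hA h1

end

end Pool.Agent.H160.PG
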