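import Mathlib
import Pool.Agent.H160.PG.Rho
import Pool.Agent.H160.PG.Bound2

set_option autoImplicit false

/-! # The multiplicative arrangement -/

namespace Pool.Agent.H160.PG

open MvPolynomial Pool.Agent.H160.TF

section

variable {K : Type*} [Field K] {r : ℕ} {T I J : Type*} [Fintype T] [DecidableEq T] [Fintype I]
  [Fintype J]

/-- the multiplicative arrangement -/
abbrev marr (r : ℕ) (e : T → K) (γ : I → K) (μ : J → K) :
    T ⊕ ((I ⊕ J) ⊕ Fin r) → Fin (r + 3) → K :=
  arr r e (Sum.elim γ fun _ => 0) (Sum.elim (fun _ => 0) μ)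

theorem rho1_RR_ndvd {e : T → K} (he : ∀ t, e t ≠ 0) (t0 : T) (c : K) (hc : c ≠ 0) :
    ¬ (X 2 : MvPolynomial (Fin (r + 3)) K) ∣ rho 1 (C c * RR r e t0) := by
  rw [map_mul, rho_C, RR, map_prod]
  intro h
  rcases (prime_X 2).dvd_or_dvd h with h | h
  · have h1 : IsUnit (C c : MvPolynomial (Fin (r + 3)) K) :=
      (isUnit_iff_ne_zero.2 hc).map C
    exact (prime_X (K := K) (2 : Fin (r + 3))).not_isUnit (isUnit_of_dvd_unit h h1)
  · obtain ⟨t, -, ht⟩ := (Prime.dvd_finsetProd_iff (prime_X 2) _).1 h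
    rw [rho1_LP, dvd_neg] at ht
    rcases (prime_X 2).dvd_or_dvd ht with h | h
    · have h1 : IsUnit (C (e t) : MvPolynomial (Fin (r + 3)) K) :=
        (isUnit_iff_ne_zero.2 (he t)).map C
      exact (prime_X (K := K) (2 : Fin (r + 3))).not_isUnit (isUnit_of_dvd_unit h h1)
    · exact X_ndvd ne20 h

theorem rho0_RR_ndvd (e : T → K) (t0 : T) :
    ¬ (X 2 : MvPolynomial (Fin (r + 3)) K) ∣ rho 0 (RR r e t0) := by
  rw [rho0_RR]
  intro h
  exact X_ndvd ne21 ((prime_X 2).dvd_of_dvd_pow h)

theorem totalDegree_X2_sq_mul {s : MvPolynomial (Fin (r + 3)) K} (hs : s ≠ 0) (i : Fin (r + 3)) :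
    (X i ^ 2 * s).totalDegree = 2 + s.totalDegree := by
  rw [totalDegree_mul_of_isDomain (pow_ne_zero _ (prime_X i).ne_zero) hs, totalDegree_X_pow]

/-- there are no fields of small degree besides the obvious ones -/
theorem mul_small {e : T → K} (he : Function.Injective e) (he0 : ∀ t, e t ≠ 0)
    {γ : I → K} (hγ : Function.Injective γ) {μ : J → K} (hμ : Function.Injective μ) (t0 : T)
    (hI : 3 ≤ Fintype.card I) (hJ : 2 ≤ Fintype.card J)
    {θ : Fin (r + 3) → MvPolynomial (Fin (r + 3)) K} (hθ : θ ∈ LD (marr r e γ μ)) {D : ℕ}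
    (hD : HomF D θ) (hDT : D ≤ Fintype.card T) :
    ∃ F h : MvPolynomial (Fin (r + 3)) K, θ 0 = F * X 0 ∧ θ 1 = F * X 1 ∧ θ 2 = F * X 2 + h ∧
      ∀ o : I ⊕ J, LO r (Sum.elim γ (fun _ => 0) o) (Sum.elim (fun _ => 0) μ o) ∣ h := by
  obtain ⟨F, G, h, h0, h1, h2, h3, h4⟩ := decomp he t0 hθ
  have hG : G = 0 := by
    by_contra hG
    -- the degree of `G`
    have hGd : G.totalDegree ≤ 1 := by
      have hP : ∏ t, LP r (e t) ≠ 0 := Finset.prod_ne_zero_iff.2 fun t _ => (prime_P (e t)).ne_zero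
      have hPh : (∏ t, LP r (e t)).IsHomogeneous (Fintype.card T) := by
        have h5 := IsHomogeneous.prod (Finset.univ : Finset T) (fun t => LP r (e t)) (fun _ => 1)
          (fun t _ => by rw [← lf_P]; exact lf_homogeneous _)
        rwa [Finset.sum_const, smul_eq_mul, mul_one, Finset.card_univ] at h5
      have h5 := totalDegree_mul_of_isDomain hG hP
      rw [hPh.totalDegree hP] at h5
      have h6 : (X 0 * θ 1 - X 1 * θ 0).IsHomogeneous (1 + D) :=
        ((isHomogeneous_X K 0).mul (hD 1)).sub ((isHomogeneous_X K 1).mul (hD 0))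
      have h7 := h6.totalDegree_le
      rw [h4, totalDegree_neg, h5] at h7
      omega
    -- the class `I`
    have hI1 : ∏ i, LO r (γ i) 0 ∣ X 0 * h - X 2 * RR r e t0 * G := by
      apply Finset.prod_dvd_of_isRelPrime
      · intro i _ j _ hij
        exact rel_OO (fun hc => hij (hγ hc.1))
      · intro i _
        have h5 := h3 (Sum.inl i)
        simp only [Sum.elim_inl, zero_mul, add_zero] at h5
        have h6 : X 0 * h - X 2 * RR r e t0 * G = X 0 * (h - C (γ i) * RR r e t0 * G) -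
            LO r (γ i) 0 * (RR r e t0 * G) := by
          rw [LO, map_zero]
          ring
        rw [h6]
        exact dvd_sub (h5.mul_left _) (Dvd.intro _ rfl)
    have hI2 : X 2 ^ ((Fintype.card I - 1) + 1) ∣
        rho 0 (X 0 * h - X 2 * RR r e t0 * G) := by
      have h5 := map_dvd (rho 0) hI1
      rw [map_prod, Finset.prod_congr rfl fun i _ => rho0_LO (γ i) 0, map_zero, zero_mul, sub_zero,
        Finset.prod_const, Finset.card_univ] at h5
      rwa [show (Fintype.card I - 1) + 1 = Fintype.card I by omega]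
    have hI3 := pow_dvd (prime_X 2) (rho0_RR_ndvd e t0) hI2 (rho_X_ne ne20)
    have hI4 : X 2 ^ 2 ∣ rho 0 G := (pow_dvd_pow _ (by omega)).trans hI3
    have hI5 : rho 0 G = 0 := by
      obtain ⟨s, hs⟩ := hI4
      by_contra hne
      have hs0 : s ≠ 0 := by
        rintro rfl
        rw [mul_zero] at hs
        exact hne hs
      have h5 := totalDegree_X2_sq_mul hs0 (2 : Fin (r + 3))
      have h6 := rho_totalDegree 0 G
      rw [hs, h5] at h6
      omega
    obtain ⟨s, hs⟩ := (rho_eq_zero_iff 0 G).1 hI5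
    have hs0 : s ≠ 0 := by
      rintro rfl
      rw [mul_zero] at hs
      exact hG hs
    have hsd : s.totalDegree = 0 := by
      have h5 := totalDegree_mul_of_isDomain (prime_X (K := K) (0 : Fin (r + 3))).ne_zero hs0
      rw [← hs, totalDegree_X] at h5
      omega
    obtain ⟨c, hc⟩ : ∃ c, s = C c := ⟨_, (totalDegree_eq_zero_iff_eq_C).1 hsd⟩
    -- the class `J`
    have hJ1 : ∏ j, LO r 0 (μ j) ∣ X 1 * h - X 2 * (C (e t0) * RR r e t0) * G := by
      apply Finset.prod_dvd_of_isRelPrime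
      · intro i _ j _ hij
        exact rel_OO (fun hc => hij (hμ hc.2))
      · intro j _
        have h5 := h3 (Sum.inr j)
        simp only [Sum.elim_inr, zero_add] at h5
        have h6 : X 1 * h - X 2 * (C (e t0) * RR r e t0) * G =
            X 1 * (h - C (μ j * e t0) * RR r e t0 * G) -
            LO r 0 (μ j) * (C (e t0) * RR r e t0 * G) := by
          rw [LO, map_zero, map_mul]
          ring
        rw [h6]
        exact dvd_sub (h5.mul_left _) (Dvd.intro _ rfl)
    have hJ2 : X 2 ^ ((Fintype.card J - 1) + 1) ∣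
        rho 1 (X 1 * h - X 2 * (C (e t0) * RR r e t0) * G) := by
      have h5 := map_dvd (rho 1) hJ1
      rw [map_prod, Finset.prod_congr rfl fun j _ => rho1_LO 0 (μ j), map_zero, zero_mul, sub_zero,
        Finset.prod_const, Finset.card_univ] at h5
      rwa [show (Fintype.card J - 1) + 1 = Fintype.card J by omega]
    have hJ3 := pow_dvd (prime_X 2) (rho1_RR_ndvd he0 t0 (e t0) (he0 t0)) hJ2 (rho_X_ne ne21)
    have hJ4 : X 2 ∣ rho 1 G := (dvd_pow_self _ (by omega)).trans hJ3
    rw [hs, hc, map_mul, rho_X_ne ne10.symm, rho_C] at hJ4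
    rcases (prime_X 2).dvd_or_dvd hJ4 with h5 | h5
    · exact X_ndvd ne20 h5
    · have hc0 : c ≠ 0 := by
        rintro rfl
        rw [map_zero] at hc
        exact hs0 hc
      have h6 : IsUnit (C c : MvPolynomial (Fin (r + 3)) K) := (isUnit_iff_ne_zero.2 hc0).map C
      exact (prime_X (K := K) (2 : Fin (r + 3))).not_isUnit (isUnit_of_dvd_unit h5 h6)
  subst hG
  refine ⟨F, h, ?_, ?_, h2, fun o => ?_⟩
  · rw [h0, zero_mul, add_zero]
  · rw [h1, zero_mul, add_zero]
  · have := h3 o
    rwa [mul_zero, sub_zero] at this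

/-- the Euler field of the first three coordinates and the fields of the other coordinates -/
noncomputable def b1 (K : Type*) [Field K] (r : ℕ) :
    Option (Fin r) → Fin (r + 3) → MvPolynomial (Fin (r + 3)) K
  | none => Fin.cons (X 0) (Fin.cons (X 1) (Fin.cons (X 2) 0))
  | some j => Pi.single j.succ.succ.succ (X j.succ.succ.succ)

/-- the field in the direction of the distinguished point -/
noncomputable def phi (h : MvPolynomial (Fin (r + 3)) K) : Fin (r + 3) → MvPolynomial (Fin (r + 3)) K :=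
  Pi.single 2 h

theorem sss_ne0 (j : Fin r) : (j.succ.succ.succ : Fin (r + 3)) ≠ 0 := Fin.succ_ne_zero _

theorem sss_ne1 (j : Fin r) : (j.succ.succ.succ : Fin (r + 3)) ≠ 1 := by
  intro h
  have := congrArg Fin.val h
  simp at this

theorem sss_ne2 (j : Fin r) : (j.succ.succ.succ : Fin (r + 3)) ≠ 2 := by
  intro h
  have := congrArg Fin.val h
  rw [val2] at this
  simp at this

/-- expansion of a field -/
theorem expand {F h : MvPolynomial (Fin (r + 3)) K} {u : Fin r → MvPolynomial (Fin (r + 3)) K}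
    {θ : Fin (r + 3) → MvPolynomial (Fin (r + 3)) K} (h0 : θ 0 = F * X 0) (h1 : θ 1 = F * X 1)
    (h2 : θ 2 = F * X 2 + h) (h3 : ∀ j : Fin r, θ j.succ.succ.succ = X j.succ.succ.succ * u j) :
    θ = F • b1 K r none + phi h + ∑ j, u j • b1 K r (some j) := by
  have e1 : ∀ (k : Fin (r + 3)) (c : MvPolynomial (Fin (r + 3)) K) (i : Fin (r + 3)), i ≠ k →
      (Pi.single k c : Fin (r + 3) → MvPolynomial (Fin (r + 3)) K) i = 0 :=
    fun k c i h => by rw [Pi.single_apply, if_neg h]
  apply ext3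
  · simp only [Pi.add_apply, Pi.smul_apply, Finset.sum_apply, b1, phi, smul_eq_mul]
    rw [e1 2 h 0 ne20.symm, Finset.sum_eq_zero fun j _ => by
      rw [e1 _ _ 0 (sss_ne0 j).symm, mul_zero], h0]
    simp
  · simp only [Pi.add_apply, Pi.smul_apply, Finset.sum_apply, b1, phi, smul_eq_mul]
    rw [e1 2 h 1 ne21.symm, Finset.sum_eq_zero fun j _ => by
      rw [e1 _ _ 1 (sss_ne1 j).symm, mul_zero], h1]
    rw [add_zero, add_zero]
    rfl
  · simp only [Pi.add_apply, Pi.smul_apply, Finset.sum_apply, b1, phi, smul_eq_mul]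
    rw [Pi.single_eq_same, Finset.sum_eq_zero fun j _ => by
      rw [e1 _ _ 2 (sss_ne2 j).symm, mul_zero], h2]
    rw [add_zero]
    rfl
  · intro j
    simp only [Pi.add_apply, Pi.smul_apply, Finset.sum_apply, b1, phi, smul_eq_mul]
    rw [e1 2 h _ (sss_ne2 j), Finset.sum_eq_single j, Pi.single_eq_same, h3]
    · have h4 : (Fin.cons (X 0) (Fin.cons (X 1) (Fin.cons (X 2) 0)) :
          Fin (r + 3) → MvPolynomial (Fin (r + 3)) K) j.succ.succ.succ = 0 := rfl
      rw [h4, mul_zero, add_zero, zero_add, mul_comm]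
    · intro k _ hk
      rw [e1, mul_zero]
      intro h
      exact hk (Fin.succ_injective _ (Fin.succ_injective _ (Fin.succ_injective _ h))).symm
    · intro h
      exact absurd (Finset.mem_univ _) h

omit [Fintype T] [DecidableEq T] in
theorem b1_mem {O : Type*} (e : T → K) (p q : O → K) (i : Option (Fin r)) :
    b1 K r i ∈ LD (arr r e p q) := by
  rw [mem_arr]
  rcases i with _ | j
  · refine ⟨fun t => ?_, fun o => ?_, fun j => ?_⟩
    · show LP r (e t) ∣ X 1 - C (e t) * X 0
      exact dvd_refl _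
    · show LO r (p o) (q o) ∣ X 2 - C (p o) * X 0 - C (q o) * X 1
      exact dvd_refl _
    · exact dvd_zero _
  · have e1 : ∀ i : Fin (r + 3), i ≠ j.succ.succ.succ → b1 K r (some j) i = 0 :=
      fun i h => Pi.single_eq_of_ne h _
    refine ⟨fun t => ?_, fun o => ?_, fun k => ?_⟩
    · rw [e1 1 (sss_ne1 j).symm, e1 0 (sss_ne0 j).symm, mul_zero, sub_zero]
      exact dvd_zero _
    · rw [e1 2 (sss_ne2 j).symm, e1 1 (sss_ne1 j).symm, e1 0 (sss_ne0 j).symm, mul_zero, mul_zero,
        sub_zero, sub_zero]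
      exact dvd_zero _
    · by_cases hk : k = j
      · subst hk
        rw [b1, Pi.single_eq_same]
      · rw [e1]
        · exact dvd_zero _
        · intro h
          exact hk (Fin.succ_injective _ (Fin.succ_injective _ (Fin.succ_injective _ h)))

omit [Fintype T] [DecidableEq T] in
theorem phi_mem {O : Type*} (e : T → K) (p q : O → K) {h : MvPolynomial (Fin (r + 3)) K}
    (hh : ∀ o, LO r (p o) (q o) ∣ h) : phi h ∈ LD (arr r e p q) := by
  rw [mem_arr]
  have e1 : ∀ i : Fin (r + 3), i ≠ 2 → phi h i = 0 := fun i h => Pi.single_eq_of_ne h _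
  have e2 : phi h 2 = h := Pi.single_eq_same _ _
  refine ⟨fun t => ?_, fun o => ?_, fun k => ?_⟩
  · rw [e1 1 ne21.symm, e1 0 ne20.symm, mul_zero, sub_zero]
    exact dvd_zero _
  · rw [e2, e1 1 ne21.symm, e1 0 ne20.symm, mul_zero, mul_zero, sub_zero, sub_zero]
    exact hh o
  · rw [e1 _ (sss_ne2 k)]
    exact dvd_zero _

end

end Pool.Agent.H160.PG
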