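import Mathlib
import Pool.Agent.H160.PG.Mul

set_option autoImplicit false

/-! # The multiplicative arrangement is not plus-one generated -/

namespace Pool.Agent.H160.PG

open MvPolynomial Pool.Agent.H160.TF

section

variable {K : Type*} [Field K] {l : ℕ} {ι : Type*}

/-- plus-one generated, with exponents `d`, level `e` and linear coefficient `a` -/
def PO (A : ι → Fin l → K) (d : Fin l → ℕ) (e : ℕ) (a : Fin l → K) : Prop :=
  ∃ (θ : Fin l → Fin l → MvPolynomial (Fin l) K) (φ : Fin l → MvPolynomial (Fin l) K)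
    (f : Fin l → MvPolynomial (Fin l) K),
    (∀ i j, (θ i j).IsHomogeneous (d i)) ∧ (∀ j, (φ j).IsHomogeneous e) ∧
    LD A = Submodule.span (MvPolynomial (Fin l) K) (insert φ (Set.range θ)) ∧
    (∀ i, (∃ m, 0 < m ∧ m + d i = e + 1 ∧ (f i).IsHomogeneous m) ∨ f i = 0) ∧
    ((∃ i, f i ≠ 0) ∨ a ≠ 0) ∧
    ∑ i, f i • θ i + lf a • φ = 0 ∧
    ∀ (g : Fin l → MvPolynomial (Fin l) K) (b : MvPolynomial (Fin l) K),
      ∑ i, g i • θ i + b • φ = 0 → ∃ c, (∀ i, g i = c * f i) ∧ b = c * lf a

theorem PO.gen {A : ι → Fin l → K} {d : Fin l → ℕ} {e : ℕ} {a : Fin l → K} (h : PO A d e a) :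
    ∃ η F, Gen A (Fin.cons e d) η F ∧ (∀ j, constantCoeff (F j) = 0) ∧
      ∃ j m, m + (Fin.cons e d : Fin (l + 1) → ℕ) j = e + 1 ∧ (F j).IsHomogeneous m ∧ F j ≠ 0 := by
  obtain ⟨θ, φ, f, h1, h2, h3, h4, h5, h6, h7⟩ := h
  refine ⟨Fin.cons φ θ, Fin.cons (lf a) f, ⟨?_, ?_, ?_, ?_⟩, ?_, ?_⟩
  · intro j
    refine Fin.cases ?_ (fun i => ?_) j
    · exact h2
    · exact h1 i
  · rw [h3, Fin.range_cons]
  · rw [Fin.sum_univ_succ]
    simp only [Fin.cons_zero, Fin.cons_succ]
    rw [add_comm]
    exact h6
  · intro g hg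
    rw [Fin.sum_univ_succ] at hg
    simp only [Fin.cons_zero, Fin.cons_succ] at hg
    rw [add_comm] at hg
    obtain ⟨c, hc1, hc2⟩ := h7 _ _ hg
    refine ⟨c, fun j => ?_⟩
    refine Fin.cases ?_ (fun i => ?_) j
    · exact hc2
    · exact hc1 i
  · intro j
    refine Fin.cases ?_ (fun i => ?_) j
    · rw [Fin.cons_zero, constantCoeff_eq]
      exact (lf_homogeneous a).coeff_eq_zero (by simp)
    · rw [Fin.cons_succ]
      rcases h4 i with ⟨m, hm, -, hh⟩ | h0
      · rw [constantCoeff_eq]
        exact hh.coeff_eq_zero (by simpa using hm.ne)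
      · rw [h0, map_zero]
  · rcases h5 with ⟨i, hi⟩ | ha
    · rcases h4 i with ⟨m, hm, h8, hh⟩ | h0
      · refine ⟨i.succ, m, ?_, ?_, ?_⟩
        · rw [Fin.cons_succ]
          exact h8
        · exact hh
        · exact hi
      · exact absurd h0 hi
    · refine ⟨0, 1, ?_, ?_, ?_⟩
      · rw [Fin.cons_zero, add_comm]
      · exact lf_homogeneous a
      · exact lf_ne_zero ha

/-- the sum of the exponents -/
theorem PO.sum_le [Fintype ι] [Nonempty ι] {A : ι → Fin l → K} (hA : Dist A) (hl : 3 ≤ l)
    {d : Fin l → ℕ} {e : ℕ} {a : Fin l → K} (h : PO A d e a) :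
    ∑ i, d i ≤ Fintype.card ι + 1 := by
  obtain ⟨η, F, h1, -, j, m, h2, h3, h4⟩ := h.gen
  have h5 := h1.bound hA hl h3 h4
  have h6 := Fin.sum_univ_succAbove (Fin.cons e d : Fin (l + 1) → ℕ) j
  rw [Fin.sum_univ_succ] at h6
  simp only [Fin.cons_zero, Fin.cons_succ] at h6
  omega

end

section

variable {K : Type*} [Field K] {r : ℕ}

theorem dist_arr {T O : Type*} {e : T → K} (he : Function.Injective e) {p q : O → K}
    (hpq : ∀ o o', p o = p o' → q o = q o' → o = o') : Dist (arr r e p q) := by
  constructor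
  · rintro (t | o | j) (t' | o' | j') hne c hc
    · have h1 := congrFun hc 1
      have h0 := congrFun hc 0
      simp only [arr, Sum.elim_inl, Pi.smul_apply, v3_1, v3_0, smul_eq_mul, mul_one] at h1 h0
      rw [← h1, one_mul] at h0
      exact hne (congrArg _ (he (neg_injective h0)))
    · have h2 := congrFun hc 2
      have h1 := congrFun hc 1
      simp only [arr, Sum.elim_inl, Sum.elim_inr, Pi.smul_apply, v3_1, v3_2, smul_eq_mul,
        mul_one] at h1 h2
      rw [← h2, zero_mul] at h1
      exact one_ne_zero h1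
    · have h1 := congrFun hc 1
      simp only [arr, Sum.elim_inl, Sum.elim_inr, Pi.smul_apply, v3_1, smul_eq_mul] at h1
      rw [Pi.single_apply, if_neg (sss_ne1 j').symm, mul_zero] at h1
      exact one_ne_zero h1
    · have h2 := congrFun hc 2
      simp only [arr, Sum.elim_inl, Sum.elim_inr, Pi.smul_apply, v3_2, smul_eq_mul,
        mul_zero] at h2
      exact one_ne_zero h2
    · have h2 := congrFun hc 2
      have h1 := congrFun hc 1
      have h0 := congrFun hc 0
      simp only [arr, Sum.elim_inl, Sum.elim_inr, Pi.smul_apply, v3_2, v3_1, v3_0, smul_eq_mul,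
        mul_one] at h2 h1 h0
      rw [← h2, one_mul] at h1 h0
      exact hne (congrArg _ (congrArg _ (hpq _ _ (neg_injective h0) (neg_injective h1))))
    · have h2 := congrFun hc 2
      simp only [arr, Sum.elim_inl, Sum.elim_inr, Pi.smul_apply, v3_2, smul_eq_mul] at h2
      rw [Pi.single_apply, if_neg (sss_ne2 j').symm, mul_zero] at h2
      exact one_ne_zero h2
    · have h1 := congrFun hc j.succ.succ.succ
      simp only [arr, Sum.elim_inl, Sum.elim_inr, Pi.smul_apply, v3_s, smul_eq_mul, mul_zero,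
        Pi.single_eq_same] at h1
      exact one_ne_zero h1
    · have h1 := congrFun hc j.succ.succ.succ
      simp only [arr, Sum.elim_inl, Sum.elim_inr, Pi.smul_apply, v3_s, smul_eq_mul, mul_zero,
        Pi.single_eq_same] at h1
      exact one_ne_zero h1
    · have h1 := congrFun hc j.succ.succ.succ
      simp only [arr, Sum.elim_inr, Pi.smul_apply, smul_eq_mul,
        Pi.single_eq_same] at h1
      rw [Pi.single_apply, if_neg, mul_zero] at h1
      · exact one_ne_zero h1
      · intro h
        apply hne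
        rw [Fin.succ_injective _ (Fin.succ_injective _ (Fin.succ_injective _ h))]
  · rintro (t | o | j)
    · exact vP_ne _
    · exact vO_ne _ _
    · intro h
      have h1 := congrFun h j.succ.succ.succ
      simp only [arr, Sum.elim_inr, Pi.single_eq_same, Pi.zero_apply] at h1
      exact one_ne_zero h1

theorem zero_of_dvd {p s : MvPolynomial (Fin (r + 3)) K} (hp : p.IsHomogeneous 1)
    (hs : s.totalDegree = 0) (h : p ∣ s) : s = 0 := by
  obtain ⟨t, rfl⟩ := h
  by_contra hne
  have hp0 : p ≠ 0 := left_ne_zero_of_mul hne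
  have ht0 : t ≠ 0 := right_ne_zero_of_mul hne
  rw [totalDegree_mul_of_isDomain hp0 ht0, hp.totalDegree hp0] at hs
  omega

variable {T I J : Type*} [Fintype T] [DecidableEq T] [Fintype I] [Fintype J]

/-- **the multiplicative arrangement is not plus-one generated** -/
theorem mul_not {e : T → K} (he : Function.Injective e) (he0 : ∀ t, e t ≠ 0)
    {γ : I → K} (hγ : Function.Injective γ) (hγ0 : ∀ i, γ i ≠ 0) {μ : J → K}
    (hμ : Function.Injective μ) (t0 : T) (hI : 3 ≤ Fintype.card I) (hJ : 2 ≤ Fintype.card J)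
    (hk : Fintype.card I + Fintype.card J ≤ Fintype.card T + 1) (d : Fin (r + 3) → ℕ) (e' : ℕ)
    (a : Fin (r + 3) → K) : ¬ PO (marr r e γ μ) d e' a := by
  classical
  intro h
  have hpq : ∀ o o' : I ⊕ J, (Sum.elim γ (fun _ => 0) : I ⊕ J → K) o = Sum.elim γ (fun _ => 0) o' →
      (Sum.elim (fun _ => 0) μ : I ⊕ J → K) o = Sum.elim (fun _ => 0) μ o' → o = o' := by
    rintro (i | j) (i' | j') h1 h2
    · rw [hγ h1]
    · exact absurd h1 (hγ0 i)
    · exact absurd h1.symm (hγ0 i')
    · rw [hμ h2]
  have hA : Dist (marr r e γ μ) := dist_arr he hpq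
  have : Nonempty (T ⊕ ((I ⊕ J) ⊕ Fin r)) := ⟨Sum.inl t0⟩
  have h1 := h.sum_le hA (by omega)
  rw [Fintype.card_sum, Fintype.card_sum, Fintype.card_sum, Fintype.card_fin] at h1
  obtain ⟨η, F, h2, h3, -⟩ := h.gen
  -- the generators of small degree
  have hLO : ∏ o : I ⊕ J, LO r (Sum.elim γ (fun _ => 0) o) (Sum.elim (fun _ => 0) μ o) ≠ 0 :=
    Finset.prod_ne_zero_iff.2 fun o _ => (prime_O _ _).ne_zero
  have hLOh : (∏ o : I ⊕ J, LO r (Sum.elim γ (fun _ => 0) o)
      (Sum.elim (fun _ => 0) μ o)).IsHomogeneous (Fintype.card I + Fintype.card J) := by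
    have h5 := IsHomogeneous.prod (Finset.univ : Finset (I ⊕ J))
      (fun o => LO r (Sum.elim γ (fun _ => 0) o) (Sum.elim (fun _ => 0) μ o)) (fun _ => 1)
      (fun t _ => by rw [← lf_O]; exact lf_homogeneous _)
    rwa [Finset.sum_const, smul_eq_mul, mul_one, Finset.card_univ, Fintype.card_sum] at h5
  have small : ∀ θ ∈ LD (marr r e γ μ), ∀ D, HomF D θ → D ≤ Fintype.card T →
      ∃ (F t : MvPolynomial (Fin (r + 3)) K) (u : Fin r → MvPolynomial (Fin (r + 3)) K),
        θ = F • b1 K r none + t • phi (∏ o : I ⊕ J, LO r (Sum.elim γ (fun _ => 0) o)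
          (Sum.elim (fun _ => 0) μ o)) + ∑ j, u j • b1 K r (some j) ∧
        (D < Fintype.card I + Fintype.card J → t = 0) ∧ (D = 0 → θ = 0) := by
    intro θ hθ D hD hDT
    obtain ⟨F, h, e0, e1, e2, e3⟩ := mul_small he he0 hγ hμ t0 hI hJ hθ hD hDT
    have h4 : ∏ o : I ⊕ J, LO r (Sum.elim γ (fun _ => 0) o) (Sum.elim (fun _ => 0) μ o) ∣ h := by
      apply Finset.prod_dvd_of_isRelPrime
      · intro o _ o' _ hoo
        exact rel_OO (fun hc => hoo (hpq _ _ hc.1 hc.2))
      · intro o _
        exact e3 o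
    obtain ⟨t, ht⟩ := h4
    have h5 : ∀ j : Fin r, ∃ u, θ j.succ.succ.succ = X j.succ.succ.succ * u := fun j =>
      (mem_arr.1 hθ).2.2 j
    choose u hu using h5
    have h6 := expand e0 e1 e2 hu
    refine ⟨F, t, u, ?_, ?_, ?_⟩
    · rw [h6]
      congr 2
      rw [ht, phi, phi, ← Pi.single_smul, smul_eq_mul, mul_comm]
    · intro hlt
      by_contra ht0
      have hF : F.totalDegree + 1 ≤ D ∨ F = 0 := by
        by_cases hF0 : F = 0
        · exact Or.inr hF0
        · left
          have h7 := (hD 0).totalDegree_le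
          rw [e0, totalDegree_mul_of_isDomain hF0 (prime_X _).ne_zero, totalDegree_X] at h7
          exact h7
      have h7 : (θ 2 - F * X 2).totalDegree ≤ D := by
        apply (totalDegree_sub _ _).trans
        apply max_le (hD 2).totalDegree_le
        rcases hF with hF | hF
        · apply (totalDegree_mul _ _).trans
          rw [totalDegree_X]
          exact hF
        · rw [hF, zero_mul, totalDegree_zero]
          omega
      rw [e2, add_sub_cancel_left, ht, totalDegree_mul_of_isDomain hLO ht0,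
        hLOh.totalDegree hLO] at h7
      omega
    · intro hD0
      subst hD0
      have hz : ∀ j, (θ j).totalDegree = 0 := fun j => Nat.le_zero.1 (hD j).totalDegree_le
      have hθ0 : θ 0 = 0 := zero_of_dvd (isHomogeneous_X K 0) (hz 0) ⟨F, by rw [e0, mul_comm]⟩
      have hF0 : F = 0 := by
        rw [e0] at hθ0
        exact (mul_eq_zero.1 hθ0).resolve_right (prime_X _).ne_zero
      have hθ1 : θ 1 = 0 := by rw [e1, hF0, zero_mul]
      have hθ2 : θ 2 = 0 := by
        obtain ⟨i⟩ : Nonempty I := by
          rw [← Fintype.card_pos_iff]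
          omega
        have h8 := e3 (Sum.inl i)
        rw [hF0, zero_mul, zero_add] at e2
        rw [← e2, ← lf_O] at h8
        exact zero_of_dvd (lf_homogeneous _) (hz 2) h8
      apply ext3 hθ0 hθ1 hθ2
      intro j
      exact zero_of_dvd (isHomogeneous_X K _) (hz _) ((mem_arr.1 hθ).2.2 j)
  have hmem : ∀ j, η j ∈ LD (marr r e γ μ) := by
    intro j
    rw [h2.span]
    exact Submodule.subset_span ⟨j, rfl⟩
  -- positive degrees
  have hpos : ∀ j, 1 ≤ (Fin.cons e' d : Fin (r + 3 + 1) → ℕ) j := by
    intro j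
    by_contra hcon
    have h0 : (Fin.cons e' d : Fin (r + 3 + 1) → ℕ) j = 0 := by omega
    obtain ⟨-, -, -, -, -, h4⟩ := small (η j) (hmem j) _ (h2.hom j) (by omega)
    have h5 := h4 h0
    have h6 : ∑ i, (Pi.single j 1 : Fin (r + 3 + 1) → MvPolynomial (Fin (r + 3)) K) i • η i = 0 := by
      rw [Finset.sum_eq_single j]
      · rw [Pi.single_eq_same, one_smul, h5]
      · intro i _ hi
        rw [Pi.single_apply, if_neg hi, zero_smul]
      · intro hj
        exact absurd (Finset.mem_univ _) hj
    obtain ⟨c, hc⟩ := h2.gen _ h6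
    have h7 := congrArg constantCoeff (hc j)
    rw [Pi.single_eq_same, map_mul, h3, mul_zero, map_one] at h7
    exact one_ne_zero h7
  -- counting
  have c1 : ((Finset.univ : Finset (Fin (r + 3))).filter
      (fun i => d i < Fintype.card I + Fintype.card J)).card ≤ r + 1 := by
    have h4 := h2.count h3 (b1 K r) (fun i => b1_mem e _ _ i)
      (((Finset.univ : Finset (Fin (r + 3))).filter
      (fun i => d i < Fintype.card I + Fintype.card J)).image Fin.succ) (by
        intro j hj
        obtain ⟨i, hi, rfl⟩ := Finset.mem_image.1 hj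
        rw [Finset.mem_filter] at hi
        obtain ⟨F, t, u, h5, h6, -⟩ := small _ (hmem i.succ) _ (h2.hom i.succ)
          (by rw [Fin.cons_succ]; omega)
        rw [Fin.cons_succ] at h6
        rw [h5, h6 hi.2, zero_smul, add_zero]
        apply Submodule.add_mem
        · exact Submodule.smul_mem _ _ (Submodule.subset_span ⟨none, rfl⟩)
        · exact Submodule.sum_mem _ fun j _ =>
            Submodule.smul_mem _ _ (Submodule.subset_span ⟨some j, rfl⟩))
    rwa [Finset.card_image_of_injective _ (Fin.succ_injective _), Fintype.card_option,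
      Fintype.card_fin] at h4
  have c2 : ((Finset.univ : Finset (Fin (r + 3))).filter
      (fun i => d i ≤ Fintype.card T)).card ≤ r + 2 := by
    have h4 := h2.count h3 (fun x : Option (Option (Fin r)) => x.elim
      (phi (∏ o : I ⊕ J, LO r (Sum.elim γ (fun _ => 0) o) (Sum.elim (fun _ => 0) μ o)))
      (fun y => b1 K r y)) (by
        intro x
        rcases x with _ | y
        · exact phi_mem e _ _ fun o => Finset.dvd_prod_of_mem
            (fun o : I ⊕ J => LO r (Sum.elim γ (fun _ => 0) o) (Sum.elim (fun _ => 0) μ o))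
            (Finset.mem_univ o)
        · exact b1_mem e _ _ y)
      (((Finset.univ : Finset (Fin (r + 3))).filter
      (fun i => d i ≤ Fintype.card T)).image Fin.succ) (by
        intro j hj
        obtain ⟨i, hi, rfl⟩ := Finset.mem_image.1 hj
        rw [Finset.mem_filter] at hi
        obtain ⟨F, t, u, h5, -, -⟩ := small _ (hmem i.succ) _ (h2.hom i.succ)
          (by rw [Fin.cons_succ]; exact hi.2)
        rw [h5]
        apply Submodule.add_mem
        · apply Submodule.add_mem
          · exact Submodule.smul_mem _ _ (Submodule.subset_span ⟨some none, rfl⟩)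
          · exact Submodule.smul_mem _ _ (Submodule.subset_span ⟨none, rfl⟩)
        · exact Submodule.sum_mem _ fun j _ =>
            Submodule.smul_mem _ _ (Submodule.subset_span ⟨some (some j), rfl⟩))
    rwa [Finset.card_image_of_injective _ (Fin.succ_injective _), Fintype.card_option,
      Fintype.card_option, Fintype.card_fin] at h4
  -- the sum
  set k := Fintype.card I + Fintype.card J with hkdef
  have c3 := Finset.card_filter_add_card_filter_not (s := (Finset.univ : Finset (Fin (r + 3))))
    (fun i => d i < k)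
  have c4 := Finset.card_filter_add_card_filter_not (s := (Finset.univ : Finset (Fin (r + 3))))
    (fun i => d i ≤ Fintype.card T)
  rw [Finset.card_univ, Fintype.card_fin] at c3 c4
  have c5 : ∑ i : Fin (r + 3), (1 + ((if ¬ d i < k then k - 1 else 0) +
      (if ¬ d i ≤ Fintype.card T then Fintype.card T + 1 - k else 0))) ≤ ∑ i, d i := by
    apply Finset.sum_le_sum
    intro i _
    have h4 := hpos i.succ
    rw [Fin.cons_succ] at h4
    split_ifs <;> omega
  rw [Finset.sum_add_distrib, Finset.sum_add_distrib, ← Finset.sum_filter, ← Finset.sum_filter,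
    Finset.sum_const, Finset.sum_const, Finset.sum_const, smul_eq_mul, smul_eq_mul, smul_eq_mul,
    mul_one, Finset.card_univ, Fintype.card_fin] at c5
  have c6 : 2 * (k - 1) ≤ ((Finset.univ : Finset (Fin (r + 3))).filter
      (fun i => ¬ d i < k)).card * (k - 1) := Nat.mul_le_mul_right _ (by omega)
  have c7 : 1 * (Fintype.card T + 1 - k) ≤ ((Finset.univ : Finset (Fin (r + 3))).filter
      (fun i => ¬ d i ≤ Fintype.card T)).card * (Fintype.card T + 1 - k) :=
    Nat.mul_le_mul_right _ (by omega)
  omega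

end

end Pool.Agent.H160.PG
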