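import Mathlib
import Pool.Agent.H160.PG.Mul2

set_option autoImplicit false

/-! # The additive arrangement is strictly plus-one generated -/

namespace Pool.Agent.H160.PG

open MvPolynomial Pool.Agent.H160.TF

section

variable {K : Type*} [Field K] {r : ℕ} {T O : Type*} [Fintype T] [DecidableEq T]

/-- lifting a coefficient of the distinguished direction -/
theorem lift [Fintype O] (e : T → K) (t0 : T) {p q : O → K}
    (hpq : ∀ o o', p o = p o' → q o = q o' → o = o') (G : MvPolynomial (Fin (r + 3)) K)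
    (hW : ∀ o o', LO r (p o') (q o') - LO r (p o) (q o) ∣
      C ((p o' + q o' * e t0) - (p o + q o * e t0)) * RR r e t0 * G) :
    ∃ h, ∀ o, LO r (p o) (q o) ∣ h - C (p o + q o * e t0) * RR r e t0 * G := by
  classical
  set B : Finset (Fin (r + 3) → K) := Finset.univ.image (fun o => v3 r (-p o) (-q o) 1) with hB
  have hNP : NP B := by
    constructor
    · intro a ha
      obtain ⟨o, -, rfl⟩ := Finset.mem_image.1 ha
      exact vO_ne _ _
    · intro a ha b hb hab c hc
      obtain ⟨o, -, rfl⟩ := Finset.mem_image.1 ha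
      obtain ⟨o', -, rfl⟩ := Finset.mem_image.1 hb
      have h2 := congrFun hc 2
      rw [Pi.smul_apply, v3_2, v3_2, smul_eq_mul, mul_one] at h2
      rw [← h2, one_smul] at hc
      exact hab hc.symm
  obtain ⟨h, hh⟩ := glue B hNP (fun a => C (-(a 0) - a 1 * e t0) * RR r e t0 * G) (by
    intro a ha b hb hab
    obtain ⟨o, -, rfl⟩ := Finset.mem_image.1 ha
    obtain ⟨o', -, rfl⟩ := Finset.mem_image.1 hb
    obtain ⟨W, hW'⟩ := hW o o'
    refine ⟨C (p o + q o * e t0) * RR r e t0 * G - W * LO r (p o) (q o), ?_⟩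
    intro c hcB hc
    obtain ⟨o'', -, rfl⟩ := Finset.mem_image.1 hcB
    obtain ⟨x, y, hxy⟩ := Submodule.mem_span_pair.1 hc
    have k2 := congrFun hxy 2
    have k1 := congrFun hxy 1
    have k0 := congrFun hxy 0
    simp only [Pi.add_apply, Pi.smul_apply, v3_0, v3_1, v3_2, smul_eq_mul, mul_one] at k0 k1 k2
    have hx : x = 1 - y := by linear_combination k2
    have hp : p o'' = (1 - y) * p o + y * p o' := by
      rw [hx] at k0
      linear_combination k0
    have hq : q o'' = (1 - y) * q o + y * q o' := by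
      rw [hx] at k1
      linear_combination k1
    simp only [v3_0, v3_1]
    rw [lf_O]
    refine ⟨-W, ?_⟩
    have h3 : LO r (p o'') (q o'') = LO r (p o) (q o) +
        C y * (LO r (p o') (q o') - LO r (p o) (q o)) := by
      rw [LO, LO, LO, hp, hq]
      simp only [map_add, map_mul, map_sub, map_one]
      ring
    have h4 : (-(-p o'') - -q o'' * e t0) = (p o + q o * e t0) +
        y * ((p o' + q o' * e t0) - (p o + q o * e t0)) := by
      rw [hp, hq]
      ring
    have h5 : (C ((p o + q o * e t0) + y * ((p o' + q o' * e t0) - (p o + q o * e t0))) :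
        MvPolynomial (Fin (r + 3)) K) = C (p o + q o * e t0) +
        C y * C ((p o' + q o' * e t0) - (p o + q o * e t0)) := by
      rw [← map_mul, ← map_add]
    rw [h3, h4, h5]
    linear_combination (-C y) * hW')
  refine ⟨h, fun o => ?_⟩
  have h1 := hh (v3 r (-p o) (-q o) 1) (Finset.mem_image_of_mem _ (Finset.mem_univ o))
  rw [lf_O] at h1
  simp only [v3_0, v3_1] at h1
  convert h1 using 4
  congr 1
  ring

/-- vector fields from a solution -/
noncomputable def mk (e : T → K) (t0 : T) (G h : MvPolynomial (Fin (r + 3)) K) :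
    Fin (r + 3) → MvPolynomial (Fin (r + 3)) K :=
  Fin.cons (G * RR r e t0) (Fin.cons (G * (C (e t0) * RR r e t0)) (Fin.cons h 0))

theorem mk_mem {e : T → K} {t0 : T} {p q : O → K} {G h : MvPolynomial (Fin (r + 3)) K}
    (hh : ∀ o, LO r (p o) (q o) ∣ h - C (p o + q o * e t0) * RR r e t0 * G) :
    mk e t0 G h ∈ LD (arr r e p q) := by
  rw [mem_arr]
  refine ⟨fun t => ?_, fun o => ?_, fun j => ?_⟩
  · show LP r (e t) ∣ G * (C (e t0) * RR r e t0) - C (e t) * (G * RR r e t0)
    by_cases ht : t = t0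
    · subst ht
      have h1 : G * (C (e t) * RR r e t) - C (e t) * (G * RR r e t) = 0 := by ring
      rw [h1]
      exact dvd_zero _
    · have h1 : LP r (e t) ∣ RR r e t0 := Finset.dvd_prod_of_mem (fun t => LP r (e t))
        (Finset.mem_erase.2 ⟨ht, Finset.mem_univ t⟩)
      exact dvd_sub ((h1.mul_left _).mul_left _) ((h1.mul_left _).mul_left _)
  · show LO r (p o) (q o) ∣ h - C (p o) * (G * RR r e t0) - C (q o) * (G * (C (e t0) * RR r e t0))
    have h1 := hh o
    convert h1 using 1
    rw [map_add, map_mul]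
    ring
  · exact dvd_zero _

theorem RR_homog (e : T → K) (t0 : T) : (RR r e t0).IsHomogeneous (Fintype.card T - 1) := by
  have h5 := IsHomogeneous.prod (Finset.univ.erase t0) (fun t => LP r (e t)) (fun _ => 1)
    (fun t _ => by rw [← lf_P]; exact lf_homogeneous _)
  rwa [Finset.sum_const, smul_eq_mul, mul_one, Finset.card_erase_of_mem (Finset.mem_univ _),
    Finset.card_univ] at h5

theorem RR_ne (e : T → K) (t0 : T) : RR r e t0 ≠ 0 :=
  Finset.prod_ne_zero_iff.2 fun _ _ => (prime_P _).ne_zero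

omit [Fintype T] [DecidableEq T] in
theorem LO_homog (p q : K) : (LO r p q).IsHomogeneous 1 := by
  rw [← lf_O]
  exact lf_homogeneous _

end

section

variable {K : Type*} [Field K] {r : ℕ} {T I J : Type*} [Fintype T] [DecidableEq T] [Fintype I]
  [Fintype J] [DecidableEq I] [DecidableEq J]

/-- the additive arrangement -/
abbrev aarr (r : ℕ) (e : T → K) (c : I → K) (b : J → K) :
    T ⊕ ((I ⊕ J) ⊕ Fin r) → Fin (r + 3) → K :=
  arr r e (Sum.elim c b) (Sum.elim (fun _ => 0) fun _ => 1)

omit [DecidableEq I] [DecidableEq J] in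
theorem add_h1 {e : T → K} {c : I → K} (hc : Function.Injective c)
    {b : J → K} (hb : Function.Injective b) (hT : ∀ i j, ∃ t, e t = c i - b j) (t0 : T) :
    ∃ h : MvPolynomial (Fin (r + 3)) K, h.IsHomogeneous (Fintype.card T) ∧
      (∀ i, LO r (c i) 0 ∣ h - C (c i) * RR r e t0 * X 0) ∧
      ∀ j, LO r (b j) 1 ∣ h - C (b j + e t0) * RR r e t0 * X 0 := by
  have hpq : ∀ o o' : I ⊕ J, (Sum.elim c b : I ⊕ J → K) o = Sum.elim c b o' →
      (Sum.elim (fun _ => 0) (fun _ => 1) : I ⊕ J → K) o =
        Sum.elim (fun _ => 0) (fun _ => 1) o' → o = o' := by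
    rintro (i | j) (i' | j') h1 h2
    · rw [hc h1]
    · exact absurd h2 zero_ne_one
    · exact absurd h2 one_ne_zero
    · rw [hb h1]
  have hPt : ∀ t, t ≠ t0 → LP r (e t) ∣ RR r e t0 := fun t ht =>
    Finset.dvd_prod_of_mem (fun t => LP r (e t)) (Finset.mem_erase.2 ⟨ht, Finset.mem_univ t⟩)
  obtain ⟨h, hh⟩ := lift (r := r) e t0 hpq (X 0) (by
    rintro (i | j) (i' | j')
    · simp only [Sum.elim_inl]
      refine ⟨-RR r e t0, ?_⟩
      rw [LO, LO]
      simp only [map_sub, map_add, map_mul, map_zero]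
      ring
    · simp only [Sum.elim_inl, Sum.elim_inr]
      obtain ⟨t, ht⟩ := hT i j'
      have h1 : LO r (b j') 1 - LO r (c i) 0 = -LP r (e t) := by
        rw [LO, LO, LP, ht]
        simp only [map_sub, map_one, map_zero]
        ring
      rw [h1, neg_dvd]
      by_cases htt : t = t0
      · subst htt
        have h2 : b j' + 1 * e t - (c i + 0 * e t) = 0 := by
          rw [ht]
          ring
        rw [h2, map_zero, zero_mul, zero_mul]
        exact dvd_zero _
      · exact ((hPt t htt).mul_left _).mul_right _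
    · simp only [Sum.elim_inl, Sum.elim_inr]
      obtain ⟨t, ht⟩ := hT i' j
      have h1 : LO r (c i') 0 - LO r (b j) 1 = LP r (e t) := by
        rw [LO, LO, LP, ht]
        simp only [map_sub, map_one, map_zero]
        ring
      rw [h1]
      by_cases htt : t = t0
      · subst htt
        have h2 : c i' + 0 * e t - (b j + 1 * e t) = 0 := by
          rw [ht]
          ring
        rw [h2, map_zero, zero_mul, zero_mul]
        exact dvd_zero _
      · exact ((hPt t htt).mul_left _).mul_right _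
    · simp only [Sum.elim_inr]
      refine ⟨-RR r e t0, ?_⟩
      rw [LO, LO]
      simp only [map_sub, map_add, map_mul, map_one]
      ring)
  have hT1 : 0 < Fintype.card T := Fintype.card_pos_iff.2 ⟨t0⟩
  have hRX : ∀ z : K, (C z * RR r e t0 * X 0).IsHomogeneous (Fintype.card T) := by
    intro z
    have h1 := ((isHomogeneous_C (Fin (r + 3)) z).mul (RR_homog (r := r) e t0)).mul
      (isHomogeneous_X K (0 : Fin (r + 3)))
    rwa [zero_add, Nat.sub_add_cancel hT1] at h1
  have hcomp : ∀ z : K, homogeneousComponent (Fintype.card T) (h - C z * RR r e t0 * X 0) =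
      homogeneousComponent (Fintype.card T) h - C z * RR r e t0 * X 0 := by
    intro z
    rw [map_sub, hc_of_hom (hRX z), if_pos rfl]
  refine ⟨homogeneousComponent (Fintype.card T) h, homogeneousComponent_isHomogeneous _ _,
    fun i => ?_, fun j => ?_⟩
  · have h1 := hh (Sum.inl i)
    simp only [Sum.elim_inl, zero_mul, add_zero] at h1
    rw [← hcomp]
    exact hc_dvd (LO_homog _ _) h1 _
  · have h1 := hh (Sum.inr j)
    simp only [Sum.elim_inr, one_mul] at h1
    rw [← hcomp]
    exact hc_dvd (LO_homog _ _) h1 _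

/-- the product of all lines of both classes but one line in each class -/
noncomputable def GG (r : ℕ) (c : I → K) (b : J → K) (i0 : I) (j0 : J) :
    MvPolynomial (Fin (r + 3)) K :=
  (∏ i ∈ Finset.univ.erase i0, LO r (c i) 0) * ∏ j ∈ Finset.univ.erase j0, LO r (b j) 1

theorem prod_O (c : I → K) (b : J → K) (i0 : I) (j0 : J) :
    ∏ o : I ⊕ J, LO r (Sum.elim c b o) (Sum.elim (fun _ => 0) (fun _ => 1) o) =
      GG r c b i0 j0 * (LO r (c i0) 0 * LO r (b j0) 1) := by
  rw [Fintype.prod_sum_type]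
  simp only [Sum.elim_inl, Sum.elim_inr]
  rw [GG, ← Finset.prod_erase_mul _ _ (Finset.mem_univ i0),
    ← Finset.prod_erase_mul _ _ (Finset.mem_univ j0)]
  ring

theorem rho0_GG (c : I → K) (b : J → K) (i0 : I) (j0 : J) :
    rho 0 (GG r c b i0 j0) = X 2 ^ (Fintype.card I - 1) * (X 2 - X 1) ^ (Fintype.card J - 1) := by
  rw [GG, map_mul, map_prod, map_prod, Finset.prod_congr rfl fun i _ => rho0_LO (c i) 0,
    Finset.prod_congr rfl fun j _ => rho0_LO (b j) 1, Finset.prod_const, Finset.prod_const,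
    Finset.card_erase_of_mem (Finset.mem_univ _), Finset.card_erase_of_mem (Finset.mem_univ _),
    Finset.card_univ, Finset.card_univ, map_zero, map_one, zero_mul, one_mul, sub_zero]

theorem GG_homog (c : I → K) (b : J → K) (i0 : I) (j0 : J) :
    (GG r c b i0 j0).IsHomogeneous ((Fintype.card I - 1) + (Fintype.card J - 1)) := by
  apply IsHomogeneous.mul
  · have h5 := IsHomogeneous.prod (Finset.univ.erase i0) (fun i => LO r (c i) 0) (fun _ => 1)
      (fun t _ => LO_homog _ _)
    rwa [Finset.sum_const, smul_eq_mul, mul_one, Finset.card_erase_of_mem (Finset.mem_univ _),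
      Finset.card_univ] at h5
  · have h5 := IsHomogeneous.prod (Finset.univ.erase j0) (fun j => LO r (b j) 1) (fun _ => 1)
      (fun t _ => LO_homog _ _)
    rwa [Finset.sum_const, smul_eq_mul, mul_one, Finset.card_erase_of_mem (Finset.mem_univ _),
      Finset.card_univ] at h5

theorem X21 : (X 2 - X 1 : MvPolynomial (Fin (r + 3)) K) = LO r 0 1 := by
  rw [LO, map_zero, map_one]
  ring

theorem X2 : (X 2 : MvPolynomial (Fin (r + 3)) K) = LO r 0 0 := by
  rw [LO, map_zero]
  ring

theorem X21_ndvd_X1 : ¬ (X 2 - X 1 : MvPolynomial (Fin (r + 3)) K) ∣ X 1 := by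
  intro h
  have h1 : (X 2 - X 1 : MvPolynomial (Fin (r + 3)) K) ∣ X 2 := by
    have := dvd_add h (dvd_refl (X 2 - X 1 : MvPolynomial (Fin (r + 3)) K))
    convert this using 1
    ring
  have h2 : IsRelPrime (LO r 0 1 : MvPolynomial (Fin (r + 3)) K) (LO r 0 0) :=
    rel_OO (fun h => one_ne_zero h.2)
  rw [X21] at h1
  rw [X2] at h1
  exact (prime_O (r := r) (0 : K) 1).not_isUnit (h2 dvd_rfl h1)

/-- coefficients of the distinguished direction -/
theorem add_coeff {e : T → K} {c : I → K} (hc : Function.Injective c)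
    {b : J → K} (hb : Function.Injective b) (i0 : I) (j0 : J) (t0 : T)
    {G h : MvPolynomial (Fin (r + 3)) K}
    (h1 : ∀ i, LO r (c i) 0 ∣ h - C (c i) * RR r e t0 * G)
    (h2 : ∀ j, LO r (b j) 1 ∣ h - C (b j + e t0) * RR r e t0 * G) :
    ∃ v w, G = X 0 * v + GG r c b i0 j0 * w := by
  have hI : 0 < Fintype.card I := Fintype.card_pos_iff.2 ⟨i0⟩
  have hJ : 0 < Fintype.card J := Fintype.card_pos_iff.2 ⟨j0⟩
  have hI1 : ∏ i, LO r (c i) 0 ∣ X 0 * h - X 2 * RR r e t0 * G := by
    apply Finset.prod_dvd_of_isRelPrime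
    · intro i _ j _ hij
      exact rel_OO (fun hcc => hij (hc hcc.1))
    · intro i _
      have h6 : X 0 * h - X 2 * RR r e t0 * G = X 0 * (h - C (c i) * RR r e t0 * G) -
          LO r (c i) 0 * (RR r e t0 * G) := by
        rw [LO, map_zero]
        ring
      rw [h6]
      exact dvd_sub ((h1 i).mul_left _) (Dvd.intro _ rfl)
  have hI2 : X 2 ^ ((Fintype.card I - 1) + 1) ∣ rho 0 (X 0 * h - X 2 * RR r e t0 * G) := by
    have h5 := map_dvd (rho 0) hI1
    rw [map_prod, Finset.prod_congr rfl fun i _ => rho0_LO (c i) 0, map_zero, zero_mul, sub_zero,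
      Finset.prod_const, Finset.card_univ] at h5
    rwa [show (Fintype.card I - 1) + 1 = Fintype.card I by omega]
  have hI3 := pow_dvd (prime_X 2) (rho0_RR_ndvd e t0) hI2 (rho_X_ne ne20)
  have hJ1 : ∏ j, LO r (b j) 1 ∣ X 0 * (h - C (e t0) * RR r e t0 * G) -
      (X 2 - X 1) * RR r e t0 * G := by
    apply Finset.prod_dvd_of_isRelPrime
    · intro i _ j _ hij
      exact rel_OO (fun hcc => hij (hb hcc.1))
    · intro j _
      have h6 : X 0 * (h - C (e t0) * RR r e t0 * G) - (X 2 - X 1) * RR r e t0 * G =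
          X 0 * (h - C (b j + e t0) * RR r e t0 * G) - LO r (b j) 1 * (RR r e t0 * G) := by
        rw [LO, map_one, map_add]
        ring
      rw [h6]
      exact dvd_sub ((h2 j).mul_left _) (Dvd.intro _ rfl)
  have hyp : Prime (X 2 - X 1 : MvPolynomial (Fin (r + 3)) K) := by
    rw [X21]
    exact prime_O _ _
  have hyr : rho 0 (X 2 - X 1 : MvPolynomial (Fin (r + 3)) K) = X 2 - X 1 := by
    rw [map_sub, rho_X_ne ne20, rho_X_ne ne10]
  have hyR : ¬ (X 2 - X 1 : MvPolynomial (Fin (r + 3)) K) ∣ rho 0 (RR r e t0) := by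
    rw [rho0_RR]
    intro h
    exact X21_ndvd_X1 (hyp.dvd_of_dvd_pow h)
  have hJ2 : (X 2 - X 1) ^ ((Fintype.card J - 1) + 1) ∣
      rho 0 (X 0 * (h - C (e t0) * RR r e t0 * G) - (X 2 - X 1) * RR r e t0 * G) := by
    have h5 := map_dvd (rho 0) hJ1
    rw [map_prod, Finset.prod_congr rfl fun j _ => rho0_LO (b j) 1, map_one, one_mul,
      Finset.prod_const, Finset.card_univ] at h5
    rwa [show (Fintype.card J - 1) + 1 = Fintype.card J by omega]
  have hJ3 := pow_dvd hyp hyR hJ2 hyr
  have hrel : IsRelPrime (X 2 ^ (Fintype.card I - 1) : MvPolynomial (Fin (r + 3)) K)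
      ((X 2 - X 1) ^ (Fintype.card J - 1)) := by
    apply IsRelPrime.pow
    rw [X21, X2]
    exact rel_OO (fun h => zero_ne_one h.2)
  have h3 := hrel.mul_dvd hI3 hJ3
  obtain ⟨w, hw⟩ := h3
  rw [← rho0_GG c b i0 j0] at hw
  have h4 : rho 0 (G - GG r c b i0 j0 * w) = 0 := by
    rw [map_sub, map_mul]
    have h5 := congrArg (rho 0) hw
    rw [rho_idem, map_mul, rho_idem] at h5
    rw [h5, sub_self]
  obtain ⟨v, hv⟩ := (rho_eq_zero_iff 0 _).1 h4
  exact ⟨v, w, by linear_combination hv⟩

end

end Pool.Agent.H160.PG
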