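import Mathlib
import Pool.Agent.H160.PG.Add

set_option autoImplicit false

/-! # The additive arrangement is strictly plus-one generated: main theorem -/

namespace Pool.Agent.H160.PG

open MvPolynomial Pool.Agent.H160.TF

section

variable {K : Type*} [Field K] {r : ℕ} {T I J : Type*} [Fintype T] [DecidableEq T] [Fintype I]
  [Fintype J] [DecidableEq I] [DecidableEq J]

theorem homog3 {m : ℕ} {a b c : MvPolynomial (Fin (r + 3)) K} (ha : a.IsHomogeneous m)
    (hb : b.IsHomogeneous m) (hc : c.IsHomogeneous m) (j : Fin (r + 3)) :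
    ((Fin.cons a (Fin.cons b (Fin.cons c 0)) : Fin (r + 3) → MvPolynomial (Fin (r + 3)) K)
      j).IsHomogeneous m := by
  refine Fin.cases ha (fun j => ?_) j
  refine Fin.cases hb (fun j => ?_) j
  exact Fin.cases hc (fun j => isHomogeneous_zero _ _ _) j

/-- **the additive arrangement is strictly plus-one generated** -/
theorem add_po {e : T → K} (he : Function.Injective e) {c : I → K} (hc : Function.Injective c)
    {b : J → K} (hb : Function.Injective b) (hTc : ∀ i j, ∃ t, e t = c i - b j) (i0 : I) (j0 : J)
    (hT : 3 ≤ Fintype.card T) (hIJ : 3 ≤ Fintype.card I + Fintype.card J) :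
    PO (aarr r e c b)
      (Fin.cons 1 (Fin.cons (Fintype.card T) (Fin.cons (Fintype.card I + Fintype.card J)
        (fun _ => 1))))
      (Fintype.card T + Fintype.card I + Fintype.card J - 3) (-Pi.single 0 1) := by
  have hI : 0 < Fintype.card I := Fintype.card_pos_iff.2 ⟨i0⟩
  have hJ : 0 < Fintype.card J := Fintype.card_pos_iff.2 ⟨j0⟩
  obtain ⟨t0, ht0⟩ := hTc i0 j0
  obtain ⟨h1, h1h, h1I, h1J⟩ := add_h1 (r := r) hc hb hTc t0
  have hκ : b j0 + e t0 = c i0 := by
    rw [ht0]
    ring
  have hpq : ∀ o o' : I ⊕ J, (Sum.elim c b : I ⊕ J → K) o = Sum.elim c b o' →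
      (Sum.elim (fun _ => 0) (fun _ => 1) : I ⊕ J → K) o =
        Sum.elim (fun _ => 0) (fun _ => 1) o' → o = o' := by
    rintro (i | j) (i' | j') h1 h2
    · rw [hc h1]
    · exact absurd h2 zero_ne_one
    · exact absurd h2 one_ne_zero
    · rw [hb h1]
  set G2 : MvPolynomial (Fin (r + 3)) K := GG r c b i0 j0 with hG2
  set PP : MvPolynomial (Fin (r + 3)) K :=
    ∏ o : I ⊕ J, LO r (Sum.elim c b o) (Sum.elim (fun _ => 0) (fun _ => 1) o) with hPP
  have hPP' : PP = G2 * (LO r (c i0) 0 * LO r (b j0) 1) := prod_O c b i0 j0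
  have hPP0 : PP ≠ 0 := Finset.prod_ne_zero_iff.2 fun o _ => (prime_O _ _).ne_zero
  have hG20 : G2 ≠ 0 := by
    intro h0
    rw [h0, zero_mul] at hPP'
    exact hPP0 hPP'
  have hG2n : ¬ (X 0 : MvPolynomial (Fin (r + 3)) K) ∣ G2 := by
    rw [← rho_eq_zero_iff, hG2, rho0_GG]
    apply mul_ne_zero
    · exact pow_ne_zero _ (prime_X _).ne_zero
    · apply pow_ne_zero
      rw [X21]
      exact (prime_O _ _).ne_zero
  -- the last coefficient
  obtain ⟨s, hs, hsh⟩ : ∃ s : MvPolynomial (Fin (r + 3)) K,
      h1 - C (c i0) * RR r e t0 * X 0 = LO r (c i0) 0 * LO r (b j0) 1 * s ∧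
      s.IsHomogeneous (Fintype.card T - 2) := by
    have h2 : LO r (c i0) 0 * LO r (b j0) 1 ∣ h1 - C (c i0) * RR r e t0 * X 0 := by
      apply IsRelPrime.mul_dvd
      · exact rel_OO (fun h => zero_ne_one h.2)
      · exact h1I i0
      · rw [← hκ]
        exact h1J j0
    obtain ⟨s, hs⟩ := h2
    refine ⟨homogeneousComponent (Fintype.card T - 2) s, ?_, homogeneousComponent_isHomogeneous _ _⟩
    have h3 : (LO r (c i0) 0 * LO r (b j0) 1).IsHomogeneous 2 := (LO_homog _ _).mul (LO_homog _ _)
    have h4 := hc_mul h3 s (Fintype.card T)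
    rw [if_pos (by omega)] at h4
    rw [← h4, ← hs, map_sub, hc_of_hom h1h, if_pos rfl]
    have h5 : (C (c i0) * RR r e t0 * X 0).IsHomogeneous (Fintype.card T) := by
      have h1 := ((isHomogeneous_C (Fin (r + 3)) (c i0)).mul (RR_homog (r := r) e t0)).mul
        (isHomogeneous_X K (0 : Fin (r + 3)))
      rwa [zero_add, Nat.sub_add_cancel (by omega)] at h1
    rw [hc_of_hom h5, if_pos rfl]
  -- the generators
  set η1 : Fin (r + 3) → MvPolynomial (Fin (r + 3)) K := mk e t0 (X 0) h1 with hη1
  set η2 : Fin (r + 3) → MvPolynomial (Fin (r + 3)) K := mk e t0 G2 (C (c i0) * RR r e t0 * G2)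
    with hη2
  have m1 : η1 ∈ LD (aarr r e c b) := by
    apply mk_mem
    rintro (i | j)
    · simp only [Sum.elim_inl, zero_mul, add_zero]
      exact h1I i
    · simp only [Sum.elim_inr, one_mul]
      exact h1J j
  have m2 : η2 ∈ LD (aarr r e c b) := by
    apply mk_mem
    rintro (i | j)
    · simp only [Sum.elim_inl, zero_mul, add_zero]
      by_cases hi : i = i0
      · rw [hi, sub_self]
        exact dvd_zero _
      · have h2 : LO r (c i) 0 ∣ G2 := (Finset.dvd_prod_of_mem (fun i => LO r (c i) 0)
          (Finset.mem_erase.2 ⟨hi, Finset.mem_univ i⟩)).mul_right _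
        exact dvd_sub (h2.mul_left _) (h2.mul_left _)
    · simp only [Sum.elim_inr, one_mul]
      by_cases hj : j = j0
      · rw [hj, hκ, sub_self]
        exact dvd_zero _
      · have h2 : LO r (b j) 1 ∣ G2 := (Finset.dvd_prod_of_mem (fun j => LO r (b j) 1)
          (Finset.mem_erase.2 ⟨hj, Finset.mem_univ j⟩)).mul_left _
        exact dvd_sub (h2.mul_left _) (h2.mul_left _)
  have m3 : phi PP ∈ LD (aarr r e c b) := phi_mem e _ _ fun o => Finset.dvd_prod_of_mem
    (fun o : I ⊕ J => LO r (Sum.elim c b o) (Sum.elim (fun _ => 0) (fun _ => 1) o))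
    (Finset.mem_univ o)
  have ph : ∀ i : Fin (r + 3), i ≠ 2 → phi PP i = 0 := fun i h => Pi.single_eq_of_ne h _
  have ph2 : phi PP 2 = PP := Pi.single_eq_same _ _
  set θ : Fin (r + 3) → Fin (r + 3) → MvPolynomial (Fin (r + 3)) K :=
    Fin.cons (b1 K r none) (Fin.cons η1 (Fin.cons (phi PP) (fun j => b1 K r (some j)))) with hθ
  set f : Fin (r + 3) → MvPolynomial (Fin (r + 3)) K := Fin.cons 0 (Fin.cons G2 (Fin.cons (-s) 0))
    with hf
  have bs : ∀ (j : Fin r) (i : Fin (r + 3)), i ≠ j.succ.succ.succ → b1 K r (some j) i = 0 :=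
    fun j i h => Pi.single_eq_of_ne h _
  have bss : ∀ j : Fin r, b1 K r (some j) j.succ.succ.succ = X j.succ.succ.succ :=
    fun j => Pi.single_eq_same _ _
  have inj3 : ∀ {j k : Fin r}, j.succ.succ.succ = k.succ.succ.succ → j = k := fun h =>
    Fin.succ_injective _ (Fin.succ_injective _ (Fin.succ_injective _ h))
  -- a general combination
  have comb : ∀ (g : Fin (r + 3) → MvPolynomial (Fin (r + 3)) K) (z : MvPolynomial (Fin (r + 3)) K),
      (∑ i, g i • θ i + z • η2) 0 = g 0 * X 0 + (g 1 * X 0 + z * G2) * RR r e t0 ∧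
      (∑ i, g i • θ i + z • η2) 1 = g 0 * X 1 + (g 1 * X 0 + z * G2) * (C (e t0) * RR r e t0) ∧
      (∑ i, g i • θ i + z • η2) 2 = g 0 * X 2 + g 1 * h1 + g 2 * PP +
        z * (C (c i0) * RR r e t0 * G2) ∧
      ∀ j : Fin r, (∑ i, g i • θ i + z • η2) j.succ.succ.succ =
        g j.succ.succ.succ * X j.succ.succ.succ := by
    intro g z
    have hsum : ∀ k : Fin (r + 3), (∑ i, g i • θ i + z • η2) k = g 0 * b1 K r none k +
        (g 1 * η1 k + (g 2 * phi PP k + ∑ j : Fin r, g j.succ.succ.succ * b1 K r (some j) k)) +
        z * η2 k := by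
      intro k
      rw [Pi.add_apply, Finset.sum_apply, sum3]
      rfl
    refine ⟨?_, ?_, ?_, fun j => ?_⟩
    · rw [hsum, ph 0 ne20.symm, Finset.sum_eq_zero fun j _ => by
        rw [bs j 0 (sss_ne0 j).symm, mul_zero]]
      have e1 : b1 K r none 0 = X 0 := rfl
      have e2 : η1 0 = X 0 * RR r e t0 := rfl
      have e3 : η2 0 = G2 * RR r e t0 := rfl
      rw [e1, e2, e3]
      ring
    · rw [hsum, ph 1 ne21.symm, Finset.sum_eq_zero fun j _ => by
        rw [bs j 1 (sss_ne1 j).symm, mul_zero]]
      have e1 : b1 K r none 1 = X 1 := rfl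
      have e2 : η1 1 = X 0 * (C (e t0) * RR r e t0) := rfl
      have e3 : η2 1 = G2 * (C (e t0) * RR r e t0) := rfl
      rw [e1, e2, e3]
      ring
    · rw [hsum, ph2, Finset.sum_eq_zero fun j _ => by
        rw [bs j 2 (sss_ne2 j).symm, mul_zero]]
      have e1 : b1 K r none 2 = X 2 := rfl
      have e2 : η1 2 = h1 := rfl
      have e3 : η2 2 = C (c i0) * RR r e t0 * G2 := rfl
      rw [e1, e2, e3]
      ring
    · rw [hsum, ph _ (sss_ne2 j), Finset.sum_eq_single j, bss]
      · have e1 : b1 K r none j.succ.succ.succ = 0 := rfl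
        have e2 : η1 j.succ.succ.succ = 0 := rfl
        have e3 : η2 j.succ.succ.succ = 0 := rfl
        rw [e1, e2, e3]
        ring
      · intro k _ hk
        rw [bs k _ (fun h => hk (inj3 h).symm), mul_zero]
      · intro h
        exact absurd (Finset.mem_univ _) h
  have hlf : lf (-Pi.single 0 1 : Fin (r + 3) → K) = -X 0 := by
    rw [lf_neg, lf_single]
  refine ⟨θ, η2, f, ?_, ?_, ?_, ?_, ?_, ?_, ?_⟩
  · -- degrees
    have k1 : HomF 1 (b1 K r none) := fun j =>
      homog3 (isHomogeneous_X K _) (isHomogeneous_X K _) (isHomogeneous_X K _) j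
    have k2 : HomF (Fintype.card T) η1 := by
      intro j
      apply homog3 _ _ h1h j
      · have h2 := (isHomogeneous_X K (0 : Fin (r + 3))).mul (RR_homog (r := r) e t0)
        rwa [show 1 + (Fintype.card T - 1) = Fintype.card T by omega] at h2
      · have h2 := (isHomogeneous_X K (0 : Fin (r + 3))).mul
          ((isHomogeneous_C (Fin (r + 3)) (e t0)).mul (RR_homog (r := r) e t0))
        rwa [zero_add, show 1 + (Fintype.card T - 1) = Fintype.card T by omega] at h2
    have k3 : HomF (Fintype.card I + Fintype.card J) (phi PP) := by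
      intro j
      by_cases hj : j = 2
      · rw [hj, ph2, hPP']
        have h2 := (GG_homog (r := r) c b i0 j0).mul
          ((LO_homog (r := r) (c i0) 0).mul (LO_homog (b j0) 1))
        rw [show Fintype.card I - 1 + (Fintype.card J - 1) + (1 + 1) =
          Fintype.card I + Fintype.card J by omega] at h2
        exact h2
      · rw [ph j hj]
        exact isHomogeneous_zero _ _ _
    have k4 : ∀ j : Fin r, HomF 1 (b1 K r (some j)) := by
      intro j i
      by_cases hi : i = j.succ.succ.succ
      · rw [hi, bss]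
        exact isHomogeneous_X K _
      · rw [bs j i hi]
        exact isHomogeneous_zero _ _ _
    intro i
    refine Fin.cases k1 (fun i => ?_) i
    refine Fin.cases k2 (fun i => ?_) i
    exact Fin.cases k3 (fun i => k4 i) i
  · -- degree of the last generator
    intro j
    have h2 := (GG_homog (r := r) c b i0 j0).mul (RR_homog (r := r) e t0)
    rw [show Fintype.card I - 1 + (Fintype.card J - 1) + (Fintype.card T - 1) =
      Fintype.card T + Fintype.card I + Fintype.card J - 3 by omega] at h2
    apply homog3 h2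
    · have h3 := (isHomogeneous_C (Fin (r + 3)) (e t0)).mul h2
      rw [zero_add] at h3
      convert h3 using 1
      ring
    · have h3 := (isHomogeneous_C (Fin (r + 3)) (c i0)).mul h2
      rw [zero_add] at h3
      convert h3 using 1
      ring
  · -- generation
    apply le_antisymm
    · intro ζ hζ
      obtain ⟨F, G, h, z0, z1, z2, z3, -⟩ := decomp he t0 hζ
      obtain ⟨v, w, hvw⟩ := add_coeff hc hb i0 j0 t0 (G := G) (h := h)
        (fun i => by
          have := z3 (Sum.inl i)
          simpa only [Sum.elim_inl, zero_mul, add_zero] using this)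
        (fun j => by
          have := z3 (Sum.inr j)
          simpa only [Sum.elim_inr, one_mul] using this)
      have h5 : PP ∣ h - v * h1 - w * (C (c i0) * RR r e t0 * G2) := by
        apply Finset.prod_dvd_of_isRelPrime
        · intro o _ o' _ hoo
          exact rel_OO (fun hcc => hoo (hpq _ _ hcc.1 hcc.2))
        · intro o _
          have w1 := z3 o
          have w2 : LO r (Sum.elim c b o) (Sum.elim (fun _ => 0) (fun _ => 1) o) ∣
              h1 - C (Sum.elim c b o + Sum.elim (fun _ => 0) (fun _ => 1) o * e t0) *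
                RR r e t0 * X 0 := by
            rcases o with i | j
            · simp only [Sum.elim_inl, zero_mul, add_zero]
              exact h1I i
            · simp only [Sum.elim_inr, one_mul]
              exact h1J j
          have w3 : LO r (Sum.elim c b o) (Sum.elim (fun _ => 0) (fun _ => 1) o) ∣
              C (c i0) * RR r e t0 * G2 -
              C (Sum.elim c b o + Sum.elim (fun _ => 0) (fun _ => 1) o * e t0) *
                RR r e t0 * G2 := by
            have m2' := (mem_arr.1 m2).2.1 o
            have e2 : η2 0 = G2 * RR r e t0 := rfl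
            have e3 : η2 1 = G2 * (C (e t0) * RR r e t0) := rfl
            have e4 : η2 2 = C (c i0) * RR r e t0 * G2 := rfl
            rw [e2, e3, e4] at m2'
            convert m2' using 1
            rw [map_add, map_mul]
            ring
          rw [hvw] at w1
          have w4 := dvd_sub (dvd_sub w1 (w2.mul_left v)) (w3.mul_left w)
          convert w4 using 1
          ring
      obtain ⟨t, ht⟩ := h5
      have h6 : ∀ j : Fin r, ∃ u, ζ j.succ.succ.succ = X j.succ.succ.succ * u := fun j =>
        (mem_arr.1 hζ).2.2 j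
      choose u hu using h6
      have h7 : ζ = ∑ i, (Fin.cons F (Fin.cons v (Fin.cons t u)) :
          Fin (r + 3) → MvPolynomial (Fin (r + 3)) K) i • θ i + w • η2 := by
        obtain ⟨c0, c1, c2, c3⟩ := comb (Fin.cons F (Fin.cons v (Fin.cons t u))) w
        apply ext3
        · rw [c0, z0, hvw]
          show F * X 0 + (X 0 * v + GG r c b i0 j0 * w) * RR r e t0 =
            F * X 0 + (v * X 0 + w * G2) * RR r e t0
          rw [hG2]
          ring
        · rw [c1, z1, hvw]
          show F * X 1 + (X 0 * v + GG r c b i0 j0 * w) * (C (e t0) * RR r e t0) =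
            F * X 1 + (v * X 0 + w * G2) * (C (e t0) * RR r e t0)
          rw [hG2]
          ring
        · rw [c2, z2]
          show F * X 2 + h = F * X 2 + v * h1 + t * PP + w * (C (c i0) * RR r e t0 * G2)
          linear_combination ht
        · intro j
          rw [c3, hu]
          show X j.succ.succ.succ * u j = u j * X j.succ.succ.succ
          ring
      rw [h7]
      apply Submodule.add_mem
      · exact Submodule.sum_mem _ fun i _ => Submodule.smul_mem _ _
          (Submodule.subset_span (Set.mem_insert_of_mem _ ⟨i, rfl⟩))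
      · exact Submodule.smul_mem _ _ (Submodule.subset_span (Set.mem_insert _ _))
    · rw [Submodule.span_le]
      rintro x (rfl | ⟨i, rfl⟩)
      · exact m2
      · refine Fin.cases ?_ (fun i => ?_) i
        · exact b1_mem e _ _ none
        · refine Fin.cases m1 (fun i => ?_) i
          exact Fin.cases m3 (fun i => b1_mem e _ _ (some i)) i
  · -- degrees of the coefficients
    intro i
    refine Fin.cases ?_ (fun i => ?_) i
    · right
      rfl
    · refine Fin.cases ?_ (fun i => ?_) i
      · left
        refine ⟨Fintype.card I - 1 + (Fintype.card J - 1), by omega, ?_, GG_homog c b i0 j0⟩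
        show Fintype.card I - 1 + (Fintype.card J - 1) + Fintype.card T = _
        omega
      · refine Fin.cases ?_ (fun i => ?_) i
        · left
          refine ⟨Fintype.card T - 2, by omega, ?_, hsh.neg⟩
          show Fintype.card T - 2 + (Fintype.card I + Fintype.card J) = _
          omega
        · right
          rfl
  · right
    intro h0
    have := congrFun h0 0
    simp at this
  · -- the relation
    rw [hlf]
    obtain ⟨c0, c1, c2, c3⟩ := comb f (-X 0)
    have f0 : f 0 = 0 := rfl
    have f1 : f 1 = G2 := rfl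
    have f2 : f 2 = -s := rfl
    apply ext3
    · rw [c0, f0, f1, Pi.zero_apply]
      ring
    · rw [c1, f0, f1, Pi.zero_apply]
      ring
    · rw [c2, f0, f1, f2, hPP', Pi.zero_apply]
      linear_combination G2 * hs
    · intro j
      rw [c3]
      show (0 : MvPolynomial (Fin (r + 3)) K) * _ = 0
      ring
  · -- all relations
    intro g z hg
    obtain ⟨c0, c1, c2, c3⟩ := comb g z
    rw [hg, Pi.zero_apply] at c0 c1 c2
    have hg0 : g 0 = 0 := by
      have h2 : g 0 * LP r (e t0) = 0 := by
        rw [LP]
        linear_combination C (e t0) * c0 - c1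
      exact (mul_eq_zero.1 h2).resolve_right (prime_P _).ne_zero
    have h3 : g 1 * X 0 + z * G2 = 0 := by
      rw [hg0, zero_mul, zero_add] at c0
      exact (mul_eq_zero.1 c0.symm).resolve_right (RR_ne e t0)
    have h4 : (X 0 : MvPolynomial (Fin (r + 3)) K) ∣ z := by
      have h5 : (X 0 : MvPolynomial (Fin (r + 3)) K) ∣ z * G2 :=
        ⟨-g 1, by linear_combination h3⟩
      exact ((prime_X 0).dvd_or_dvd h5).resolve_right hG2n
    obtain ⟨y, hy⟩ := h4
    have h5 : g 1 = -y * G2 := by
      apply mul_right_cancel₀ (prime_X (K := K) (0 : Fin (r + 3))).ne_zero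
      rw [hy] at h3
      linear_combination h3
    refine ⟨-y, fun i => ?_, ?_⟩
    · refine Fin.cases ?_ (fun i => ?_) i
      · show g 0 = -y * 0
        rw [hg0, mul_zero]
      · refine Fin.cases ?_ (fun i => ?_) i
        · exact h5
        · refine Fin.cases ?_ (fun i => ?_) i
          · show g 2 = -y * -s
            apply mul_right_cancel₀ hPP0
            rw [hg0, h5, hy] at c2
            rw [hPP'] at c2 ⊢
            linear_combination (-1 : MvPolynomial (Fin (r + 3)) K) * c2 + y * G2 * hs
          · show g i.succ.succ.succ = -y * 0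
            have h6 := c3 i
            rw [hg, Pi.zero_apply] at h6
            rw [mul_zero]
            exact (mul_eq_zero.1 h6.symm).resolve_right (prime_X _).ne_zero
    · rw [hlf, hy]
      ring

end

end Pool.Agent.H160.PG
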