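import Mathlib
import Pool.Agent.H160.PG.Mul2
import Pool.Agent.H160.TF.Lattice

set_option autoImplicit false

/-! # Spans and closures in the arrangements -/

namespace Pool.Agent.H160.PG

open MvPolynomial Pool.Agent.H160.TF

section

variable {K : Type*} [Field K] {r : ℕ}

/-- the determinant of the first three coordinates -/
def D3 (u v w : Fin (r + 3) → K) : K :=
  u 0 * (v 1 * w 2 - v 2 * w 1) - u 1 * (v 0 * w 2 - v 2 * w 0) + u 2 * (v 0 * w 1 - v 1 * w 0)

/-- no further coordinates -/
def Flat3 (u : Fin (r + 3) → K) : Prop := ∀ j : Fin r, u j.succ.succ.succ = 0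

theorem D3_of_mem {u v w : Fin (r + 3) → K} (h : w ∈ Submodule.span K {u, v}) : D3 u v w = 0 := by
  obtain ⟨x, y, rfl⟩ := Submodule.mem_span_pair.1 h
  simp only [D3, Pi.add_apply, Pi.smul_apply, smul_eq_mul]
  ring

theorem cramer3 {u v w z : Fin (r + 3) → K} (hu : Flat3 u) (hv : Flat3 v) (hw : Flat3 w)
    (hz : Flat3 z) (h : D3 u v w ≠ 0) :
    z = (D3 z v w / D3 u v w) • u + (D3 u z w / D3 u v w) • v + (D3 u v z / D3 u v w) • w := by
  have key : D3 u v w • z = D3 z v w • u + D3 u z w • v + D3 u v z • w := by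
    apply ext3
    · simp only [D3, Pi.add_apply, Pi.smul_apply, smul_eq_mul]
      ring
    · simp only [D3, Pi.add_apply, Pi.smul_apply, smul_eq_mul]
      ring
    · simp only [D3, Pi.add_apply, Pi.smul_apply, smul_eq_mul]
      ring
    · intro j
      simp only [Pi.add_apply, Pi.smul_apply, smul_eq_mul, hu j, hv j, hw j, hz j, mul_zero,
        add_zero]
  calc z = (D3 u v w)⁻¹ • (D3 u v w • z) := by rw [smul_smul, inv_mul_cancel₀ h, one_smul]
    _ = (D3 u v w)⁻¹ • (D3 z v w • u + D3 u z w • v + D3 u v z • w) := by rw [key]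
    _ = _ := by simp only [smul_add, smul_smul, div_eq_inv_mul]

theorem mem_of_D3 {u v w : Fin (r + 3) → K} (hu : Flat3 u) (hv : Flat3 v) (hw : Flat3 w)
    (hu0 : u ≠ 0) (hv0 : ∀ c : K, v ≠ c • u) (h : D3 u v w = 0) : w ∈ Submodule.span K {u, v} := by
  rw [Submodule.mem_span_pair]
  have hn : ¬ (u 1 * v 2 - u 2 * v 1 = 0 ∧ u 2 * v 0 - u 0 * v 2 = 0 ∧
      u 0 * v 1 - u 1 * v 0 = 0) := by
    rintro ⟨n0, n1, n2⟩
    have h1 : ∃ i, u i ≠ 0 ∧ v = (v i / u i) • u := by
      by_cases u0 : u 0 = 0
      · by_cases u1 : u 1 = 0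
        · by_cases u2 : u 2 = 0
          · exfalso
            apply hu0
            exact ext3 u0 u1 u2 hu
          · refine ⟨2, u2, ?_⟩
            apply ext3
            · simp only [Pi.smul_apply, smul_eq_mul]
              field_simp
              linear_combination n1
            · simp only [Pi.smul_apply, smul_eq_mul]
              field_simp
              linear_combination -n0
            · simp only [Pi.smul_apply, smul_eq_mul]
              field_simp
            · intro j
              rw [Pi.smul_apply, hu j, hv j, smul_zero]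
        · refine ⟨1, u1, ?_⟩
          apply ext3
          · simp only [Pi.smul_apply, smul_eq_mul]
            field_simp
            linear_combination -n2
          · simp only [Pi.smul_apply, smul_eq_mul]
            field_simp
          · simp only [Pi.smul_apply, smul_eq_mul]
            field_simp
            linear_combination n0
          · intro j
            rw [Pi.smul_apply, hu j, hv j, smul_zero]
      · refine ⟨0, u0, ?_⟩
        apply ext3
        · simp only [Pi.smul_apply, smul_eq_mul]
          field_simp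
        · simp only [Pi.smul_apply, smul_eq_mul]
          field_simp
          linear_combination n2
        · simp only [Pi.smul_apply, smul_eq_mul]
          field_simp
          linear_combination -n1
        · intro j
          rw [Pi.smul_apply, hu j, hv j, smul_zero]
    obtain ⟨i, -, hi⟩ := h1
    exact hv0 _ hi
  unfold D3 at h
  by_cases n2 : u 0 * v 1 - u 1 * v 0 = 0
  · by_cases n1 : u 2 * v 0 - u 0 * v 2 = 0
    · have n0 : u 1 * v 2 - u 2 * v 1 ≠ 0 := fun h0 => hn ⟨h0, n1, n2⟩
      refine ⟨(w 1 * v 2 - w 2 * v 1) / (u 1 * v 2 - u 2 * v 1),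
        (u 1 * w 2 - u 2 * w 1) / (u 1 * v 2 - u 2 * v 1), ?_⟩
      apply ext3
      · rw [Pi.add_apply, Pi.smul_apply, Pi.smul_apply, smul_eq_mul, smul_eq_mul,
          div_mul_eq_mul_div, div_mul_eq_mul_div, ← add_div, div_eq_iff n0]
        linear_combination (-1) * h
      · rw [Pi.add_apply, Pi.smul_apply, Pi.smul_apply, smul_eq_mul, smul_eq_mul,
          div_mul_eq_mul_div, div_mul_eq_mul_div, ← add_div, div_eq_iff n0]
        ring
      · rw [Pi.add_apply, Pi.smul_apply, Pi.smul_apply, smul_eq_mul, smul_eq_mul,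
          div_mul_eq_mul_div, div_mul_eq_mul_div, ← add_div, div_eq_iff n0]
        ring
      · intro j
        rw [Pi.add_apply, Pi.smul_apply, Pi.smul_apply, hu j, hv j, hw j, smul_zero, smul_zero,
          add_zero]
    · refine ⟨(w 2 * v 0 - w 0 * v 2) / (u 2 * v 0 - u 0 * v 2),
        (u 2 * w 0 - u 0 * w 2) / (u 2 * v 0 - u 0 * v 2), ?_⟩
      apply ext3
      · rw [Pi.add_apply, Pi.smul_apply, Pi.smul_apply, smul_eq_mul, smul_eq_mul,
          div_mul_eq_mul_div, div_mul_eq_mul_div, ← add_div, div_eq_iff n1]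
        ring
      · rw [Pi.add_apply, Pi.smul_apply, Pi.smul_apply, smul_eq_mul, smul_eq_mul,
          div_mul_eq_mul_div, div_mul_eq_mul_div, ← add_div, div_eq_iff n1]
        linear_combination (-1) * h
      · rw [Pi.add_apply, Pi.smul_apply, Pi.smul_apply, smul_eq_mul, smul_eq_mul,
          div_mul_eq_mul_div, div_mul_eq_mul_div, ← add_div, div_eq_iff n1]
        ring
      · intro j
        rw [Pi.add_apply, Pi.smul_apply, Pi.smul_apply, hu j, hv j, hw j, smul_zero, smul_zero,
          add_zero]
  · refine ⟨(w 0 * v 1 - w 1 * v 0) / (u 0 * v 1 - u 1 * v 0),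
      (u 0 * w 1 - u 1 * w 0) / (u 0 * v 1 - u 1 * v 0), ?_⟩
    apply ext3
    · rw [Pi.add_apply, Pi.smul_apply, Pi.smul_apply, smul_eq_mul, smul_eq_mul,
        div_mul_eq_mul_div, div_mul_eq_mul_div, ← add_div, div_eq_iff n2]
      ring
    · rw [Pi.add_apply, Pi.smul_apply, Pi.smul_apply, smul_eq_mul, smul_eq_mul,
        div_mul_eq_mul_div, div_mul_eq_mul_div, ← add_div, div_eq_iff n2]
      ring
    · rw [Pi.add_apply, Pi.smul_apply, Pi.smul_apply, smul_eq_mul, smul_eq_mul,
        div_mul_eq_mul_div, div_mul_eq_mul_div, ← add_div, div_eq_iff n2]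
      linear_combination (-1) * h
    · intro j
      rw [Pi.add_apply, Pi.smul_apply, Pi.smul_apply, hu j, hv j, hw j, smul_zero, smul_zero,
        add_zero]

/-- the closure of a set of points of a plane -/
theorem closure3 {X : Type*} {a : X → Fin (r + 3) → K} (ha : Dist a) (hf : ∀ x, Flat3 (a x))
    (S : Set X) (x : X) : a x ∈ Submodule.span K (a '' S) ↔
      x ∈ S ∨ (∃ y ∈ S, ∃ z ∈ S, y ≠ z ∧ D3 (a y) (a z) (a x) = 0) ∨
        ∃ y ∈ S, ∃ z ∈ S, ∃ w ∈ S, D3 (a y) (a z) (a w) ≠ 0 := by
  constructor
  · intro h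
    by_contra hcon
    push Not at hcon
    obtain ⟨h1, h2, h3⟩ := hcon
    by_cases hS : ∃ y ∈ S, ∃ z ∈ S, y ≠ z
    · obtain ⟨y, hy, z, hz, hyz⟩ := hS
      have h4 : Submodule.span K (a '' S) ≤ Submodule.span K {a y, a z} := by
        rw [Submodule.span_le]
        rintro _ ⟨w, hw, rfl⟩
        exact mem_of_D3 (hf y) (hf z) (hf w) (ha.2 y) (fun c => ha.1 z y hyz.symm c)
          (h3 y hy z hz w hw)
      exact h2 y hy z hz hyz (D3_of_mem (h4 h))
    · push Not at hS
      rcases S.eq_empty_or_nonempty with rfl | ⟨y, hy⟩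
      · rw [Set.image_empty, Submodule.span_empty, Submodule.mem_bot] at h
        exact ha.2 x h
      · have h4 : Submodule.span K (a '' S) ≤ Submodule.span K {a y} := by
          rw [Submodule.span_le]
          rintro _ ⟨w, hw, rfl⟩
          rw [← hS y hy w hw]
          exact Submodule.mem_span_singleton_self _
        obtain ⟨c, hc⟩ := Submodule.mem_span_singleton.1 (h4 h)
        have hxy : x ≠ y := fun h => h1 (h ▸ hy)
        exact ha.1 x y hxy c hc.symm
  · rintro (h | ⟨y, hy, z, hz, hyz, h⟩ | ⟨y, hy, z, hz, w, hw, h⟩)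
    · exact Submodule.subset_span ⟨x, h, rfl⟩
    · have h1 := mem_of_D3 (hf y) (hf z) (hf x) (ha.2 y) (fun c => ha.1 z y hyz.symm c) h
      have h2 : Submodule.span K {a y, a z} ≤ Submodule.span K (a '' S) := by
        rw [Submodule.span_le]
        rintro v (rfl | rfl)
        · exact Submodule.subset_span ⟨y, hy, rfl⟩
        · exact Submodule.subset_span ⟨z, hz, rfl⟩
      exact h2 h1
    · rw [cramer3 (hf y) (hf z) (hf w) (hf x) h]
      exact Submodule.add_mem _ (Submodule.add_mem _
        (Submodule.smul_mem _ _ (Submodule.subset_span ⟨y, hy, rfl⟩))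
        (Submodule.smul_mem _ _ (Submodule.subset_span ⟨z, hz, rfl⟩)))
        (Submodule.smul_mem _ _ (Submodule.subset_span ⟨w, hw, rfl⟩))

/-- forgetting the last coordinates -/
def pj (K : Type*) [Field K] (r : ℕ) : (Fin (r + 3) → K) →ₗ[K] (Fin (r + 3) → K) where
  toFun v := v3 r (v 0) (v 1) (v 2)
  map_add' u v := by
    apply ext3
    · simp
    · simp
    · simp
    · intro j
      simp
  map_smul' c v := by
    apply ext3
    · simp
    · simp
    · simp
    · intro j
      simp

variable {T O : Type*}

/-- the embedding of the first part -/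
def emb (r : ℕ) : T ⊕ O → T ⊕ (O ⊕ Fin r) := Sum.map id Sum.inl

theorem flat_emb (e : T → K) (p q : O → K) (x : T ⊕ O) : Flat3 (arr r e p q (emb r x)) := by
  rcases x with t | o
  · intro j
    rfl
  · intro j
    rfl

theorem dist_emb {e : T → K} {p q : O → K} (h : Dist (arr r e p q)) :
    Dist (fun x => arr r e p q (emb r x)) := by
  refine ⟨fun x y hxy c => h.1 _ _ (fun hh => hxy ?_) c, fun x => h.2 _⟩
  rcases x with t | o <;> rcases y with t' | o'
  · simpa [emb] using hh
  · simp [emb] at hh
  · simp [emb] at hh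
  · simpa [emb] using hh

theorem mem_span_emb (e : T → K) (p q : O → K) (S : Set (T ⊕ (O ⊕ Fin r))) (x : T ⊕ O) :
    arr r e p q (emb r x) ∈ Submodule.span K (arr r e p q '' S) ↔
      arr r e p q (emb r x) ∈ Submodule.span K ((fun x => arr r e p q (emb r x)) ''
        { x | emb r x ∈ S }) := by
  constructor
  · intro h
    have h1 : pj K r (arr r e p q (emb r x)) = arr r e p q (emb r x) := by
      apply ext3
      · rfl
      · rfl
      · rfl
      · intro j
        rw [flat_emb e p q x j]
        rfl
    rw [← h1]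
    have h2 := Submodule.mem_map_of_mem (f := pj K r) h
    rw [Submodule.map_span] at h2
    refine Submodule.span_le.2 ?_ h2
    rintro _ ⟨_, ⟨y, hy, rfl⟩, rfl⟩
    rcases y with t | o | j
    · apply Submodule.subset_span
      refine ⟨Sum.inl t, hy, ?_⟩
      apply ext3
      · rfl
      · rfl
      · rfl
      · intro j
        rfl
    · apply Submodule.subset_span
      refine ⟨Sum.inr o, hy, ?_⟩
      apply ext3
      · rfl
      · rfl
      · rfl
      · intro j
        rfl
    · have h3 : pj K r (arr r e p q (Sum.inr (Sum.inr j))) = 0 := by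
        apply ext3
        · show (Pi.single j.succ.succ.succ 1 : Fin (r + 3) → K) 0 = 0
          rw [Pi.single_apply, if_neg (sss_ne0 j).symm]
        · show (Pi.single j.succ.succ.succ 1 : Fin (r + 3) → K) 1 = 0
          rw [Pi.single_apply, if_neg (sss_ne1 j).symm]
        · show (Pi.single j.succ.succ.succ 1 : Fin (r + 3) → K) 2 = 0
          rw [Pi.single_apply, if_neg (sss_ne2 j).symm]
        · intro j
          rfl
      rw [SetLike.mem_coe, h3]
      exact Submodule.zero_mem _
  · intro h
    refine Submodule.span_mono ?_ h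
    rintro _ ⟨y, hy, rfl⟩
    exact ⟨emb r y, hy, rfl⟩

theorem mem_span_Y (e : T → K) (p q : O → K) (S : Set (T ⊕ (O ⊕ Fin r))) (j : Fin r) :
    arr r e p q (Sum.inr (Sum.inr j)) ∈ Submodule.span K (arr r e p q '' S) ↔
      Sum.inr (Sum.inr j) ∈ S := by
  constructor
  · intro h
    by_contra hcon
    have h1 : Submodule.span K (arr r e p q '' S) ≤
        LinearMap.ker (LinearMap.proj (j.succ.succ.succ) : (Fin (r + 3) → K) →ₗ[K] K) := by
      rw [Submodule.span_le]
      rintro _ ⟨y, hy, rfl⟩
      rw [SetLike.mem_coe, LinearMap.mem_ker, LinearMap.proj_apply]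
      rcases y with t | o | k
      · rfl
      · rfl
      · show (Pi.single k.succ.succ.succ 1 : Fin (r + 3) → K) j.succ.succ.succ = 0
        rw [Pi.single_apply, if_neg]
        intro hh
        apply hcon
        rw [Fin.succ_injective _ (Fin.succ_injective _ (Fin.succ_injective _ hh))]
        exact hy
    have h2 := h1 h
    rw [LinearMap.mem_ker, LinearMap.proj_apply] at h2
    have h3 : arr r e p q (Sum.inr (Sum.inr j)) j.succ.succ.succ = 1 := by
      show (Pi.single j.succ.succ.succ 1 : Fin (r + 3) → K) j.succ.succ.succ = 1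
      rw [Pi.single_eq_same]
    rw [h3] at h2
    exact one_ne_zero h2
  · intro h
    exact Submodule.subset_span ⟨_, h, rfl⟩

/-- arrangements with the same collinear triples have the same closed sets -/
theorem same_closure {e e' : T → K} {p q p' q' : O → K} (h : Dist (arr r e p q))
    (h' : Dist (arr r e' p' q'))
    (hD : ∀ x y z : T ⊕ O, D3 (arr r e p q (emb r x)) (arr r e p q (emb r y))
      (arr r e p q (emb r z)) = 0 ↔ D3 (arr r e' p' q' (emb r x)) (arr r e' p' q' (emb r y))
      (arr r e' p' q' (emb r z)) = 0) (S : Set (T ⊕ (O ⊕ Fin r))) (x : T ⊕ (O ⊕ Fin r)) :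
    arr r e p q x ∈ Submodule.span K (arr r e p q '' S) ↔
      arr r e' p' q' x ∈ Submodule.span K (arr r e' p' q' '' S) := by
  have key : ∀ x : T ⊕ O, arr r e p q (emb r x) ∈ Submodule.span K (arr r e p q '' S) ↔
      arr r e' p' q' (emb r x) ∈ Submodule.span K (arr r e' p' q' '' S) := by
    intro x
    rw [mem_span_emb, mem_span_emb, closure3 (dist_emb h) (flat_emb e p q),
      closure3 (dist_emb h') (flat_emb e' p' q')]
    simp only [hD, ne_eq]
  rcases x with t | o | j
  · exact key (Sum.inl t)
  · exact key (Sum.inr o)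
  · rw [mem_span_Y, mem_span_Y]

end

end Pool.Agent.H160.PG
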