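import Mathlib
import Pool.Agent.H160.PG.Add2
import Pool.Agent.H160.PG.Lat

set_option autoImplicit false

/-! # The two arrangements have the same collinear triples -/

namespace Pool.Agent.H160.PG

open MvPolynomial Pool.Agent.H160.TF

section

variable {K : Type*} [Field K] {r : ℕ} {T I J : Type*}

theorem D3_swap12 (u v w : Fin (r + 3) → K) : D3 v u w = -D3 u v w := by
  unfold D3
  ring

theorem D3_swap23 (u v w : Fin (r + 3) → K) : D3 u w v = -D3 u v w := by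
  unfold D3
  ring

theorem D3_PPP (a b c : K) : D3 (v3 r (-a) 1 0) (v3 r (-b) 1 0) (v3 r (-c) 1 0) = 0 := by
  simp only [D3, v3_0, v3_1, v3_2]
  ring

theorem D3_PPO (a b p q : K) :
    D3 (v3 r (-a) 1 0) (v3 r (-b) 1 0) (v3 r (-p) (-q) 1) = b - a := by
  simp only [D3, v3_0, v3_1, v3_2]
  ring

theorem D3_POO (a p q p' q' : K) :
    D3 (v3 r (-a) 1 0) (v3 r (-p) (-q) 1) (v3 r (-p') (-q') 1) = a * (q - q') + (p - p') := by
  simp only [D3, v3_0, v3_1, v3_2]
  ring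

theorem D3_OOO (p q p' q' p'' q'' : K) :
    D3 (v3 r (-p) (-q) 1) (v3 r (-p') (-q') 1) (v3 r (-p'') (-q'') 1) =
      p * (q' - q'') - q * (p' - p'') + (p' * q'' - q' * p'') := by
  simp only [D3, v3_0, v3_1, v3_2]
  ring

theorem sub_iff {X : Type*} {f : X → K} (hf : Function.Injective f) (a b : X) :
    f a - f b = 0 ↔ a = b := by rw [sub_eq_zero, hf.eq_iff]

/-- same collinear triples -/
theorem D3_iff {e ε : T → K} (he : Function.Injective e) (hε : Function.Injective ε)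
    (hε0 : ∀ t, ε t ≠ 0) {c γ : I → K} (hc : Function.Injective c) (hγ : Function.Injective γ)
    (hγ0 : ∀ i, γ i ≠ 0) {b μ : J → K} (hb : Function.Injective b) (hμ : Function.Injective μ)
    (hμ0 : ∀ j, μ j ≠ 0) (hpat : ∀ t i j, c i = b j + e t ↔ γ i = ε t * μ j)
    (x y z : T ⊕ (I ⊕ J)) :
    D3 (aarr r e c b (emb r x)) (aarr r e c b (emb r y)) (aarr r e c b (emb r z)) = 0 ↔
      D3 (marr r ε γ μ (emb r x)) (marr r ε γ μ (emb r y)) (marr r ε γ μ (emb r z)) = 0 := by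
  -- swaps
  have s12 : ∀ {x y z : T ⊕ (I ⊕ J)},
      (D3 (aarr r e c b (emb r x)) (aarr r e c b (emb r y)) (aarr r e c b (emb r z)) = 0 ↔
      D3 (marr r ε γ μ (emb r x)) (marr r ε γ μ (emb r y)) (marr r ε γ μ (emb r z)) = 0) →
      (D3 (aarr r e c b (emb r y)) (aarr r e c b (emb r x)) (aarr r e c b (emb r z)) = 0 ↔
      D3 (marr r ε γ μ (emb r y)) (marr r ε γ μ (emb r x)) (marr r ε γ μ (emb r z)) = 0) := by
    intro x y z h
    rw [D3_swap12, neg_eq_zero, h, D3_swap12 (marr r ε γ μ (emb r x)), neg_eq_zero]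
  have s23 : ∀ {x y z : T ⊕ (I ⊕ J)},
      (D3 (aarr r e c b (emb r x)) (aarr r e c b (emb r y)) (aarr r e c b (emb r z)) = 0 ↔
      D3 (marr r ε γ μ (emb r x)) (marr r ε γ μ (emb r y)) (marr r ε γ μ (emb r z)) = 0) →
      (D3 (aarr r e c b (emb r x)) (aarr r e c b (emb r z)) (aarr r e c b (emb r y)) = 0 ↔
      D3 (marr r ε γ μ (emb r x)) (marr r ε γ μ (emb r z)) (marr r ε γ μ (emb r y)) = 0) := by
    intro x y z h
    rw [D3_swap23, neg_eq_zero, h, D3_swap23 _ (marr r ε γ μ (emb r y)), neg_eq_zero]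
  have ttt : ∀ t t' t'' : T, (D3 (aarr r e c b (emb r (Sum.inl t)))
      (aarr r e c b (emb r (Sum.inl t'))) (aarr r e c b (emb r (Sum.inl t''))) = 0 ↔
      D3 (marr r ε γ μ (emb r (Sum.inl t))) (marr r ε γ μ (emb r (Sum.inl t')))
      (marr r ε γ μ (emb r (Sum.inl t''))) = 0) := fun t t' t'' =>
    ⟨fun _ => D3_PPP _ _ _, fun _ => D3_PPP _ _ _⟩
  have tto : ∀ (t t' : T) (o : I ⊕ J), (D3 (aarr r e c b (emb r (Sum.inl t)))
      (aarr r e c b (emb r (Sum.inl t'))) (aarr r e c b (emb r (Sum.inr o))) = 0 ↔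
      D3 (marr r ε γ μ (emb r (Sum.inl t))) (marr r ε γ μ (emb r (Sum.inl t')))
      (marr r ε γ μ (emb r (Sum.inr o))) = 0) := by
    intro t t' o
    have h1 : D3 (aarr r e c b (emb r (Sum.inl t))) (aarr r e c b (emb r (Sum.inl t')))
      (aarr r e c b (emb r (Sum.inr o))) = e t' - e t := D3_PPO _ _ _ _
    have h2 : D3 (marr r ε γ μ (emb r (Sum.inl t))) (marr r ε γ μ (emb r (Sum.inl t')))
      (marr r ε γ μ (emb r (Sum.inr o))) = ε t' - ε t := D3_PPO _ _ _ _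
    rw [h1, h2, sub_iff he, sub_iff hε]
  have tii : ∀ (t : T) (i i' : I), (D3 (aarr r e c b (emb r (Sum.inl t)))
      (aarr r e c b (emb r (Sum.inr (Sum.inl i)))) (aarr r e c b (emb r (Sum.inr (Sum.inl i')))) = 0
      ↔ D3 (marr r ε γ μ (emb r (Sum.inl t))) (marr r ε γ μ (emb r (Sum.inr (Sum.inl i))))
      (marr r ε γ μ (emb r (Sum.inr (Sum.inl i')))) = 0) := by
    intro t i i'
    have h1 : D3 (aarr r e c b (emb r (Sum.inl t))) (aarr r e c b (emb r (Sum.inr (Sum.inl i))))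
      (aarr r e c b (emb r (Sum.inr (Sum.inl i')))) = e t * (0 - 0) + (c i - c i') :=
      D3_POO _ _ _ _ _
    have h2 : D3 (marr r ε γ μ (emb r (Sum.inl t))) (marr r ε γ μ (emb r (Sum.inr (Sum.inl i))))
      (marr r ε γ μ (emb r (Sum.inr (Sum.inl i')))) = ε t * (0 - 0) + (γ i - γ i') :=
      D3_POO _ _ _ _ _
    rw [h1, h2, sub_self, mul_zero, mul_zero, zero_add, zero_add, sub_iff hc, sub_iff hγ]
  have tij : ∀ (t : T) (i : I) (j : J), (D3 (aarr r e c b (emb r (Sum.inl t)))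
      (aarr r e c b (emb r (Sum.inr (Sum.inl i)))) (aarr r e c b (emb r (Sum.inr (Sum.inr j)))) = 0
      ↔ D3 (marr r ε γ μ (emb r (Sum.inl t))) (marr r ε γ μ (emb r (Sum.inr (Sum.inl i))))
      (marr r ε γ μ (emb r (Sum.inr (Sum.inr j)))) = 0) := by
    intro t i j
    have h1 : D3 (aarr r e c b (emb r (Sum.inl t))) (aarr r e c b (emb r (Sum.inr (Sum.inl i))))
      (aarr r e c b (emb r (Sum.inr (Sum.inr j)))) = e t * (0 - 1) + (c i - b j) :=
      D3_POO _ _ _ _ _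
    have h2 : D3 (marr r ε γ μ (emb r (Sum.inl t))) (marr r ε γ μ (emb r (Sum.inr (Sum.inl i))))
      (marr r ε γ μ (emb r (Sum.inr (Sum.inr j)))) = ε t * (0 - μ j) + (γ i - 0) :=
      D3_POO _ _ _ _ _
    rw [h1, h2]
    constructor
    · intro h
      have h3 := (hpat t i j).1 (by linear_combination h)
      rw [h3]
      ring
    · intro h
      have h3 := (hpat t i j).2 (by linear_combination h)
      rw [h3]
      ring
  have tjj : ∀ (t : T) (j j' : J), (D3 (aarr r e c b (emb r (Sum.inl t)))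
      (aarr r e c b (emb r (Sum.inr (Sum.inr j)))) (aarr r e c b (emb r (Sum.inr (Sum.inr j')))) = 0
      ↔ D3 (marr r ε γ μ (emb r (Sum.inl t))) (marr r ε γ μ (emb r (Sum.inr (Sum.inr j))))
      (marr r ε γ μ (emb r (Sum.inr (Sum.inr j')))) = 0) := by
    intro t j j'
    have h1 : D3 (aarr r e c b (emb r (Sum.inl t))) (aarr r e c b (emb r (Sum.inr (Sum.inr j))))
      (aarr r e c b (emb r (Sum.inr (Sum.inr j')))) = e t * (1 - 1) + (b j - b j') :=
      D3_POO _ _ _ _ _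
    have h2 : D3 (marr r ε γ μ (emb r (Sum.inl t))) (marr r ε γ μ (emb r (Sum.inr (Sum.inr j))))
      (marr r ε γ μ (emb r (Sum.inr (Sum.inr j')))) = ε t * (μ j - μ j') + (0 - 0) :=
      D3_POO _ _ _ _ _
    rw [h1, h2, sub_self, mul_zero, zero_add, sub_self, add_zero, sub_iff hb, mul_eq_zero,
      or_iff_right (hε0 t), sub_iff hμ]
  have iii : ∀ (i i' i'' : I), (D3 (aarr r e c b (emb r (Sum.inr (Sum.inl i))))
      (aarr r e c b (emb r (Sum.inr (Sum.inl i')))) (aarr r e c b (emb r (Sum.inr (Sum.inl i''))))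
      = 0 ↔ D3 (marr r ε γ μ (emb r (Sum.inr (Sum.inl i))))
      (marr r ε γ μ (emb r (Sum.inr (Sum.inl i'))))
      (marr r ε γ μ (emb r (Sum.inr (Sum.inl i'')))) = 0) := by
    intro i i' i''
    have h1 : D3 (aarr r e c b (emb r (Sum.inr (Sum.inl i))))
      (aarr r e c b (emb r (Sum.inr (Sum.inl i')))) (aarr r e c b (emb r (Sum.inr (Sum.inl i''))))
      = c i * (0 - 0) - 0 * (c i' - c i'') + (c i' * 0 - 0 * c i'') := D3_OOO _ _ _ _ _ _
    have h2 : D3 (marr r ε γ μ (emb r (Sum.inr (Sum.inl i))))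
      (marr r ε γ μ (emb r (Sum.inr (Sum.inl i')))) (marr r ε γ μ (emb r (Sum.inr (Sum.inl i''))))
      = γ i * (0 - 0) - 0 * (γ i' - γ i'') + (γ i' * 0 - 0 * γ i'') := D3_OOO _ _ _ _ _ _
    rw [h1, h2]
    constructor <;> intro _ <;> ring
  have iij : ∀ (i i' : I) (j : J), (D3 (aarr r e c b (emb r (Sum.inr (Sum.inl i))))
      (aarr r e c b (emb r (Sum.inr (Sum.inl i')))) (aarr r e c b (emb r (Sum.inr (Sum.inr j))))
      = 0 ↔ D3 (marr r ε γ μ (emb r (Sum.inr (Sum.inl i))))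
      (marr r ε γ μ (emb r (Sum.inr (Sum.inl i'))))
      (marr r ε γ μ (emb r (Sum.inr (Sum.inr j)))) = 0) := by
    intro i i' j
    have h1 : D3 (aarr r e c b (emb r (Sum.inr (Sum.inl i))))
      (aarr r e c b (emb r (Sum.inr (Sum.inl i')))) (aarr r e c b (emb r (Sum.inr (Sum.inr j))))
      = c i * (0 - 1) - 0 * (c i' - b j) + (c i' * 1 - 0 * b j) := D3_OOO _ _ _ _ _ _
    have h2 : D3 (marr r ε γ μ (emb r (Sum.inr (Sum.inl i))))
      (marr r ε γ μ (emb r (Sum.inr (Sum.inl i')))) (marr r ε γ μ (emb r (Sum.inr (Sum.inr j))))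
      = γ i * (0 - μ j) - 0 * (γ i' - 0) + (γ i' * μ j - 0 * 0) := D3_OOO _ _ _ _ _ _
    rw [h1, h2, show c i * (0 - 1) - 0 * (c i' - b j) + (c i' * 1 - 0 * b j) = c i' - c i by ring,
      show γ i * (0 - μ j) - 0 * (γ i' - 0) + (γ i' * μ j - 0 * 0) = μ j * (γ i' - γ i) by ring,
      sub_iff hc, mul_eq_zero, or_iff_right (hμ0 j), sub_iff hγ]
  have ijj : ∀ (i : I) (j j' : J), (D3 (aarr r e c b (emb r (Sum.inr (Sum.inl i))))
      (aarr r e c b (emb r (Sum.inr (Sum.inr j)))) (aarr r e c b (emb r (Sum.inr (Sum.inr j'))))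
      = 0 ↔ D3 (marr r ε γ μ (emb r (Sum.inr (Sum.inl i))))
      (marr r ε γ μ (emb r (Sum.inr (Sum.inr j))))
      (marr r ε γ μ (emb r (Sum.inr (Sum.inr j')))) = 0) := by
    intro i j j'
    have h1 : D3 (aarr r e c b (emb r (Sum.inr (Sum.inl i))))
      (aarr r e c b (emb r (Sum.inr (Sum.inr j)))) (aarr r e c b (emb r (Sum.inr (Sum.inr j'))))
      = c i * (1 - 1) - 0 * (b j - b j') + (b j * 1 - 1 * b j') := D3_OOO _ _ _ _ _ _
    have h2 : D3 (marr r ε γ μ (emb r (Sum.inr (Sum.inl i))))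
      (marr r ε γ μ (emb r (Sum.inr (Sum.inr j)))) (marr r ε γ μ (emb r (Sum.inr (Sum.inr j'))))
      = γ i * (μ j - μ j') - 0 * (0 - 0) + (0 * μ j' - μ j * 0) := D3_OOO _ _ _ _ _ _
    rw [h1, h2, show c i * (1 - 1) - 0 * (b j - b j') + (b j * 1 - 1 * b j') = b j - b j' by ring,
      show γ i * (μ j - μ j') - 0 * (0 - 0) + (0 * μ j' - μ j * 0) = γ i * (μ j - μ j') by ring,
      sub_iff hb, mul_eq_zero, or_iff_right (hγ0 i), sub_iff hμ]
  have jjj : ∀ (j j' j'' : J), (D3 (aarr r e c b (emb r (Sum.inr (Sum.inr j))))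
      (aarr r e c b (emb r (Sum.inr (Sum.inr j')))) (aarr r e c b (emb r (Sum.inr (Sum.inr j''))))
      = 0 ↔ D3 (marr r ε γ μ (emb r (Sum.inr (Sum.inr j))))
      (marr r ε γ μ (emb r (Sum.inr (Sum.inr j'))))
      (marr r ε γ μ (emb r (Sum.inr (Sum.inr j'')))) = 0) := by
    intro j j' j''
    have h1 : D3 (aarr r e c b (emb r (Sum.inr (Sum.inr j))))
      (aarr r e c b (emb r (Sum.inr (Sum.inr j')))) (aarr r e c b (emb r (Sum.inr (Sum.inr j''))))
      = b j * (1 - 1) - 1 * (b j' - b j'') + (b j' * 1 - 1 * b j'') := D3_OOO _ _ _ _ _ _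
    have h2 : D3 (marr r ε γ μ (emb r (Sum.inr (Sum.inr j))))
      (marr r ε γ μ (emb r (Sum.inr (Sum.inr j')))) (marr r ε γ μ (emb r (Sum.inr (Sum.inr j''))))
      = 0 * (μ j' - μ j'') - μ j * (0 - 0) + (0 * μ j'' - μ j' * 0) := D3_OOO _ _ _ _ _ _
    rw [h1, h2]
    constructor <;> intro _ <;> ring
  rcases x with t | i | j <;> rcases y with t' | i' | j' <;> rcases z with t'' | i'' | j''
  · exact ttt _ _ _
  · exact tto _ _ _
  · exact tto _ _ _
  · exact s23 (tto _ _ _)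
  · exact tii _ _ _
  · exact tij _ _ _
  · exact s23 (tto _ _ _)
  · exact s23 (tij _ _ _)
  · exact tjj _ _ _
  · exact s12 (s23 (tto _ _ _))
  · exact s12 (tii _ _ _)
  · exact s12 (tij _ _ _)
  · exact s23 (s12 (tii _ _ _))
  · exact iii _ _ _
  · exact iij _ _ _
  · exact s23 (s12 (tij _ _ _))
  · exact s23 (iij _ _ _)
  · exact ijj _ _ _
  · exact s12 (s23 (tto _ _ _))
  · exact s12 (s23 (tij _ _ _))
  · exact s12 (tjj _ _ _)
  · exact s12 (s23 (s12 (tij _ _ _)))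
  · exact s12 (s23 (iij _ _ _))
  · exact s12 (ijj _ _ _)
  · exact s23 (s12 (tjj _ _ _))
  · exact s23 (s12 (ijj _ _ _))
  · exact jjj _ _ _

end

end Pool.Agent.H160.PG
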