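import Mathlib
import Pool.Agent.H160.TF.Main
import Pool.Agent.H160.TF.Betti
import Pool.Agent.H160.PG.Pat

set_option autoImplicit false

/-! # Isomorphic intersection lattices -/

namespace Pool.Agent.H160.PG

open MvPolynomial Pool.Agent.H160.TF

section

theorem iso_of_rel {α P Q : Type*} [PartialOrder P] [PartialOrder Q] (f : α → P) (g : α → Q)
    (h : ∀ s t, f s ≤ f t ↔ g s ≤ g t) : Nonempty (↥(Set.range f) ≃o ↥(Set.range g)) := by
  classical
  have hch : ∀ X : ↥(Set.range f), ∃ s, f s = X := fun X => X.2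
  choose s hs using hch
  have hch2 : ∀ Y : ↥(Set.range g), ∃ s, g s = Y := fun Y => Y.2
  choose t ht using hch2
  refine ⟨⟨⟨fun X => ⟨g (s X), s X, rfl⟩, fun Y => ⟨f (t Y), t Y, rfl⟩, ?_, ?_⟩, ?_⟩⟩
  · intro X
    apply Subtype.ext
    show f (t ⟨g (s X), _⟩) = X
    have h1 := ht ⟨g (s X), s X, rfl⟩
    simp only at h1
    rw [← hs X]
    apply le_antisymm
    · rw [h, h1]
    · rw [h, h1]
  · intro Y
    apply Subtype.ext
    show g (s ⟨f (t Y), _⟩) = Y
    have h1 := hs ⟨f (t Y), t Y, rfl⟩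
    simp only at h1
    rw [← ht Y]
    apply le_antisymm
    · rw [← h, h1]
    · rw [← h, h1]
  · intro X Y
    have h1 : g (s X) ≤ g (s Y) ↔ (X : P) ≤ (Y : P) := by rw [← h, hs X, hs Y]
    exact h1

variable {K : Type} [Field K] {l n : ℕ}

theorem iInf_HH (A : Matrix (Fin n) (Fin l) K) (s : Finset (Fin n)) :
    ⨅ i ∈ s, HH A i = perp (Submodule.span K (A '' (s : Set (Fin n)))) := by
  apply le_antisymm
  · intro x hx
    rw [mem_perp]
    intro a ha
    induction ha using Submodule.span_induction with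
    | mem a ha =>
      obtain ⟨i, hi, rfl⟩ := ha
      have h1 := (Submodule.mem_iInf _).1 ((Submodule.mem_iInf _).1 hx i) hi
      exact mem_HH.1 h1
    | zero => rw [zero_dotProduct]
    | add a b _ _ ha hb => rw [add_dotProduct, ha, hb, add_zero]
    | smul c a _ ha => rw [smul_dotProduct, ha, smul_zero]
  · apply le_iInf₂
    intro i hi
    rw [le_HH, perp_perp]
    exact Submodule.subset_span ⟨i, hi, rfl⟩

/-- the same closed sets give isomorphic lattices -/
theorem iso_of_closure {A B : Matrix (Fin n) (Fin l) K}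
    (h : ∀ (S : Set (Fin n)) (i : Fin n), A i ∈ Submodule.span K (A '' S) ↔
      B i ∈ Submodule.span K (B '' S)) : Nonempty (↥(Lat A) ≃o ↥(Lat B)) := by
  apply iso_of_rel
  intro s t
  have key : ∀ (A : Matrix (Fin n) (Fin l) K), (⨅ i ∈ s, HH A i) ≤ ⨅ i ∈ t, HH A i ↔
      ∀ i ∈ t, A i ∈ Submodule.span K (A '' (s : Set (Fin n))) := by
    intro A
    rw [le_iInf₂_iff]
    constructor
    · intro h i hi
      have h1 := h i hi
      rw [le_HH, iInf_HH, perp_perp] at h1
      exact h1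
    · intro h i hi
      rw [le_HH, iInf_HH, perp_perp]
      exact h i hi
  rw [key A, key B]
  exact forall₂_congr fun i _ => h _ i

theorem LD_comp {ι κ : Type*} (σ : κ ≃ ι) (a : ι → Fin l → K) :
    LD (fun i => a (σ i)) = LD a := by
  ext η
  rw [mem_LD, mem_LD]
  constructor
  · intro h i
    have h1 := h (σ.symm i)
    rwa [σ.apply_symm_apply] at h1
  · intro h i
    exact h (σ i)

theorem PO_congr {ι κ : Type*} {A : ι → Fin l → K} {B : κ → Fin l → K} (h : LD A = LD B)
    (d : Fin l → ℕ) (e : ℕ) (a : Fin l → K) : PO A d e a ↔ PO B d e a := by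
  unfold PO
  rw [h]

end

section

variable {K : Type} [Field K] {r : ℕ} {T O : Type} [Fintype T] [Fintype O]

/-- the arrangement as a matrix -/
noncomputable def toMat {ι : Type} [Fintype ι] (a : ι → Fin (r + 3) → K) :
    Matrix (Fin (Fintype.card ι)) (Fin (r + 3)) K := fun i => a ((Fintype.equivFin ι).symm i)

theorem toMat_dist {ι : Type} [Fintype ι] {a : ι → Fin (r + 3) → K} (h : Dist a) :
    Dist (toMat a) := by
  refine ⟨fun i j hij c => h.1 _ _ (fun hh => hij ?_) c, fun i => h.2 _⟩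
  exact (Fintype.equivFin ι).symm.injective hh

theorem toMat_LD {ι : Type} [Fintype ι] (a : ι → Fin (r + 3) → K) :
    LD (fun i => toMat a i) = LD a := LD_comp (Fintype.equivFin ι).symm a

theorem toMat_iso {ι : Type} [Fintype ι] {a b : ι → Fin (r + 3) → K}
    (h : ∀ (S : Set ι) (i : ι), a i ∈ Submodule.span K (a '' S) ↔
      b i ∈ Submodule.span K (b '' S)) : Nonempty (↥(Lat (toMat a)) ≃o ↥(Lat (toMat b))) := by
  apply iso_of_closure
  intro S i
  have key : ∀ a : ι → Fin (r + 3) → K,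
      toMat a '' S = a '' ((Fintype.equivFin ι).symm '' S) := by
    intro a
    rw [Set.image_image]
    rfl
  rw [key a, key b]
  exact h _ _

theorem toMat_ess {e : T → K} (he : Function.Injective e) {t0 t1 : T} (h01 : t0 ≠ t1)
    {p q : O → K} (o : O) : ⨅ i, HH (toMat (arr r e p q)) i = ⊥ := by
  rw [eq_bot_iff]
  intro x hx
  have h1 : ∀ i, arr r e p q i ⬝ᵥ x = 0 := by
    intro i
    have h2 := (Submodule.mem_iInf _).1 hx (Fintype.equivFin _ i)
    rw [mem_HH, toMat, Equiv.symm_apply_apply] at h2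
    exact h2
  have dot : ∀ a b c : K, v3 r a b c ⬝ᵥ x = a * x 0 + b * x 1 + c * x 2 := by
    intro a b c
    rw [dotProduct, sum3]
    simp only [v3_0, v3_1, v3_2, v3_s, zero_mul, Finset.sum_const_zero, add_zero]
    ring
  have h2 : -e t0 * x 0 + 1 * x 1 + 0 * x 2 = 0 := by
    rw [← dot]
    exact h1 (Sum.inl t0)
  have h3 : -e t1 * x 0 + 1 * x 1 + 0 * x 2 = 0 := by
    rw [← dot]
    exact h1 (Sum.inl t1)
  have h4 : -p o * x 0 + -q o * x 1 + 1 * x 2 = 0 := by
    rw [← dot]
    exact h1 (Sum.inr (Sum.inl o))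
  have x0 : x 0 = 0 := by
    have h5 : (e t1 - e t0) * x 0 = 0 := by linear_combination h2 - h3
    rcases mul_eq_zero.1 h5 with h | h
    · exact absurd (he (sub_eq_zero.1 h)).symm h01
    · exact h
  have x1 : x 1 = 0 := by
    rw [x0] at h2
    linear_combination h2
  have x2 : x 2 = 0 := by
    rw [x0, x1] at h4
    linear_combination h4
  rw [Submodule.mem_bot]
  apply ext3 x0 x1 x2
  intro j
  have h5 := h1 (Sum.inr (Sum.inr j))
  simp only [arr, Sum.elim_inr] at h5
  rwa [single_dotProduct, one_mul] at h5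

end

section

variable {K : Type} [Field K]

/-- what a disproof over `K` in dimension `l` provides -/
def Bad (K : Type) [Field K] (l : ℕ) : Prop :=
  ∃ (n : ℕ) (A B : Matrix (Fin n) (Fin l) K), Dist A ∧ Dist B ∧ (⨅ i, HH A i = ⊥) ∧
    (⨅ i, HH B i = ⊥) ∧ Nonempty (↥(Lat A) ≃o ↥(Lat B)) ∧
    (∃ (d : Fin l → ℕ) (e : ℕ) (a : Fin l → K), a ≠ 0 ∧ PO (fun i => A i) d e a) ∧
    ∀ (d : Fin l → ℕ) (e : ℕ) (a : Fin l → K), ¬ PO (fun i => B i) d e a

/-- matching additive and multiplicative patterns give a disproof -/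
theorem bad_of_params (r : ℕ) {T I J : Type} [Fintype T] [DecidableEq T] [Fintype I]
    [Fintype J] [DecidableEq I] [DecidableEq J] {e ε : T → K} (he : Function.Injective e)
    (hε : Function.Injective ε) (hε0 : ∀ t, ε t ≠ 0) {c γ : I → K} (hc : Function.Injective c)
    (hγ : Function.Injective γ) (hγ0 : ∀ i, γ i ≠ 0) {b μ : J → K} (hb : Function.Injective b)
    (hμ : Function.Injective μ) (hμ0 : ∀ j, μ j ≠ 0) (π : I → J → T)
    (hadd : ∀ i j, c i = b j + e (π i j)) (hmul : ∀ i j, γ i = ε (π i j) * μ j)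
    (i0 : I) (j0 : J) (hT : 3 ≤ Fintype.card T) (hI : 3 ≤ Fintype.card I)
    (hJ : 2 ≤ Fintype.card J)
    (hk : Fintype.card I + Fintype.card J ≤ Fintype.card T + 1) : Bad K (r + 3) := by
  have hpat : ∀ t i j, c i = b j + e t ↔ γ i = ε t * μ j := by
    intro t i j
    constructor
    · intro h
      have h1 : t = π i j := by
        apply he
        rw [hadd i j] at h
        exact (add_left_cancel h).symm
      rw [h1]
      exact hmul i j
    · intro h
      have h1 : t = π i j := by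
        apply hε
        rw [hmul i j] at h
        exact (mul_right_cancel₀ (hμ0 j) h).symm
      rw [h1]
      exact hadd i j
  have hpqa : ∀ o o' : I ⊕ J, (Sum.elim c b : I ⊕ J → K) o = Sum.elim c b o' →
      (Sum.elim (fun _ => 0) (fun _ => 1) : I ⊕ J → K) o =
        Sum.elim (fun _ => 0) (fun _ => 1) o' → o = o' := by
    rintro (i | j) (i' | j') h1 h2
    · rw [hc h1]
    · exact absurd h2 zero_ne_one
    · exact absurd h2 one_ne_zero
    · rw [hb h1]
  have hpqm : ∀ o o' : I ⊕ J, (Sum.elim γ (fun _ => 0) : I ⊕ J → K) o =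
      Sum.elim γ (fun _ => 0) o' →
      (Sum.elim (fun _ => 0) μ : I ⊕ J → K) o = Sum.elim (fun _ => 0) μ o' → o = o' := by
    rintro (i | j) (i' | j') h1 h2
    · rw [hγ h1]
    · exact absurd h1 (hγ0 i)
    · exact absurd h1.symm (hγ0 i')
    · rw [hμ h2]
  have hA : Dist (aarr r e c b) := dist_arr he hpqa
  have hB : Dist (marr r ε γ μ) := dist_arr hε hpqm
  obtain ⟨t0, t1, h01⟩ : ∃ t0 t1 : T, t0 ≠ t1 := by
    have h1 : 1 < Fintype.card T := by omega
    exact Fintype.exists_pair_of_one_lt_card h1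
  refine ⟨_, toMat (aarr r e c b), toMat (marr r ε γ μ), toMat_dist hA, toMat_dist hB,
    toMat_ess he h01 (Sum.inl i0), toMat_ess hε h01 (Sum.inl i0), ?_, ?_, ?_⟩
  · exact toMat_iso (same_closure hA hB (D3_iff he hε hε0 hc hγ hγ0 hb hμ hμ0 hpat))
  · refine ⟨_, _, -Pi.single 0 1, ?_, (PO_congr (toMat_LD _) _ _ _).2
      (add_po he hc hb (fun i j => ⟨π i j, by rw [hadd i j]; ring⟩) i0 j0 hT (by omega))⟩
    intro h
    have := congrFun h 0
    simp at this
  · intro d e' a h
    exact mul_not hε hε0 hγ hγ0 hμ t0 hI hJ hk d e' a ((PO_congr (toMat_LD _) _ _ _).1 h)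

end

end Pool.Agent.H160.PG
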