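import Mathlib
import Pool.Agent.H160.PG.Iso

set_option autoImplicit false

/-! # Plus-one generatedness is invariant under semilinear changes of coordinates -/

namespace Pool.Agent.H160.PG

open MvPolynomial Pool.Agent.H160.TF

section

variable {K : Type} [Field K] {l : ℕ} {ι κ μ : Type*}

theorem PO.transport {A : ι → Fin l → K} {B : κ → Fin l → K}
    (Φ : MvPolynomial (Fin l) K ≃+* MvPolynomial (Fin l) K)
    (Ψ : (Fin l → MvPolynomial (Fin l) K) ≃+ (Fin l → MvPolynomial (Fin l) K))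
    (hsemi : ∀ s θ, Ψ (s • θ) = Φ s • Ψ θ)
    (hhom : ∀ (d : ℕ) (θ : Fin l → MvPolynomial (Fin l) K), (∀ j, (θ j).IsHomogeneous d) →
      ∀ j, (Ψ θ j).IsHomogeneous d)
    (hΦ : ∀ (m : ℕ) (s : MvPolynomial (Fin l) K), s.IsHomogeneous m → (Φ s).IsHomogeneous m)
    (hLD : ∀ θ, θ ∈ LD A ↔ Ψ θ ∈ LD B) {d : Fin l → ℕ} {e : ℕ} {a a' : Fin l → K}
    (ha : Φ (lf a) = lf a') (h : PO A d e a) : PO B d e a' := by
  obtain ⟨θ, φ, f, h1, h2, h3, h4, h5, h6, h7⟩ := h
  refine ⟨fun i => Ψ (θ i), Ψ φ, fun i => Φ (f i), fun i => hhom _ _ (h1 i), hhom _ _ h2, ?_, ?_,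
    ?_, ?_, ?_⟩
  · apply le_antisymm
    · intro ζ hζ
      have h8 : Ψ.symm ζ ∈ LD A := by
        rw [hLD, Ψ.apply_symm_apply]
        exact hζ
      rw [h3] at h8
      have h9 : ∀ x ∈ Submodule.span (MvPolynomial (Fin l) K) (insert φ (Set.range θ)),
          Ψ x ∈ Submodule.span (MvPolynomial (Fin l) K)
            (insert (Ψ φ) (Set.range fun i => Ψ (θ i))) := by
        intro x hx
        induction hx using Submodule.span_induction with
        | mem x hx =>
          rcases hx with rfl | ⟨i, rfl⟩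
          · exact Submodule.subset_span (Set.mem_insert _ _)
          · exact Submodule.subset_span (Set.mem_insert_of_mem _ ⟨i, rfl⟩)
        | zero =>
          rw [map_zero]
          exact Submodule.zero_mem _
        | add x y _ _ hx hy =>
          rw [map_add]
          exact Submodule.add_mem _ hx hy
        | smul s x _ hx =>
          rw [hsemi]
          exact Submodule.smul_mem _ _ hx
      have h10 := h9 _ h8
      rwa [Ψ.apply_symm_apply] at h10
    · rw [Submodule.span_le]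
      rintro _ (rfl | ⟨i, rfl⟩)
      · rw [SetLike.mem_coe, ← hLD, h3]
        exact Submodule.subset_span (Set.mem_insert _ _)
      · rw [SetLike.mem_coe, ← hLD, h3]
        exact Submodule.subset_span (Set.mem_insert_of_mem _ ⟨i, rfl⟩)
  · intro i
    rcases h4 i with ⟨m, hm, hmd, hh⟩ | h0
    · exact Or.inl ⟨m, hm, hmd, hΦ _ _ hh⟩
    · right
      simp only
      rw [h0, map_zero]
  · rcases h5 with ⟨i, hi⟩ | ha0
    · left
      exact ⟨i, fun h => hi (Φ.injective (by rw [map_zero]; exact h))⟩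
    · right
      intro h0
      apply ha0
      rw [h0, lf_zero] at ha
      have h8 : lf a = 0 := Φ.injective (by rw [ha, map_zero])
      exact lf_injective (by rw [h8, lf_zero])
  · have h8 := congrArg Ψ h6
    rw [map_add, map_sum, map_zero, hsemi, ha] at h8
    rw [← h8]
    congr 1
    exact Finset.sum_congr rfl fun i _ => (hsemi _ _).symm
  · intro g b hg
    have h8 : Ψ (∑ i, Φ.symm (g i) • θ i + Φ.symm b • φ) = 0 := by
      rw [map_add, map_sum, hsemi, Φ.apply_symm_apply, ← hg]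
      congr 1
      exact Finset.sum_congr rfl fun i _ => by rw [hsemi, Φ.apply_symm_apply]
    have h9 : ∑ i, Φ.symm (g i) • θ i + Φ.symm b • φ = 0 := Ψ.injective (by rw [h8, map_zero])
    obtain ⟨c, hc1, hc2⟩ := h7 _ _ h9
    refine ⟨Φ c, fun i => ?_, ?_⟩
    · rw [← map_mul, ← hc1 i, Φ.apply_symm_apply]
    · rw [← ha, ← map_mul, ← hc2, Φ.apply_symm_apply]

/-- plus-one generatedness passes from `A` to `B` -/
def Eqv (A : ι → Fin l → K) (B : κ → Fin l → K) : Prop :=
  ∀ (d : Fin l → ℕ) (e : ℕ) (a : Fin l → K), PO A d e a → ∃ a', (a ≠ 0 → a' ≠ 0) ∧ PO B d e a'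

theorem Eqv.refl (A : ι → Fin l → K) : Eqv A A := fun _ _ a h => ⟨a, id, h⟩

theorem Eqv.trans {A : ι → Fin l → K} {B : κ → Fin l → K} {C : μ → Fin l → K} (h1 : Eqv A B)
    (h2 : Eqv B C) : Eqv A C := by
  intro d e a h
  obtain ⟨b, hb, h3⟩ := h1 d e a h
  obtain ⟨c, hc, h4⟩ := h2 d e b h3
  exact ⟨c, fun h => hc (hb h), h4⟩

theorem Eqv.of_LD {A : ι → Fin l → K} {B : κ → Fin l → K} (h : LD A = LD B) : Eqv A B :=
  fun d e a h1 => ⟨a, id, (PO_congr h d e a).1 h1⟩

theorem lf_dvd_iff {c : K} (hc : c ≠ 0) (a : Fin l → K) (θ : Fin l → MvPolynomial (Fin l) K) :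
    lf (c • a) ∣ pr θ (c • a) ↔ lf a ∣ pr θ a := by
  have hu : IsUnit (C c : MvPolynomial (Fin l) K) := (isUnit_iff_ne_zero.2 hc).map C
  rw [lf_smul, map_smul, MvPolynomial.smul_eq_C_mul, hu.mul_left_dvd, hu.dvd_mul_left]

/-- arrangements with the same hyperplanes -/
theorem Eqv.of_set {A : ι → Fin l → K} {B : κ → Fin l → K}
    (h1 : ∀ i, ∃ j, ∃ c : K, c ≠ 0 ∧ B j = c • A i)
    (h2 : ∀ j, ∃ i, ∃ c : K, c ≠ 0 ∧ B j = c • A i) : Eqv A B := by
  apply Eqv.of_LD
  ext θ
  rw [mem_LD, mem_LD]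
  constructor
  · intro h j
    obtain ⟨i, c, hc, hij⟩ := h2 j
    rw [hij, lf_dvd_iff hc]
    exact h i
  · intro h i
    obtain ⟨j, c, hc, hij⟩ := h1 i
    have h3 := h j
    rwa [hij, lf_dvd_iff hc] at h3

/-- substitution -/
noncomputable def sub (g : (Fin l → K) →ₗ[K] (Fin l → K)) :
    MvPolynomial (Fin l) K →ₐ[K] MvPolynomial (Fin l) K :=
  aeval fun k => lf (g (Pi.single k 1))

theorem sub_lf (g : (Fin l → K) →ₗ[K] (Fin l → K)) (a : Fin l → K) : sub g (lf a) = lf (g a) := by
  have h1 : (sub g).toLinearMap.comp lfL = lfL.comp g := by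
    apply LinearMap.pi_ext'
    intro k
    apply LinearMap.ext_ring
    show sub g (lf (Pi.single k 1)) = lf (g (Pi.single k 1))
    rw [lf_single, sub, aeval_X]
  exact LinearMap.congr_fun h1 a

theorem sub_comp (g g' : (Fin l → K) →ₗ[K] (Fin l → K)) (h : ∀ x, g' (g x) = x)
    (s : MvPolynomial (Fin l) K) : sub g' (sub g s) = s := by
  have h1 : (sub g').comp (sub g) = AlgHom.id K _ := by
    apply MvPolynomial.algHom_ext
    intro k
    rw [AlgHom.comp_apply, AlgHom.id_apply]
    nth_rewrite 2 [sub]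
    rw [aeval_X, sub_lf, h, lf_single]
  exact DFunLike.congr_fun h1 s

theorem sub_homog (g : (Fin l → K) →ₗ[K] (Fin l → K)) {m : ℕ} {s : MvPolynomial (Fin l) K}
    (h : s.IsHomogeneous m) : (sub g s).IsHomogeneous m := by
  have h1 := h.aeval (fun k => lf (g (Pi.single k 1))) (n := 1) fun k => lf_homogeneous _
  rwa [one_mul] at h1

/-- the action on vector fields -/
noncomputable def subV (g g' : (Fin l → K) →ₗ[K] (Fin l → K))
    (θ : Fin l → MvPolynomial (Fin l) K) : Fin l → MvPolynomial (Fin l) K :=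
  fun j => sub g (pr θ (g' (Pi.single j 1)))

theorem pr_subV (g g' : (Fin l → K) →ₗ[K] (Fin l → K)) (θ : Fin l → MvPolynomial (Fin l) K)
    (b : Fin l → K) : pr (subV g g' θ) b = sub g (pr θ (g' b)) := by
  have h1 : pr (subV g g' θ) = (sub g).toLinearMap.comp ((pr θ).comp g') := by
    apply LinearMap.pi_ext'
    intro k
    apply LinearMap.ext_ring
    show pr (subV g g' θ) (Pi.single k 1) = sub g (pr θ (g' (Pi.single k 1)))
    rw [pr_single]
    rfl
  exact LinearMap.congr_fun h1 b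

/-- linear changes of coordinates -/
theorem Eqv.lin (A : ι → Fin l → K) (g : (Fin l → K) ≃ₗ[K] (Fin l → K)) :
    Eqv A (fun i => g (A i)) := by
  let G : (Fin l → K) →ₗ[K] (Fin l → K) := g
  let G' : (Fin l → K) →ₗ[K] (Fin l → K) := g.symm
  have hg : ∀ x, G' (G x) = x := fun x => g.symm_apply_apply x
  have hg' : ∀ x, G (G' x) = x := fun x => g.apply_symm_apply x
  have inv : ∀ (g g' : (Fin l → K) →ₗ[K] (Fin l → K)), (∀ x, g' (g x) = x) →
      ∀ θ, subV g' g (subV g g' θ) = θ := by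
    intro g g' h θ
    funext j
    show sub g' (pr (subV g g' θ) (g (Pi.single j 1))) = θ j
    rw [pr_subV, sub_comp g g' h, h, pr_single]
  let Φ : MvPolynomial (Fin l) K ≃+* MvPolynomial (Fin l) K :=
    RingEquiv.ofRingHom (sub G : MvPolynomial (Fin l) K →+* MvPolynomial (Fin l) K)
      (sub G' : MvPolynomial (Fin l) K →+* MvPolynomial (Fin l) K)
      (by
        apply RingHom.ext
        intro s
        exact sub_comp G' G hg' s)
      (by
        apply RingHom.ext
        intro s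
        exact sub_comp G G' hg s)
  let Ψ : (Fin l → MvPolynomial (Fin l) K) ≃+ (Fin l → MvPolynomial (Fin l) K) :=
    { toFun := subV G G'
      invFun := subV G' G
      left_inv := inv G G' hg
      right_inv := inv G' G hg'
      map_add' := fun θ η => by
        funext j
        show sub G (pr (θ + η) (G' (Pi.single j 1))) =
          sub G (pr θ (G' (Pi.single j 1))) + sub G (pr η (G' (Pi.single j 1)))
        rw [pr_add, map_add] }
  intro d e a h
  refine ⟨g a, fun ha h0 => ha ((map_eq_zero_iff g g.injective).1 h0), ?_⟩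
  refine PO.transport Φ Ψ ?_ ?_ ?_ ?_ ?_ h
  · intro s θ
    funext j
    show sub G (pr (s • θ) (G' (Pi.single j 1))) = sub G s * sub G (pr θ (G' (Pi.single j 1)))
    rw [pr_smul, map_mul]
  · intro d θ hθ j
    apply sub_homog
    rw [pr_apply]
    apply IsHomogeneous.sum
    intro k _
    have h1 := (isHomogeneous_C (Fin l) ((G' (Pi.single j 1)) k)).mul (hθ k)
    rwa [zero_add] at h1
  · intro m s hs
    exact sub_homog G hs
  · intro θ
    rw [mem_LD, mem_LD]
    apply forall_congr'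
    intro i
    show lf (A i) ∣ pr θ (A i) ↔ lf (G (A i)) ∣ pr (subV G G' θ) (G (A i))
    rw [pr_subV, ← sub_lf, hg]
    exact (map_dvd_iff Φ).symm
  · exact sub_lf G a

/-- field automorphisms -/
theorem Eqv.conj (A : ι → Fin l → K) (τ : K ≃+* K) : Eqv A (fun i j => τ (A i j)) := by
  let Φ : MvPolynomial (Fin l) K ≃+* MvPolynomial (Fin l) K := MvPolynomial.mapEquiv (Fin l) τ
  let Ψ : (Fin l → MvPolynomial (Fin l) K) ≃+ (Fin l → MvPolynomial (Fin l) K) :=
    AddEquiv.piCongrRight fun _ => Φ.toAddEquiv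
  have hC : ∀ c : K, Φ (C c) = C (τ c) := fun c => MvPolynomial.map_C _ _
  have hX : ∀ j : Fin l, Φ (X j) = X j := fun j => MvPolynomial.map_X _ _
  have hlf : ∀ a : Fin l → K, Φ (lf a) = lf (fun j => τ (a j)) := by
    intro a
    rw [lf, lf, map_sum]
    exact Finset.sum_congr rfl fun j _ => by rw [map_mul, hC, hX]
  have hpr : ∀ (θ : Fin l → MvPolynomial (Fin l) K) (a : Fin l → K),
      pr (Ψ θ) (fun j => τ (a j)) = Φ (pr θ a) := by
    intro θ a
    rw [pr_apply, pr_apply, map_sum]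
    exact Finset.sum_congr rfl fun j _ => by rw [map_mul, hC]; rfl
  intro d e a h
  refine ⟨fun j => τ (a j), fun ha h0 => ha ?_, ?_⟩
  · funext j
    exact (map_eq_zero_iff τ τ.injective).1 (congrFun h0 j)
  · refine PO.transport Φ Ψ ?_ ?_ ?_ ?_ (hlf a) h
    · intro s θ
      funext j
      show Φ (s * θ j) = Φ s * Φ (θ j)
      rw [map_mul]
    · intro d θ hθ j
      exact (hθ j).map _
    · intro m s hs
      exact hs.map _
    · intro θ
      rw [mem_LD, mem_LD]
      apply forall_congr'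
      intro i
      rw [hpr, ← hlf]
      exact (map_dvd_iff Φ).symm

end

end Pool.Agent.H160.PG
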