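import Mathlib
import Pool.Agent.H160.PG.Trans

set_option autoImplicit false

/-! # Representations over fields in which the squares of the nonzero elements are one

Binary and ternary matroids are uniquely representable over the fields with two and three elements: one
step of the induction. -/

namespace Pool.Agent.H160.PG

open MvPolynomial Pool.Agent.H160.TF

section

variable {K : Type} [Field K] {l : ℕ} {ι : Type}

/-- the same closed sets -/
def SameCl (A B : ι → Fin l → K) : Prop :=
  ∀ (S : Set ι) (i : ι), A i ∈ Submodule.span K (A '' S) ↔ B i ∈ Submodule.span K (B '' S)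

theorem coord_span (k : Fin l) (x : Fin l → K) :
    x ∈ Submodule.span K ((fun j : Fin l => (Pi.single j 1 : Fin l → K)) '' {k}ᶜ) ↔ x k = 0 := by
  constructor
  · intro h
    have h1 : Submodule.span K ((fun j : Fin l => (Pi.single j 1 : Fin l → K)) '' {k}ᶜ) ≤
        LinearMap.ker (LinearMap.proj k : (Fin l → K) →ₗ[K] K) := by
      rw [Submodule.span_le]
      rintro _ ⟨j, hj, rfl⟩
      rw [SetLike.mem_coe, LinearMap.mem_ker, LinearMap.proj_apply]
      show (Pi.single j 1 : Fin l → K) k = 0
      rw [Pi.single_apply, if_neg]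
      exact fun h => hj h.symm
    exact h1 h
  · intro h
    rw [pi_eq_sum_univ' x]
    apply Submodule.sum_mem
    intro j _
    by_cases hj : j = k
    · rw [hj, h, zero_smul]
      exact Submodule.zero_mem _
    · apply Submodule.smul_mem
      apply Submodule.subset_span
      refine ⟨j, hj, ?_⟩
      funext i
      simp only [Pi.single_apply, eq_comm]

/-- zero patterns agree -/
theorem SameCl.zero_iff {A B : ι → Fin l → K} (h : SameCl A B) {β : Fin l → ι}
    (hA : ∀ k, A (β k) = Pi.single k 1) (hB : ∀ k, B (β k) = Pi.single k 1) (i : ι) (k : Fin l) :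
    A i k = 0 ↔ B i k = 0 := by
  have h1 : ∀ A : ι → Fin l → K, (∀ k, A (β k) = Pi.single k 1) →
      A '' (β '' {k}ᶜ) = (fun j : Fin l => (Pi.single j 1 : Fin l → K)) '' {k}ᶜ := by
    intro A hA
    rw [Set.image_image]
    exact Set.image_congr fun j _ => hA j
  rw [← coord_span, ← coord_span, ← h1 A hA, h (β '' {k}ᶜ) i, h1 B hB, h1 A hA]

variable (I : Set ι) (A : ι → Fin l → K)

/-- two coordinates which are nonzero on a common element of `I` -/
def RR2 (k k' : Fin l) : Prop := ∃ i ∈ I, A i k ≠ 0 ∧ A i k' ≠ 0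

theorem RR2.symm {k k' : Fin l} (h : RR2 I A k k') : RR2 I A k' k := by
  obtain ⟨i, hi, h1, h2⟩ := h
  exact ⟨i, hi, h2, h1⟩

theorem exists_path {k k' : Fin l} (h : Relation.ReflTransGen (RR2 I A) k k') :
    ∃ (m : ℕ) (x : ℕ → Fin l), x 0 = k ∧ x m = k' ∧ ∀ s < m, RR2 I A (x s) (x (s + 1)) := by
  induction h with
  | refl => exact ⟨0, fun _ => k, rfl, rfl, fun s hs => absurd hs (Nat.not_lt_zero s)⟩
  | @tail b c _ hbc ih =>
    obtain ⟨m, x, h0, hm, hx⟩ := ih
    refine ⟨m + 1, fun j => if j ≤ m then x j else c, ?_, ?_, ?_⟩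
    · simp [h0]
    · simp
    · intro s hs
      have hsm : s ≤ m := by omega
      simp only [hsm, if_true]
      by_cases h : s + 1 ≤ m
      · rw [if_pos h]
        exact hx s (by omega)
      · rw [if_neg h]
        have : s = m := by omega
        rw [this, hm]
        exact hbc

/-- the data of a counterexample of length `m` -/
def CE (u v : Fin l → K) (m : ℕ) : Prop :=
  ∃ x : ℕ → Fin l, (∀ s < m, RR2 I A (x s) (x (s + 1))) ∧ u (x 0) ≠ 0 ∧ u (x m) ≠ 0 ∧
    v (x 0) * u (x m) ≠ u (x 0) * v (x m)

/-- along a path, the ratios are the same -/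
theorem ratio_eq (h3 : ∀ a b : K, a ≠ 0 → b ≠ 0 → a = b ∨ a = -b) {B : ι → Fin l → K}
    (hcl : SameCl A B) (hI : ∀ i ∈ I, B i = A i) {β : Fin l → ι} (hβ : ∀ k, β k ∈ I)
    (hA : ∀ k, A (β k) = Pi.single k 1) (i0 : ι) (m : ℕ) : ¬ CE I A (A i0) (B i0) m := by
  classical
  induction m using Nat.strong_induction_on with
  | _ m ih =>
  rintro ⟨x, hx, hu0, hum, hne⟩
  set u := A i0 with hu
  set v := B i0 with hv
  have hm : 0 < m := by
    rcases Nat.eq_zero_or_pos m with h | h
    · rw [h] at hne
      exact absurd (mul_comm _ _) hne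
    · exact h
  -- interior coordinates vanish
  have F1 : ∀ s, 0 < s → s < m → u (x s) = 0 := by
    intro s hs hsm
    by_contra hus
    have e1 : v (x 0) * u (x s) = u (x 0) * v (x s) := by
      by_contra hh
      exact ih s hsm ⟨x, fun t ht => hx t (by omega), hu0, hus, hh⟩
    have e2 : v (x s) * u (x m) = u (x s) * v (x m) := by
      by_contra hh
      refine ih (m - s) (by omega) ⟨fun j => x (j + s), fun t ht => ?_, ?_, ?_, ?_⟩
      · have h1 := hx (t + s) (by omega)
        rw [show t + s + 1 = t + 1 + s by ring] at h1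
        exact h1
      · simpa using hus
      · simpa [Nat.sub_add_cancel hsm.le] using hum
      · simpa [Nat.sub_add_cancel hsm.le] using hh
    apply hne
    apply mul_right_cancel₀ hus
    linear_combination u (x m) * e1 + u (x 0) * e2
  -- no shortcuts
  have cut : ∀ a b, b ≤ m → a + 2 ≤ b → ¬ RR2 I A (x a) (x b) := by
    intro a b hb hab hR
    refine ih (m - (b - a - 1)) (by omega)
      ⟨fun j => if j ≤ a then x j else x (j + (b - a - 1)), ?_, ?_, ?_, ?_⟩
    · intro s hs
      by_cases h1 : s ≤ a
      · rcases Nat.lt_or_ge s a with h2 | h2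
        · simp only [h1, if_true, show s + 1 ≤ a by omega]
          exact hx s (by omega)
        · have h3 : s = a := by omega
          subst h3
          have h4 : s + 1 + (b - s - 1) = b := by omega
          simp only [le_refl, if_true, show ¬ s + 1 ≤ s by omega, if_false, h4]
          exact hR
      · simp only [h1, if_false, show ¬ s + 1 ≤ a by omega]
        have h1 := hx (s + (b - a - 1)) (by omega)
        rw [show s + (b - a - 1) + 1 = s + 1 + (b - a - 1) by omega] at h1
        exact h1
    · simpa using hu0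
    · have h4 : m - (b - a - 1) + (b - a - 1) = m := by omega
      simp only [show ¬ m - (b - a - 1) ≤ a by omega, if_false, h4]
      exact hum
    · have h4 : m - (b - a - 1) + (b - a - 1) = m := by omega
      simp only [show ¬ m - (b - a - 1) ≤ a by omega, if_false, h4, Nat.zero_le, if_true]
      exact hne
  have hch : ∀ s, ∃ i, s < m → i ∈ I ∧ A i (x s) ≠ 0 ∧ A i (x (s + 1)) ≠ 0 := by
    intro s
    by_cases hs : s < m
    · obtain ⟨i, hi, h1, h2⟩ := hx s hs
      exact ⟨i, fun _ => ⟨hi, h1, h2⟩⟩
    · exact ⟨i0, fun h => absurd h hs⟩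
  choose c hc using hch
  have F2 : ∀ s t, s < m → t ≤ m → t ≠ s → t ≠ s + 1 → A (c s) (x t) = 0 := by
    intro s t hs ht h1 h2
    by_contra h
    obtain ⟨hi, h4, h5⟩ := hc s hs
    rcases Nat.lt_or_ge t s with hts | hts
    · exact cut t (s + 1) (by omega) (by omega) ⟨c s, hi, h, h5⟩
    · exact cut s t ht (by omega) ⟨c s, hi, h4, h⟩
  -- the functional
  set p : ℕ → K := fun n => Nat.rec 1 (fun t y => -y * A (c t) (x t) / A (c t) (x (t + 1))) n
    with hp
  have p0 : p 0 = 1 := rfl
  have ps : ∀ t, p (t + 1) = -p t * A (c t) (x t) / A (c t) (x (t + 1)) := fun t => rfl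
  have pne : ∀ t ≤ m, p t ≠ 0 := by
    intro t
    induction t with
    | zero => intro _; rw [p0]; exact one_ne_zero
    | succ t iht =>
      intro ht
      obtain ⟨-, h4, h5⟩ := hc t (by omega)
      rw [ps]
      exact div_ne_zero (mul_ne_zero (neg_ne_zero.2 (iht (by omega))) h4) h5
  set ψ : (Fin l → K) →ₗ[K] K := ∑ t ∈ Finset.range (m + 1), p t • LinearMap.proj (x t) with hψ
  have ψa : ∀ w, ψ w = ∑ t ∈ Finset.range (m + 1), p t * w (x t) := by
    intro w
    rw [hψ, LinearMap.sum_apply]
    rfl
  have ψuv : ∀ w : Fin l → K, (∀ s, 0 < s → s < m → w (x s) = 0) →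
      ψ w = p 0 * w (x 0) + p m * w (x m) := by
    intro w hw
    rw [ψa]
    apply Finset.sum_eq_add_of_mem 0 m (Finset.mem_range.2 (by omega))
      (Finset.mem_range.2 (by omega)) hm.ne
    intro t ht h
    rw [Finset.mem_range] at ht
    rw [hw t (Nat.pos_of_ne_zero h.1) (by omega), mul_zero]
  have hzero : ∀ k, u k = 0 ↔ v k = 0 := by
    intro k
    exact hcl.zero_iff hA (fun k => by rw [hI _ (hβ k), hA]) i0 k
  have ψu := ψuv u F1
  have ψv := ψuv v fun s h1 h2 => (hzero _).1 (F1 s h1 h2)
  set S : Set ι := { i | (∃ t < m, i = c t) ∨ ∃ k, (∀ t ≤ m, x t ≠ k) ∧ i = β k } with hS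
  have hSI : S ⊆ I := by
    rintro i (⟨t, ht, rfl⟩ | ⟨k, -, rfl⟩)
    · exact (hc t ht).1
    · exact hβ k
  set F : Submodule K (Fin l → K) := Submodule.span K (A '' S) with hF
  have hFB : Submodule.span K (B '' S) = F := by
    rw [hF]
    congr 1
    exact Set.image_congr fun i hi => hI i (hSI hi)
  have huv : u ∈ F ↔ v ∈ F := by
    rw [hF, hu, hcl S i0, hFB, hF]
  have C1 : ∀ w ∈ F, ψ w = 0 := by
    intro w hw
    have h1 : F ≤ LinearMap.ker ψ := by
      rw [hF, Submodule.span_le]
      rintro _ ⟨i, hi, rfl⟩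
      rw [SetLike.mem_coe, LinearMap.mem_ker, ψa]
      rcases hi with ⟨s, hs, rfl⟩ | ⟨k, hk, rfl⟩
      · have h2 : ∑ t ∈ Finset.range (m + 1), p t * A (c s) (x t) =
            p s * A (c s) (x s) + p (s + 1) * A (c s) (x (s + 1)) := by
          apply Finset.sum_eq_add_of_mem s (s + 1) (Finset.mem_range.2 (by omega))
            (Finset.mem_range.2 (by omega)) (by omega)
          intro t ht h
          rw [Finset.mem_range] at ht
          rw [F2 s t hs (by omega) h.1 h.2, mul_zero]
        rw [h2, ps, div_mul_cancel₀ _ (hc s hs).2.2]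
        ring
      · apply Finset.sum_eq_zero
        intro t ht
        rw [Finset.mem_range] at ht
        rw [hA, Pi.single_apply, if_neg (hk t (by omega)), mul_zero]
    exact h1 hw
  have C2 : ∀ w : Fin l → K, ∃ y : K, w - y • (Pi.single (x 0) 1 : Fin l → K) ∈ F := by
    have h1 : F ⊔ Submodule.span K {(Pi.single (x 0) 1 : Fin l → K)} = ⊤ := by
      rw [eq_top_iff]
      have h2 : ∀ t ≤ m, (Pi.single (x t) 1 : Fin l → K) ∈
          F ⊔ Submodule.span K {(Pi.single (x 0) 1 : Fin l → K)} := by
        intro t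
        induction t with
        | zero =>
          intro _
          exact (le_sup_right : _ ≤ F ⊔ _) (Submodule.mem_span_singleton_self _)
        | succ t iht =>
          intro ht
          obtain ⟨-, h4, h5⟩ := hc t (by omega)
          have h6 : A (c t) ∈ F ⊔ Submodule.span K {(Pi.single (x 0) 1 : Fin l → K)} :=
            (le_sup_left : F ≤ _) (Submodule.subset_span ⟨c t, Or.inl ⟨t, by omega, rfl⟩, rfl⟩)
          have h7 : ∀ k ∈ Finset.univ.erase (x (t + 1)),
              A (c t) k • (Pi.single k 1 : Fin l → K) ∈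
              F ⊔ Submodule.span K {(Pi.single (x 0) 1 : Fin l → K)} := by
            intro k hk
            by_cases hkx : ∃ s ≤ m, x s = k
            · obtain ⟨s, hs, rfl⟩ := hkx
              by_cases hst : s = t
              · rw [hst]
                exact Submodule.smul_mem _ _ (iht (by omega))
              · have h8 : s ≠ t + 1 := fun h => (Finset.ne_of_mem_erase hk) (by rw [h])
                rw [F2 t s (by omega) hs hst h8, zero_smul]
                exact Submodule.zero_mem _
            · push Not at hkx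
              apply Submodule.smul_mem
              apply (le_sup_left : F ≤ _)
              rw [← hA]
              exact Submodule.subset_span ⟨β k, Or.inr ⟨k, hkx, rfl⟩, rfl⟩
          have h8 : A (c t) = A (c t) (x (t + 1)) • (Pi.single (x (t + 1)) 1 : Fin l → K) +
              ∑ k ∈ Finset.univ.erase (x (t + 1)), A (c t) k • (Pi.single k 1 : Fin l → K) := by
            rw [Finset.add_sum_erase _ (fun k => A (c t) k • (Pi.single k 1 : Fin l → K))
              (Finset.mem_univ _)]
            funext j
            rw [Finset.sum_apply, Finset.sum_eq_single j]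
            · simp
            · intro b _ hb
              simp [hb.symm]
            · intro h
              exact absurd (Finset.mem_univ _) h
          have h9 := Submodule.sub_mem _ h6 (Submodule.sum_mem _ h7)
          nth_rewrite 1 [h8] at h9
          rw [add_sub_cancel_right] at h9
          have h10 := Submodule.smul_mem _ (A (c t) (x (t + 1)))⁻¹ h9
          rwa [smul_smul, inv_mul_cancel₀ h5, one_smul] at h10
      intro w _
      have h3 : w = ∑ k, w k • (Pi.single k 1 : Fin l → K) := by
        funext j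
        rw [Finset.sum_apply, Finset.sum_eq_single j]
        · simp
        · intro b _ hb
          simp [hb.symm]
        · intro h
          exact absurd (Finset.mem_univ _) h
      rw [h3]
      apply Submodule.sum_mem
      intro k _
      apply Submodule.smul_mem
      by_cases hkx : ∃ s ≤ m, x s = k
      · obtain ⟨s, hs, rfl⟩ := hkx
        exact h2 s hs
      · push Not at hkx
        apply (le_sup_left : F ≤ _)
        rw [← hA]
        exact Submodule.subset_span ⟨β k, Or.inr ⟨k, hkx, rfl⟩, rfl⟩
    intro w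
    have h2 : w ∈ F ⊔ Submodule.span K {(Pi.single (x 0) 1 : Fin l → K)} := by
      rw [h1]
      exact Submodule.mem_top
    obtain ⟨f, hf, y, hy, rfl⟩ := Submodule.mem_sup.1 h2
    obtain ⟨a, rfl⟩ := Submodule.mem_span_singleton.1 hy
    exact ⟨a, by rwa [add_sub_cancel_right]⟩
  have hcontra : ψ u = 0 → ψ v = 0 → False := by
    intro h1 h2
    rw [ψu] at h1
    rw [ψv] at h2
    apply hne
    apply mul_left_cancel₀ (mul_ne_zero (pne 0 (by omega)) (pne m le_rfl))
    linear_combination (p m * u (x m)) * h2 - (p m * v (x m)) * h1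
  have C3 : ∀ w : Fin l → K, ψ w = 0 → ψ (Pi.single (x 0) 1) ≠ 0 → w ∈ F := by
    intro w hw h0
    obtain ⟨y, hy⟩ := C2 w
    have h1 := C1 _ hy
    rw [map_sub, map_smul, hw, zero_sub, neg_eq_zero, smul_eq_mul, mul_eq_zero,
      or_iff_left h0] at h1
    rwa [h1, zero_smul, sub_zero] at hy
  by_cases h0 : ψ (Pi.single (x 0) 1) = 0
  · have h1 : ∀ w, ψ w = 0 := by
      intro w
      obtain ⟨y, hy⟩ := C2 w
      have h1 := C1 _ hy
      rwa [map_sub, map_smul, h0, smul_zero, sub_zero] at h1
    exact hcontra (h1 u) (h1 v)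
  · have h1 : ψ u ≠ 0 := fun h => hcontra h (C1 v (huv.1 (C3 u h h0)))
    have h2 : ψ v ≠ 0 := fun h => hcontra (C1 u (huv.2 (C3 v h h0))) h
    rw [ψu] at h1
    rw [ψv] at h2
    have hv0 : v (x 0) ≠ 0 := fun h => hu0 ((hzero _).2 h)
    have hvm : v (x m) ≠ 0 := fun h => hum ((hzero _).2 h)
    have e1 : p 0 * u (x 0) = p m * u (x m) := by
      rcases h3 (p 0 * u (x 0)) (p m * u (x m)) (mul_ne_zero (pne 0 (by omega)) hu0)
        (mul_ne_zero (pne m le_rfl) hum) with h | h
      · exact h
      · exact absurd (by rw [h]; ring) h1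
    have e2 : p 0 * v (x 0) = p m * v (x m) := by
      rcases h3 (p 0 * v (x 0)) (p m * v (x m)) (mul_ne_zero (pne 0 (by omega)) hv0)
        (mul_ne_zero (pne m le_rfl) hvm) with h | h
      · exact h
      · exact absurd (by rw [h]; ring) h2
    apply hne
    apply mul_left_cancel₀ (mul_ne_zero (pne 0 (by omega)) (pne m le_rfl))
    linear_combination (p m * u (x m)) * e2 - (p m * v (x m)) * e1

end

end Pool.Agent.H160.PG
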