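import Mathlib
import Pool.Agent.H160.PG.Tern

set_option autoImplicit false

/-! # Closed sets and linear maps, normalisation, from the lattice to the closed sets -/

namespace Pool.Agent.H160.PG

open MvPolynomial Pool.Agent.H160.TF

section

variable {K : Type} [Field K] {l : ℕ} {ι : Type}

theorem SameCl.symm {A B : ι → Fin l → K} (h : SameCl A B) : SameCl B A :=
  fun S i => (h S i).symm

theorem SameCl.trans {A B C : ι → Fin l → K} (h : SameCl A B) (h' : SameCl B C) : SameCl A C :=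
  fun S i => (h S i).trans (h' S i)

theorem SameCl.lin (A : ι → Fin l → K) (g : (Fin l → K) ≃ₗ[K] (Fin l → K)) :
    SameCl A (fun i => g (A i)) := by
  intro S i
  have h1 : (fun i => g (A i)) '' S = g '' (A '' S) := (Set.image_image _ _ _).symm
  have h2 : Submodule.span K (g '' (A '' S)) =
      Submodule.map (g : (Fin l → K) →ₗ[K] (Fin l → K)) (Submodule.span K (A '' S)) :=
    (Submodule.map_span _ _).symm
  rw [h1, h2, Submodule.mem_map_equiv, g.symm_apply_apply]

theorem SameCl.smul (A : ι → Fin l → K) {c : ι → K} (hc : ∀ i, c i ≠ 0) :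
    SameCl A (fun i => c i • A i) := by
  intro S i
  have h1 : Submodule.span K ((fun i => c i • A i) '' S) = Submodule.span K (A '' S) := by
    apply le_antisymm
    · rw [Submodule.span_le]
      rintro _ ⟨j, hj, rfl⟩
      exact Submodule.smul_mem _ _ (Submodule.subset_span ⟨j, hj, rfl⟩)
    · rw [Submodule.span_le]
      rintro _ ⟨j, hj, rfl⟩
      have h2 := Submodule.smul_mem (Submodule.span K ((fun i => c i • A i) '' S)) (c j)⁻¹
        (Submodule.subset_span ⟨j, hj, rfl⟩)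
      simp only [smul_smul, inv_mul_cancel₀ (hc j), one_smul] at h2
      exact h2
  rw [h1, Submodule.smul_mem_iff _ (hc i)]

/-- a diagonal linear map -/
noncomputable def dg (δ : Fin l → K) (h : ∀ k, δ k ≠ 0) : (Fin l → K) ≃ₗ[K] (Fin l → K) :=
  LinearEquiv.piCongrRight fun k => LinearEquiv.smulOfNeZero K K (δ k) (h k)

theorem dg_apply (δ : Fin l → K) (h : ∀ k, δ k ≠ 0) (x : Fin l → K) (k : Fin l) :
    dg δ h x k = δ k * x k := rfl

/-- choice of a basis -/
theorem exists_norm {A : ι → Fin l → K} (hspan : Submodule.span K (Set.range A) = ⊤) :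
    ∃ β : Fin l → ι, LinearIndependent K (fun k => A (β k)) := by
  obtain ⟨f, hf, -, hli⟩ := Submodule.exists_fun_fin_finrank_span_eq K (Set.range A)
  have h1 : Module.finrank K (Submodule.span K (Set.range A)) = l := by
    rw [hspan, finrank_top, Module.finrank_fin_fun]
  choose β hβ using hf
  refine ⟨fun k => β (Fin.cast h1.symm k), ?_⟩
  have h2 : (fun k => A (β (Fin.cast h1.symm k))) = f ∘ Fin.cast h1.symm := by
    funext k
    exact hβ _
  rw [h2]
  exact hli.comp _ (Fin.cast_injective _)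

theorem SameCl.li {A B : ι → Fin l → K} (h : SameCl A B) {κ : Type*} {β : κ → ι}
    (hA : LinearIndependent K (fun k => A (β k))) : LinearIndependent K (fun k => B (β k)) := by
  rw [linearIndependent_iff_notMem_span] at hA ⊢
  intro i hi
  apply hA i
  have h1 : ∀ A : ι → Fin l → K, (fun k => A (β k)) '' (Set.univ \ {i}) =
      A '' (β '' (Set.univ \ {i})) := fun A => (Set.image_image _ _ _).symm
  rw [h1] at hi ⊢
  exact (h _ _).2 hi

/-- coordinates with respect to a basis -/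
theorem exists_coord {b : Fin l → Fin l → K} (hb : LinearIndependent K b) :
    ∃ g : (Fin l → K) ≃ₗ[K] (Fin l → K), ∀ k, g (b k) = Pi.single k 1 := by
  let B := basisOfLinearIndependentOfCardEqFinrank' b hb (by simp)
  refine ⟨B.equivFun, fun k => ?_⟩
  have h1 : b k = B k := by simp [B]
  rw [h1]
  funext j
  rw [Module.Basis.equivFun_self, Pi.single_apply]
  simp only [eq_comm]

end

section

variable {K : Type} [Field K] {l n m : ℕ}

theorem e_iInf {A : Matrix (Fin n) (Fin l) K} {B : Matrix (Fin m) (Fin l) K}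
    (e : ↥(Lat A) ≃o ↥(Lat B)) (σ : Fin n ≃ Fin m)
    (hσ : ∀ i, e ⟨HH A i, HH_mem A i⟩ = ⟨HH B (σ i), HH_mem B (σ i)⟩) (s : Finset (Fin n)) :
    (e ⟨⨅ i ∈ s, HH A i, ⟨s, rfl⟩⟩ : Submodule K (Fin l → K)) = ⨅ i ∈ s, HH B (σ i) := by
  classical
  have hmem : (⨅ i ∈ s, HH B (σ i)) ∈ Lat B := by
    refine ⟨s.map σ.toEmbedding, ?_⟩
    simp only [Finset.mem_map_equiv]
    apply le_antisymm
    · apply le_iInf₂
      intro i hi
      exact iInf₂_le_of_le (σ i) (by simpa using hi) le_rfl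
    · apply le_iInf₂
      intro j hj
      exact iInf₂_le_of_le (σ.symm j) hj (by rw [σ.apply_symm_apply])
  apply le_antisymm
  · apply le_iInf₂
    intro i hi
    have h1 : e ⟨⨅ i ∈ s, HH A i, ⟨s, rfl⟩⟩ ≤ ⟨HH B (σ i), HH_mem B (σ i)⟩ := by
      rw [← hσ, e.le_iff_le]
      exact (iInf₂_le i hi : (⨅ i ∈ s, HH A i) ≤ HH A i)
    exact h1
  · have h1 : (⟨_, hmem⟩ : ↥(Lat B)) ≤ e ⟨⨅ i ∈ s, HH A i, ⟨s, rfl⟩⟩ := by
      rw [← e.symm_apply_le]
      have h2 : ∀ i ∈ s, e.symm ⟨_, hmem⟩ ≤ (⟨HH A i, HH_mem A i⟩ : ↥(Lat A)) := by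
        intro i hi
        rw [e.symm_apply_le, hσ]
        exact (iInf₂_le i hi : (⨅ i ∈ s, HH B (σ i)) ≤ HH B (σ i))
      have h3 : ((e.symm ⟨_, hmem⟩ : ↥(Lat A)) : Submodule K (Fin l → K)) ≤
          ⨅ i ∈ s, HH A i := le_iInf₂ fun i hi => h2 i hi
      exact h3
    exact h1

/-- an isomorphism of the lattices gives a bijection with the same closed sets -/
theorem exists_sameCl {A : Matrix (Fin n) (Fin l) K} {B : Matrix (Fin m) (Fin l) K} (hA : Dist A)
    (hB : Dist B) (e : ↥(Lat A) ≃o ↥(Lat B)) :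
    ∃ σ : Fin n ≃ Fin m, SameCl (fun i => A i) (fun i => B (σ i)) := by
  classical
  obtain ⟨σ, hσ⟩ := exists_equiv hA hB e
  refine ⟨σ, fun S i => ?_⟩
  have key : ∀ s : Finset (Fin n), A i ∈ Submodule.span K (A '' (s : Set (Fin n))) ↔
      B (σ i) ∈ Submodule.span K ((fun i => B (σ i)) '' (s : Set (Fin n))) := by
    intro s
    have h1 : (⨅ j ∈ s, HH A j) ≤ HH A i ↔ (⨅ j ∈ s, HH B (σ j)) ≤ HH B (σ i) := by
      rw [← e_iInf e σ hσ s]
      have h2 : (⨅ j ∈ s, HH A j) ≤ HH A i ↔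
          (⟨⨅ i ∈ s, HH A i, ⟨s, rfl⟩⟩ : ↥(Lat A)) ≤ ⟨HH A i, HH_mem A i⟩ := Iff.rfl
      rw [h2, ← e.le_iff_le, hσ]
      rfl
    have h3 : (⨅ j ∈ s, HH B (σ j)) =
        perp (Submodule.span K ((fun i => B (σ i)) '' (s : Set (Fin n)))) := by
      have h4 := iInf_HH (fun i => B (σ i) : Matrix (Fin n) (Fin l) K) s
      rw [← h4]
      rfl
    rw [← perp_perp (Submodule.span K (A '' (s : Set (Fin n)))), ← iInf_HH, ← le_HH, h1, le_HH, h3,
      perp_perp]
  have hS : S = ((Finset.univ.filter (fun i => i ∈ S) : Finset (Fin n)) : Set (Fin n)) := by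
    ext j
    simp
  rw [hS]
  exact key _

/-- essential arrangements span -/
theorem span_of_ess {A : Matrix (Fin n) (Fin l) K} (h : ⨅ i, HH A i = ⊥) :
    Submodule.span K (Set.range (fun i => A i)) = ⊤ := by
  have h1 : (⨅ i ∈ (Finset.univ : Finset (Fin n)), HH A i) = ⊥ := by
    rw [← h]
    simp
  rw [iInf_HH, Finset.coe_univ] at h1
  have h0 : (A '' Set.univ : Set (Fin l → K)) = Set.range (fun i => A i) := Set.image_univ
  rw [h0] at h1
  have h2 := finrank_perp (Submodule.span K (Set.range (fun i => A i)))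
  rw [h1, finrank_bot, add_zero] at h2
  apply Submodule.eq_top_of_finrank_eq
  rw [Module.finrank_fin_fun]
  exact h2

end

end Pool.Agent.H160.PG
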