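import Mathlib
import Pool.Agent.H160.PG.Norm

set_option autoImplicit false

/-! # Binary and ternary matroids are uniquely representable -/

namespace Pool.Agent.H160.PG

open MvPolynomial Pool.Agent.H160.TF

section

variable {K : Type} [Field K] {l : ℕ} {ι : Type}

theorem step (h3 : ∀ a b : K, a ≠ 0 → b ≠ 0 → a = b ∨ a = -b) {A B : ι → Fin l → K}
    (hcl : SameCl A B) (I : Set ι) (hI : ∀ i ∈ I, B i = A i) {β : Fin l → ι} (hβ : ∀ k, β k ∈ I)
    (hA : ∀ k, A (β k) = Pi.single k 1) (i0 : ι) :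
    ∃ r : Fin l → K, (∀ k, r k ≠ 0) ∧
      (∀ i ∈ I, ∃ c : K, c ≠ 0 ∧ ∀ k, r k * A i k = c * A i k) ∧
      ∀ k, B i0 k = r k * A i0 k := by
  classical
  set u := A i0 with hu
  set v := B i0 with hv
  have hzero : ∀ k, u k = 0 ↔ v k = 0 := by
    intro k
    exact hcl.zero_iff hA (fun k => by rw [hI _ (hβ k), hA]) i0 k
  have key : ∀ k k', u k ≠ 0 → u k' ≠ 0 → Relation.ReflTransGen (RR2 I A) k k' →
      v k * u k' = u k * v k' := by
    intro k k' hk hk' hR
    by_contra hne
    obtain ⟨m, x, h0, hm, hx⟩ := exists_path I A hR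
    refine ratio_eq I A h3 hcl hI hβ hA i0 m ⟨x, hx, ?_, ?_, ?_⟩
    · rw [h0]
      exact hk
    · rw [hm]
      exact hk'
    · rw [h0, hm]
      exact hne
  have hsymm : ∀ {k k'}, Relation.ReflTransGen (RR2 I A) k k' →
      Relation.ReflTransGen (RR2 I A) k' k := by
    intro k k' h
    induction h with
    | refl => exact Relation.ReflTransGen.refl
    | tail _ hbc ih => exact Relation.ReflTransGen.head (RR2.symm I A hbc) ih
  let P : Fin l → Prop := fun k => ∃ k0, u k0 ≠ 0 ∧ Relation.ReflTransGen (RR2 I A) k k0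
  let r : Fin l → K := fun k => if h : P k then v h.choose / u h.choose else 1
  have rpos : ∀ k (h : P k), r k = v h.choose / u h.choose := fun k h => dif_pos h
  have rneg : ∀ k, ¬ P k → r k = 1 := fun k h => dif_neg h
  refine ⟨r, ?_, ?_, ?_⟩
  · intro k
    by_cases h : P k
    · rw [rpos k h]
      exact div_ne_zero (fun h0 => h.choose_spec.1 ((hzero _).2 h0)) h.choose_spec.1
    · rw [rneg k h]
      exact one_ne_zero
  · intro i hi
    have hr : ∀ k k', A i k ≠ 0 → A i k' ≠ 0 → r k = r k' := by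
      intro k k' h h'
      have hR : Relation.ReflTransGen (RR2 I A) k k' := Relation.ReflTransGen.single ⟨i, hi, h, h'⟩
      by_cases hP : P k
      · have hP' : P k' := by
          obtain ⟨k0, h0, h1⟩ := hP
          exact ⟨k0, h0, (hsymm hR).trans h1⟩
        rw [rpos k hP, rpos k' hP', div_eq_div_iff hP.choose_spec.1 hP'.choose_spec.1]
        have h1 := key _ _ hP.choose_spec.1 hP'.choose_spec.1
          ((hsymm hP.choose_spec.2).trans (hR.trans hP'.choose_spec.2))
        rw [h1, mul_comm]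
      · have hP' : ¬ P k' := by
          rintro ⟨k0, h0, h1⟩
          exact hP ⟨k0, h0, hR.trans h1⟩
        rw [rneg k hP, rneg k' hP']
    by_cases h : ∃ k1, A i k1 ≠ 0
    · obtain ⟨k1, hk1⟩ := h
      refine ⟨r k1, ?_, ?_⟩
      · by_cases h : P k1
        · rw [rpos k1 h]
          exact div_ne_zero (fun h0 => h.choose_spec.1 ((hzero _).2 h0)) h.choose_spec.1
        · rw [rneg k1 h]
          exact one_ne_zero
      · intro k
        by_cases hk : A i k = 0
        · rw [hk, mul_zero, mul_zero]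
        · rw [hr k k1 hk hk1]
    · push Not at h
      refine ⟨1, one_ne_zero, fun k => ?_⟩
      rw [h k, mul_zero, mul_zero]
  · intro k
    by_cases hk : u k = 0
    · rw [hk, mul_zero, (hzero k).1 hk]
    · have hP : P k := ⟨k, hk, Relation.ReflTransGen.refl⟩
      have h1 := key _ _ hk hP.choose_spec.1 hP.choose_spec.2
      rw [rpos k hP, div_mul_eq_mul_div, eq_div_iff hP.choose_spec.1, h1, mul_comm]

theorem tern_aux (h3 : ∀ a b : K, a ≠ 0 → b ≠ 0 → a = b ∨ a = -b) {A B : ι → Fin l → K}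
    (hcl : SameCl A B) {β : Fin l → ι} (hA : ∀ k, A (β k) = Pi.single k 1)
    (hB : ∀ k, B (β k) = Pi.single k 1) (J : Finset ι) :
    ∃ (δ : Fin l → K) (lam : ι → K), (∀ k, δ k ≠ 0) ∧ (∀ i, lam i ≠ 0) ∧
      ∀ i, (i ∈ J ∨ i ∈ Set.range β) → ∀ k, B i k = lam i * (δ k * A i k) := by
  classical
  induction J using Finset.induction_on with
  | empty =>
    refine ⟨fun _ => 1, fun _ => 1, fun _ => one_ne_zero, fun _ => one_ne_zero, ?_⟩
    rintro i (h | ⟨k, rfl⟩) k'
    · exact absurd h (Finset.notMem_empty i)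
    · rw [hA, hB, one_mul, one_mul]
  | insert i0 J _ ih =>
    obtain ⟨δ, lam, hδ, hlam, h1⟩ := ih
    have hlam' : ∀ i, (lam i)⁻¹ ≠ 0 := fun i => inv_ne_zero (hlam i)
    have hδ' : ∀ k, (δ k)⁻¹ ≠ 0 := fun k => inv_ne_zero (hδ k)
    set B' : ι → Fin l → K := fun i => (lam i)⁻¹ • dg (fun k => (δ k)⁻¹) hδ' (B i) with hB'
    have hB'a : ∀ i k, B' i k = (lam i)⁻¹ * ((δ k)⁻¹ * B i k) := fun i k => rfl
    have hcl' : SameCl A B' := by
      have h2 := SameCl.lin B (dg (fun k => (δ k)⁻¹) hδ')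
      have h3 := SameCl.smul (fun i => dg (fun k => (δ k)⁻¹) hδ' (B i)) hlam'
      exact (hcl.trans h2).trans h3
    obtain ⟨r, hr, hr1, hr2⟩ := step h3 hcl' { i | i ∈ J ∨ i ∈ Set.range β } (by
      intro i hi
      funext k
      rw [hB'a, h1 i hi k]
      field_simp [hlam i, hδ k]) (fun k => Or.inr ⟨k, rfl⟩) hA i0
    have hch : ∀ i, ∃ c : K, c ≠ 0 ∧ ((i ∈ J ∨ i ∈ Set.range β) → ∀ k, r k * A i k = c * A i k) := by
      intro i
      by_cases hi : i ∈ J ∨ i ∈ Set.range β
      · obtain ⟨c, hc, h⟩ := hr1 i hi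
        exact ⟨c, hc, fun _ => h⟩
      · exact ⟨1, one_ne_zero, fun h => absurd h hi⟩
    choose c hc hc1 using hch
    have hi0 : ∀ k, B i0 k = lam i0 * ((δ k * r k) * A i0 k) := by
      intro k
      have h2 := hr2 k
      rw [hB'a] at h2
      have h4 : B i0 k = lam i0 * (δ k * ((lam i0)⁻¹ * ((δ k)⁻¹ * B i0 k))) := by
        have h5 := mul_inv_cancel₀ (hlam i0)
        have h6 := mul_inv_cancel₀ (hδ k)
        linear_combination (-(B i0 k) * (δ k * (δ k)⁻¹)) * h5 - B i0 k * h6
      rw [h4, h2]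
      ring
    refine ⟨fun k => δ k * r k, fun i => if i = i0 then lam i0 else lam i * (c i)⁻¹,
      fun k => mul_ne_zero (hδ k) (hr k), fun i => ?_, ?_⟩
    · by_cases h : i = i0
      · simp only [h, if_true]
        exact hlam i0
      · simp only [h, if_false]
        exact mul_ne_zero (hlam i) (inv_ne_zero (hc i))
    · intro i hi k
      by_cases h : i = i0
      · simp only [h, if_true]
        exact hi0 k
      · simp only [h, if_false]
        have hi' : i ∈ J ∨ i ∈ Set.range β := by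
          rcases hi with hi | hi
          · exact Or.inl ((Finset.mem_insert.1 hi).resolve_left h)
          · exact Or.inr hi
        rw [h1 i hi' k]
        have h2 := hc1 i hi' k
        have h4 := inv_mul_cancel₀ (hc i)
        linear_combination (-(lam i * δ k * (c i)⁻¹)) * h2 - (lam i * δ k * A i k) * h4

/-- **binary and ternary matroids are uniquely representable** -/
theorem tern [Finite ι] (h3 : ∀ a b : K, a ≠ 0 → b ≠ 0 → a = b ∨ a = -b) {A B : ι → Fin l → K}
    (hcl : SameCl A B) (hspan : Submodule.span K (Set.range A) = ⊤) :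
    ∃ g : (Fin l → K) ≃ₗ[K] (Fin l → K), ∀ i, ∃ c : K, c ≠ 0 ∧ B i = c • g (A i) := by
  classical
  obtain ⟨β, hβ⟩ := exists_norm hspan
  obtain ⟨gA, hgA⟩ := exists_coord hβ
  obtain ⟨gB, hgB⟩ := exists_coord (hcl.li hβ)
  have : Fintype ι := Fintype.ofFinite ι
  obtain ⟨δ, lam, hδ, hlam, h1⟩ := tern_aux h3 (((SameCl.lin A gA).symm.trans hcl).trans
    (SameCl.lin B gB)) hgA hgB Finset.univ
  refine ⟨gA.trans ((dg δ hδ).trans gB.symm), fun i => ⟨lam i, hlam i, ?_⟩⟩
  have h2 : gB (B i) = lam i • dg δ hδ (gA (A i)) := by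
    funext k
    exact h1 i (Or.inl (Finset.mem_univ i)) k
  rw [LinearEquiv.trans_apply, LinearEquiv.trans_apply, ← map_smul, ← h2, gB.symm_apply_apply]

theorem Eqv.of_tern [Finite ι] (h3 : ∀ a b : K, a ≠ 0 → b ≠ 0 → a = b ∨ a = -b)
    {A B : ι → Fin l → K} (hcl : SameCl A B) (hspan : Submodule.span K (Set.range A) = ⊤) :
    Eqv A B := by
  obtain ⟨g, hg⟩ := tern h3 hcl hspan
  refine (Eqv.lin A g).trans (Eqv.of_set (fun i => ?_) (fun i => ?_))
  · obtain ⟨c, hc, h⟩ := hg i
    exact ⟨i, c, hc, h⟩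
  · obtain ⟨c, hc, h⟩ := hg i
    exact ⟨i, c, hc, h⟩

/-- in a field with two or three elements, nonzero elements agree up to sign -/
theorem sign_of_card (h2 : 2 ≤ Nat.card K) (h3 : Nat.card K ≤ 3) (a b : K) (ha : a ≠ 0)
    (hb : b ≠ 0) : a = b ∨ a = -b := by
  classical
  have hf : Finite K := Nat.finite_of_card_ne_zero (by omega)
  have : Fintype K := Fintype.ofFinite K
  rw [Nat.card_eq_fintype_card] at h2 h3
  have key : ∀ x : K, x ≠ 0 → x = 1 ∨ x = -1 := by
    intro x hx
    have h4 : x ^ (Fintype.card K - 1) = 1 := FiniteField.pow_card_sub_one_eq_one x hx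
    rcases (by omega : Fintype.card K = 2 ∨ Fintype.card K = 3) with h | h
    · rw [h] at h4
      left
      simpa using h4
    · rw [h] at h4
      have h5 : (x - 1) * (x + 1) = 0 := by
        have h6 : x ^ 2 = 1 := by simpa using h4
        linear_combination h6
      rcases mul_eq_zero.1 h5 with h5 | h5
      · exact Or.inl (sub_eq_zero.1 h5)
      · exact Or.inr (eq_neg_of_add_eq_zero_left h5)
  rcases key a ha with h | h <;> rcases key b hb with h' | h' <;> rw [h, h'] <;> simp

end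

end Pool.Agent.H160.PG
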