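import Mathlib
import Pool.Agent.H160.PG.Tern2

set_option autoImplicit false

/-! # The field with four elements: basic facts, arrangements in two pencils -/

namespace Pool.Agent.H160.PG

open MvPolynomial Pool.Agent.H160.TF

section field

variable {K : Type} [Field K]

theorem f4_cube (h4 : Nat.card K = 4) {x : K} (hx : x ≠ 0) : x ^ 3 = 1 := by
  classical
  have hf : Finite K := Nat.finite_of_card_ne_zero (by omega)
  have : Fintype K := Fintype.ofFinite K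
  rw [Nat.card_eq_fintype_card] at h4
  have h1 := FiniteField.pow_card_sub_one_eq_one x hx
  rwa [h4] at h1

theorem f4_two (h4 : Nat.card K = 4) : (2 : K) = 0 := by
  have h1 := f4_cube h4 (x := (-1 : K)) (neg_ne_zero.2 one_ne_zero)
  linear_combination -h1

theorem f4_left (h4 : Nat.card K = 4) {x y : K} (hx : x ≠ 0) (hx1 : x ≠ 1) (hy : y ≠ 0)
    (hy1 : y ≠ 1) : y = x ∨ y = x ^ 2 := by
  have e : ∀ x : K, x ≠ 0 → x ≠ 1 → x ^ 2 + x + 1 = 0 := by
    intro x hx hx1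
    have h1 := f4_cube h4 hx
    have h2 : (x - 1) * (x ^ 2 + x + 1) = 0 := by linear_combination h1
    exact (mul_eq_zero.1 h2).resolve_left (sub_ne_zero.2 hx1)
  have h1 := e x hx hx1
  have h2 := e y hy hy1
  have h3 : (y - x) * (y - x ^ 2) = 0 := by
    linear_combination h2 + (-y + (x - 1)) * h1
  rcases mul_eq_zero.1 h3 with h | h
  · exact Or.inl (sub_eq_zero.1 h)
  · exact Or.inr (sub_eq_zero.1 h)

theorem f4_pair (h4 : Nat.card K = 4) {x y x' y' : K} (h0 : x = 0 ↔ x' = 0) (h1 : x = 1 ↔ x' = 1)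
    (k0 : y = 0 ↔ y' = 0) (k1 : y = 1 ↔ y' = 1) (hxy : x = y ↔ x' = y') :
    (x' = x ∧ y' = y) ∨ (x' = x ^ 2 ∧ y' = y ^ 2) := by
  have real : ∀ {x x' : K}, (x = 0 ↔ x' = 0) → (x = 1 ↔ x' = 1) → (x = 0 ∨ x = 1) →
      x' = x ∧ x' = x ^ 2 := by
    intro x x' h0 h1 h
    rcases h with h | h
    · rw [h, h0.1 h]
      simp
    · rw [h, h1.1 h]
      simp
  have two : ∀ {x x' : K}, (x = 0 ↔ x' = 0) → (x = 1 ↔ x' = 1) → x' = x ∨ x' = x ^ 2 := by
    intro x x' h0 h1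
    by_cases hx : x = 0 ∨ x = 1
    · exact Or.inl (real h0 h1 hx).1
    · rw [not_or] at hx
      exact f4_left h4 hx.1 hx.2 (fun h => hx.1 (h0.2 h)) (fun h => hx.2 (h1.2 h))
  by_cases hx : x = 0 ∨ x = 1
  · obtain ⟨e1, e2⟩ := real h0 h1 hx
    rcases two k0 k1 with h | h
    · exact Or.inl ⟨e1, h⟩
    · exact Or.inr ⟨e2, h⟩
  · by_cases hy : y = 0 ∨ y = 1
    · obtain ⟨e1, e2⟩ := real k0 k1 hy
      rcases two h0 h1 with h | h
      · exact Or.inl ⟨h, e1⟩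
      · exact Or.inr ⟨h, e2⟩
    · rw [not_or] at hx hy
      have p4 : ∀ z : K, z ≠ 0 → (z ^ 2) ^ 2 = z := by
        intro z hz
        have := f4_cube h4 hz
        linear_combination z * this
      by_cases h : x = y
      · rcases two h0 h1 with h' | h'
        · exact Or.inl ⟨h', by rw [← hxy.1 h, h', h]⟩
        · exact Or.inr ⟨h', by rw [← hxy.1 h, h', h]⟩
      · have hyx : y = x ^ 2 := (f4_left h4 hx.1 hx.2 hy.1 hy.2).resolve_left (Ne.symm h)
        have hx' : x' ≠ 0 := fun h => hx.1 (h0.2 h)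
        have hx1' : x' ≠ 1 := fun h => hx.2 (h1.2 h)
        have hyx' : y' = x' ^ 2 := (f4_left h4 hx' hx1' (fun h => hy.1 (k0.2 h))
          (fun h => hy.2 (k1.2 h))).resolve_left (fun h' => h (hxy.2 h'.symm))
        rcases two h0 h1 with h' | h'
        · exact Or.inl ⟨h', by rw [hyx', h', hyx]⟩
        · exact Or.inr ⟨h', by rw [hyx', h', hyx]⟩

/-- subsets of the same size are affinely equivalent -/
theorem f4_aff (h4 : Nat.card K = 4) [DecidableEq K] {S T : Finset K} (h : S.card = T.card) :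
    ∃ a b : K, a ≠ 0 ∧ (∀ x ∈ S, a * x + b ∈ T) ∧ ∀ y ∈ T, ∃ x ∈ S, y = a * x + b := by
  have hf : Finite K := Nat.finite_of_card_ne_zero (by omega)
  have : Fintype K := Fintype.ofFinite K
  rw [Nat.card_eq_fintype_card] at h4
  have hS := Finset.card_le_univ S
  have hT := Finset.card_le_univ T
  have hSc := Finset.card_compl S
  have hTc := Finset.card_compl T
  rw [h4] at hS hT hSc hTc
  rcases (by omega : S.card = 0 ∨ S.card = 1 ∨ S.card = 2 ∨ S.card = 3 ∨ S.card = 4) with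
    h0 | h0 | h0 | h0 | h0
  · rw [Finset.card_eq_zero.1 h0, Finset.card_eq_zero.1 (h ▸ h0 : T.card = 0)]
    exact ⟨1, 0, one_ne_zero, fun x hx => absurd hx (Finset.notMem_empty x),
      fun x hx => absurd hx (Finset.notMem_empty x)⟩
  · obtain ⟨x, rfl⟩ := Finset.card_eq_one.1 h0
    obtain ⟨y, rfl⟩ := Finset.card_eq_one.1 (h ▸ h0 : T.card = 1)
    refine ⟨1, y - x, one_ne_zero, fun z hz => ?_, fun z hz => ⟨x, Finset.mem_singleton_self x, ?_⟩⟩
    · rw [Finset.mem_singleton] at hz ⊢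
      rw [hz]
      ring
    · rw [Finset.mem_singleton.1 hz]
      ring
  · obtain ⟨x1, x2, hx, rfl⟩ := Finset.card_eq_two.1 h0
    obtain ⟨y1, y2, hy, rfl⟩ := Finset.card_eq_two.1 (h ▸ h0 : T.card = 2)
    have hx' : x1 - x2 ≠ 0 := sub_ne_zero.2 hx
    have hy' : y1 - y2 ≠ 0 := sub_ne_zero.2 hy
    have e1 : (y1 - y2) / (x1 - x2) * x1 + (y1 - (y1 - y2) / (x1 - x2) * x1) = y1 := by ring
    have e2 : (y1 - y2) / (x1 - x2) * x2 + (y1 - (y1 - y2) / (x1 - x2) * x1) = y2 := by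
      have h5 : (y1 - y2) / (x1 - x2) * (x1 - x2) = y1 - y2 := div_mul_cancel₀ _ hx'
      linear_combination -h5
    refine ⟨(y1 - y2) / (x1 - x2), y1 - (y1 - y2) / (x1 - x2) * x1, div_ne_zero hy' hx', ?_, ?_⟩
    · intro z hz
      rw [Finset.mem_insert, Finset.mem_singleton] at hz ⊢
      rcases hz with rfl | rfl
      · exact Or.inl e1
      · exact Or.inr e2
    · intro z hz
      rw [Finset.mem_insert, Finset.mem_singleton] at hz
      rcases hz with rfl | rfl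
      · exact ⟨x1, by simp, e1.symm⟩
      · exact ⟨x2, by simp, e2.symm⟩
  · obtain ⟨x, hx⟩ := Finset.card_eq_one.1 (by rw [hSc, h0] : Sᶜ.card = 1)
    obtain ⟨y, hy⟩ := Finset.card_eq_one.1 (by rw [hTc, ← h, h0] : Tᶜ.card = 1)
    have mS : ∀ z, z ∈ S ↔ z ≠ x := by
      intro z
      rw [← not_iff_not, ← Finset.mem_compl, hx, Finset.mem_singleton, not_not]
    have mT : ∀ z, z ∈ T ↔ z ≠ y := by
      intro z
      rw [← not_iff_not, ← Finset.mem_compl, hy, Finset.mem_singleton, not_not]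
    refine ⟨1, y - x, one_ne_zero, fun z hz => ?_, fun z hz => ⟨z - (y - x), ?_, by ring⟩⟩
    · rw [mT]
      intro h
      exact (mS z).1 hz (by linear_combination h)
    · rw [mS]
      intro h
      exact (mT z).1 hz (by linear_combination h)
  · have hS1 : S = Finset.univ := (Finset.card_eq_iff_eq_univ S).1 (by rw [h0, h4])
    have hT1 : T = Finset.univ := (Finset.card_eq_iff_eq_univ T).1 (by rw [← h, h0, h4])
    rw [hS1, hT1]
    exact ⟨1, 0, one_ne_zero, fun _ _ => Finset.mem_univ _,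
      fun z _ => ⟨z, Finset.mem_univ _, by ring⟩⟩

end field

section lines

variable {K : Type} [Field K] {ι : Type}

omit [Field K] in
theorem ext_fin3 {f g : Fin 3 → K} (h0 : f 0 = g 0) (h1 : f 1 = g 1) (h2 : f 2 = g 2) : f = g := by
  funext j
  fin_cases j
  · exact h0
  · exact h1
  · exact h2

theorem equiv_of_inj (f : (Fin 3 → K) →ₗ[K] (Fin 3 → K)) (hf : ∀ x, f x = 0 → x = 0) :
    ∃ g : (Fin 3 → K) ≃ₗ[K] (Fin 3 → K), ∀ x, g x = f x :=
  ⟨LinearEquiv.ofInjectiveEndo f ((injective_iff_map_eq_zero f).2 hf), fun _ => rfl⟩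

/-- the linear map of the next lemma -/
def shear (b b' c c' : K) : (Fin 3 → K) →ₗ[K] (Fin 3 → K) where
  toFun x := ![x 0 + b * x 1 + b' * x 2, c * x 1, c' * x 2]
  map_add' x y := by
    apply ext_fin3
    · show (x 0 + y 0) + b * (x 1 + y 1) + b' * (x 2 + y 2) =
        (x 0 + b * x 1 + b' * x 2) + (y 0 + b * y 1 + b' * y 2)
      ring
    · show c * (x 1 + y 1) = c * x 1 + c * y 1
      ring
    · show c' * (x 2 + y 2) = c' * x 2 + c' * y 2
      ring
  map_smul' a x := by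
    apply ext_fin3
    · show a * x 0 + b * (a * x 1) + b' * (a * x 2) = a * (x 0 + b * x 1 + b' * x 2)
      ring
    · show c * (a * x 1) = a * (c * x 1)
      ring
    · show c' * (a * x 2) = a * (c' * x 2)
      ring

theorem shear_0 (b b' c c' : K) (x : Fin 3 → K) : shear b b' c c' x 0 =
    x 0 + b * x 1 + b' * x 2 := rfl
theorem shear_1 (b b' c c' : K) (x : Fin 3 → K) : shear b b' c c' x 1 = c * x 1 := rfl
theorem shear_2 (b b' c c' : K) (x : Fin 3 → K) : shear b b' c c' x 2 = c' * x 2 := rfl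

/-- arrangements in the union of two coordinate lines (of the dual plane) -/
theorem two_lines [Finite ι] (h4 : Nat.card K = 4) {A B : ι → Fin 3 → K} (hA : Dist A)
    (hB : Dist B) (h1 : ∀ k, A k 1 = 0 ↔ B k 1 = 0) (h2 : ∀ k, A k 2 = 0 ↔ B k 2 = 0)
    (h12 : ∀ k, A k 1 = 0 ∨ A k 2 = 0) : Eqv A B := by
  classical
  have : Fintype ι := Fintype.ofFinite ι
  -- one line
  have line : ∀ (j j' : Fin 3), (∀ k, A k j = 0 ↔ B k j = 0) → (∀ k, A k j' = 0 ↔ B k j' = 0) →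
      (∀ f g : Fin 3 → K, f 0 = g 0 → f j = g j → f j' = g j' → f = g) →
      ∃ a b : K, a ≠ 0 ∧ (∀ k, A k j' = 0 → A k j ≠ 0 → ∃ k', A k' j' = 0 ∧ A k' j ≠ 0 ∧
        B k' 0 / B k' j = a * (A k 0 / A k j) + b) ∧
        ∀ k', A k' j' = 0 → A k' j ≠ 0 → ∃ k, A k j' = 0 ∧ A k j ≠ 0 ∧
        B k' 0 / B k' j = a * (A k 0 / A k j) + b := by
    intro j j' hj hj' hext
    set I : Finset ι := Finset.univ.filter (fun k => A k j' = 0 ∧ A k j ≠ 0) with hI
    have mI : ∀ k, k ∈ I ↔ A k j' = 0 ∧ A k j ≠ 0 := fun k => by simp [hI]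
    have inj : ∀ (C : ι → Fin 3 → K), Dist C → (∀ k ∈ I, C k j' = 0 ∧ C k j ≠ 0) →
        Set.InjOn (fun k => C k 0 / C k j) I := by
      intro C hC hCI k hk k' hk' h
      simp only at h
      by_contra hne
      obtain ⟨c1, c2⟩ := hCI k hk
      obtain ⟨c3, c4⟩ := hCI k' hk'
      rw [div_eq_div_iff c2 c4] at h
      refine hC.1 k k' hne (C k j / C k' j) (hext _ _ ?_ ?_ ?_)
      · rw [Pi.smul_apply, smul_eq_mul, div_mul_eq_mul_div, eq_div_iff c4]
        linear_combination h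
      · rw [Pi.smul_apply, smul_eq_mul, div_mul_cancel₀ _ c4]
      · rw [Pi.smul_apply, smul_eq_mul, c1, c3, mul_zero]
    have iA := inj A hA fun k hk => (mI k).1 hk
    have iB := inj B hB fun k hk => ⟨(hj' k).1 ((mI k).1 hk).1, fun h => ((mI k).1 hk).2 ((hj k).2 h)⟩
    obtain ⟨a, b, ha, hab1, hab2⟩ := f4_aff h4 (S := I.image fun k => A k 0 / A k j)
      (T := I.image fun k => B k 0 / B k j) (by
        rw [Finset.card_image_of_injOn iA, Finset.card_image_of_injOn iB])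
    refine ⟨a, b, ha, fun k e1 e2 => ?_, fun k' e1 e2 => ?_⟩
    · have h5 := hab1 _ (Finset.mem_image_of_mem _ ((mI k).2 ⟨e1, e2⟩))
      obtain ⟨k', hk', h6⟩ := Finset.mem_image.1 h5
      exact ⟨k', ((mI k').1 hk').1, ((mI k').1 hk').2, h6⟩
    · obtain ⟨x, hx, h6⟩ := hab2 _ (Finset.mem_image_of_mem _ ((mI k').2 ⟨e1, e2⟩))
      obtain ⟨k, hk, rfl⟩ := Finset.mem_image.1 hx
      exact ⟨k, ((mI k).1 hk).1, ((mI k).1 hk).2, h6⟩
  obtain ⟨a, b, ha, l1, l2⟩ := line 1 2 h1 h2 fun f g e0 e1 e2 => ext_fin3 e0 e1 e2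
  obtain ⟨a', b', ha', m1, m2⟩ := line 2 1 h2 h1 fun f g e0 e1 e2 => ext_fin3 e0 e2 e1
  obtain ⟨g, hg⟩ := equiv_of_inj (shear (b * a⁻¹) (b' * a'⁻¹) a⁻¹ a'⁻¹) (by
    intro x hx
    have e0 := congrFun hx 0
    have e1 := congrFun hx 1
    have e2 := congrFun hx 2
    rw [shear_0] at e0
    rw [shear_1] at e1
    rw [shear_2] at e2
    have x1 : x 1 = 0 := (mul_eq_zero.1 e1).resolve_left (inv_ne_zero ha)
    have x2 : x 2 = 0 := (mul_eq_zero.1 e2).resolve_left (inv_ne_zero ha')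
    rw [x1, x2, mul_zero, mul_zero, add_zero, add_zero] at e0
    exact ext_fin3 e0 x1 x2)
  have g0 : ∀ x, g x 0 = x 0 + b * a⁻¹ * x 1 + b' * a'⁻¹ * x 2 := fun x => by rw [hg, shear_0]
  have g1 : ∀ x, g x 1 = a⁻¹ * x 1 := fun x => by rw [hg, shear_1]
  have g2 : ∀ x, g x 2 = a'⁻¹ * x 2 := fun x => by rw [hg, shear_2]
  have haa := mul_inv_cancel₀ ha
  have haa' := mul_inv_cancel₀ ha'
  -- matching on the first line
  have match1 : ∀ k k', A k 2 = 0 → A k 1 ≠ 0 → A k' 2 = 0 → A k' 1 ≠ 0 →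
      B k' 0 / B k' 1 = a * (A k 0 / A k 1) + b → ∃ c : K, c ≠ 0 ∧ B k' = c • g (A k) := by
    intro k k' e1 e2 e3 e4 e5
    have f3 : B k' 2 = 0 := (h2 k').1 e3
    have f4 : B k' 1 ≠ 0 := fun h => e4 ((h1 k').2 h)
    have e6 : A k 0 / A k 1 * A k 1 = A k 0 := div_mul_cancel₀ _ e2
    have e7 : B k' 0 / B k' 1 * B k' 1 = B k' 0 := div_mul_cancel₀ _ f4
    have hi := mul_inv_cancel₀ e2
    refine ⟨B k' 1 * a * (A k 1)⁻¹, mul_ne_zero (mul_ne_zero f4 ha) (inv_ne_zero e2),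
      ext_fin3 ?_ ?_ ?_⟩
    · rw [Pi.smul_apply, smul_eq_mul, g0, e1]
      rw [← e7, e5]
      generalize A k 0 / A k 1 = s at *
      rw [← e6]
      linear_combination (-(B k' 1 * a * s + B k' 1 * a * a⁻¹ * b)) * hi - (B k' 1 * b) * haa
    · rw [Pi.smul_apply, smul_eq_mul, g1]
      linear_combination (-(B k' 1 * a * a⁻¹)) * hi - B k' 1 * haa
    · rw [Pi.smul_apply, smul_eq_mul, g2, e1, f3]
      ring
  have match2 : ∀ k k', A k 1 = 0 → A k 2 ≠ 0 → A k' 1 = 0 → A k' 2 ≠ 0 →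
      B k' 0 / B k' 2 = a' * (A k 0 / A k 2) + b' → ∃ c : K, c ≠ 0 ∧ B k' = c • g (A k) := by
    intro k k' e1 e2 e3 e4 e5
    have f3 : B k' 1 = 0 := (h1 k').1 e3
    have f4 : B k' 2 ≠ 0 := fun h => e4 ((h2 k').2 h)
    have e6 : A k 0 / A k 2 * A k 2 = A k 0 := div_mul_cancel₀ _ e2
    have e7 : B k' 0 / B k' 2 * B k' 2 = B k' 0 := div_mul_cancel₀ _ f4
    have hi := mul_inv_cancel₀ e2
    refine ⟨B k' 2 * a' * (A k 2)⁻¹, mul_ne_zero (mul_ne_zero f4 ha') (inv_ne_zero e2),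
      ext_fin3 ?_ ?_ ?_⟩
    · rw [Pi.smul_apply, smul_eq_mul, g0, e1]
      rw [← e7, e5]
      generalize A k 0 / A k 2 = s at *
      rw [← e6]
      linear_combination (-(B k' 2 * a' * s + B k' 2 * a' * a'⁻¹ * b')) * hi - (B k' 2 * b') * haa'
    · rw [Pi.smul_apply, smul_eq_mul, g1, e1, f3]
      ring
    · rw [Pi.smul_apply, smul_eq_mul, g2]
      linear_combination (-(B k' 2 * a' * a'⁻¹)) * hi - B k' 2 * haa'
  have match0 : ∀ k, A k 1 = 0 → A k 2 = 0 → ∃ c : K, c ≠ 0 ∧ B k = c • g (A k) := by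
    intro k e1 e2
    have f1 : B k 1 = 0 := (h1 k).1 e1
    have f2 : B k 2 = 0 := (h2 k).1 e2
    have e0 : A k 0 ≠ 0 := fun h => hA.2 k (ext_fin3 h e1 e2)
    have f0 : B k 0 ≠ 0 := fun h => hB.2 k (ext_fin3 h f1 f2)
    refine ⟨B k 0 / A k 0, div_ne_zero f0 e0, ext_fin3 ?_ ?_ ?_⟩
    · rw [Pi.smul_apply, smul_eq_mul, g0, e1, e2, mul_zero, mul_zero, add_zero, add_zero,
        div_mul_cancel₀ _ e0]
    · rw [Pi.smul_apply, smul_eq_mul, g1, e1, f1, mul_zero, mul_zero]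
    · rw [Pi.smul_apply, smul_eq_mul, g2, e2, f2, mul_zero, mul_zero]
  refine (Eqv.lin A g).trans (Eqv.of_set (fun k => ?_) (fun k' => ?_))
  · by_cases e1 : A k 1 = 0
    · by_cases e2 : A k 2 = 0
      · obtain ⟨c, hc, h⟩ := match0 k e1 e2
        exact ⟨k, c, hc, h⟩
      · obtain ⟨k', e3, e4, e5⟩ := m1 k e1 e2
        obtain ⟨c, hc, h⟩ := match2 k k' e1 e2 e3 e4 e5
        exact ⟨k', c, hc, h⟩
    · have e2 : A k 2 = 0 := (h12 k).resolve_left e1
      obtain ⟨k', e3, e4, e5⟩ := l1 k e2 e1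
      obtain ⟨c, hc, h⟩ := match1 k k' e2 e1 e3 e4 e5
      exact ⟨k', c, hc, h⟩
  · by_cases e1 : A k' 1 = 0
    · by_cases e2 : A k' 2 = 0
      · obtain ⟨c, hc, h⟩ := match0 k' e1 e2
        exact ⟨k', c, hc, h⟩
      · obtain ⟨k, e3, e4, e5⟩ := m2 k' e1 e2
        obtain ⟨c, hc, h⟩ := match2 k k' e3 e4 e1 e2 e5
        exact ⟨k, c, hc, h⟩
    · have e2 : A k' 2 = 0 := (h12 k').resolve_left e1
      obtain ⟨k, e3, e4, e5⟩ := l2 k' e2 e1
      obtain ⟨c, hc, h⟩ := match1 k k' e3 e4 e2 e1 e5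
      exact ⟨k, c, hc, h⟩

end lines

end Pool.Agent.H160.PG
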