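import Mathlib
import Pool.Agent.H160.PG.Four

set_option autoImplicit false

/-! # The field with four elements: planes -/

namespace Pool.Agent.H160.PG

open MvPolynomial Pool.Agent.H160.TF

section

variable {K : Type} [Field K] {ι : Type}

/-- the determinant -/
def dt (u v w : Fin 3 → K) : K :=
  u 0 * (v 1 * w 2 - v 2 * w 1) - u 1 * (v 0 * w 2 - v 2 * w 0) + u 2 * (v 0 * w 1 - v 1 * w 0)

theorem dt_eq (u v w : Fin 3 → K) : dt u v w = D3 (r := 0) u v w := rfl

theorem SameCl.dist {A B : ι → Fin 3 → K} (h : SameCl A B) (hA : Dist A) : Dist B := by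
  constructor
  · intro i j hij c hc
    have h1 : B i ∈ Submodule.span K (B '' {j}) := by
      rw [Set.image_singleton, Submodule.mem_span_singleton]
      exact ⟨c, hc.symm⟩
    rw [← h, Set.image_singleton, Submodule.mem_span_singleton] at h1
    obtain ⟨c', hc'⟩ := h1
    exact hA.1 i j hij c' hc'.symm
  · intro i hi
    have h1 : B i ∈ Submodule.span K (B '' ∅) := by
      rw [hi]
      exact Submodule.zero_mem _
    rw [← h, Set.image_empty, Submodule.span_empty, Submodule.mem_bot] at h1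
    exact hA.2 i h1

theorem dt_zero_iff {A : ι → Fin 3 → K} (hA : Dist A) {i j : ι} (hij : i ≠ j) (k : ι) :
    dt (A i) (A j) (A k) = 0 ↔ A k ∈ Submodule.span K (A '' {i, j}) := by
  rw [Set.image_pair, dt_eq]
  constructor
  · intro h
    exact mem_of_D3 (r := 0) (fun j => j.elim0) (fun j => j.elim0) (fun j => j.elim0) (hA.2 i)
      (fun c => hA.1 j i hij.symm c) h
  · intro h
    exact D3_of_mem (r := 0) h

theorem dt_self (u v : Fin 3 → K) : dt u u v = 0 := by
  unfold dt
  ring

theorem tri {A B : ι → Fin 3 → K} (h : SameCl A B) (hA : Dist A) (i j k : ι) :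
    dt (A i) (A j) (A k) = 0 ↔ dt (B i) (B j) (B k) = 0 := by
  by_cases hij : i = j
  · rw [hij, dt_self, dt_self]
  · rw [dt_zero_iff hA hij, dt_zero_iff (h.dist hA) hij, h]

theorem dt_smul1 (c : K) (u v w : Fin 3 → K) : dt (c • u) v w = c * dt u v w := by
  simp only [dt, Pi.smul_apply, smul_eq_mul]
  ring

theorem dt_smul2 (c : K) (u v w : Fin 3 → K) : dt u (c • v) w = c * dt u v w := by
  simp only [dt, Pi.smul_apply, smul_eq_mul]
  ring

theorem dt_smul3 (c : K) (u v w : Fin 3 → K) : dt u v (c • w) = c * dt u v w := by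
  simp only [dt, Pi.smul_apply, smul_eq_mul]
  ring

/-- scalar product -/
def dp (L x : Fin 3 → K) : K := L 0 * x 0 + L 1 * x 1 + L 2 * x 2

/-- vector product -/
def cp (u v : Fin 3 → K) : Fin 3 → K :=
  ![u 1 * v 2 - u 2 * v 1, u 2 * v 0 - u 0 * v 2, u 0 * v 1 - u 1 * v 0]

theorem cp_0 (u v : Fin 3 → K) : cp u v 0 = u 1 * v 2 - u 2 * v 1 := rfl
theorem cp_1 (u v : Fin 3 → K) : cp u v 1 = u 2 * v 0 - u 0 * v 2 := rfl
theorem cp_2 (u v : Fin 3 → K) : cp u v 2 = u 0 * v 1 - u 1 * v 0 := rfl

theorem dt_cp (p u v : Fin 3 → K) : dt p u v = dp (cp u v) p := by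
  rw [dp, cp_0, cp_1, cp_2, dt]
  ring

/-- the linear map with given coordinate functions -/
def coordMap (j : Fin 3) (M L : Fin 3 → K) : (Fin 3 → K) →ₗ[K] (Fin 3 → K) where
  toFun x := ![x j, dp M x, dp L x]
  map_add' x y := by
    apply ext_fin3
    · rfl
    · show dp M (x + y) = dp M x + dp M y
      simp only [dp, Pi.add_apply]
      ring
    · show dp L (x + y) = dp L x + dp L y
      simp only [dp, Pi.add_apply]
      ring
  map_smul' a x := by
    apply ext_fin3
    · rfl
    · show dp M (a • x) = a * dp M x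
      simp only [dp, Pi.smul_apply, smul_eq_mul]
      ring
    · show dp L (a • x) = a * dp L x
      simp only [dp, Pi.smul_apply, smul_eq_mul]
      ring

theorem exists_coordMap {L M : Fin 3 → K} (h : cp L M ≠ 0) :
    ∃ g : (Fin 3 → K) ≃ₗ[K] (Fin 3 → K), ∀ x, g x 1 = dp M x ∧ g x 2 = dp L x := by
  have h1 : ∃ j : Fin 3, cp L M j ≠ 0 := by
    by_contra hcon
    push Not at hcon
    exact h (funext hcon)
  obtain ⟨j, hj⟩ := h1
  obtain ⟨g, hg⟩ := equiv_of_inj (coordMap j M L) (by
    intro x hx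
    have e0 : x j = 0 := congrFun hx 0
    have e1 : dp M x = 0 := congrFun hx 1
    have e2 : dp L x = 0 := congrFun hx 2
    rw [dp] at e1 e2
    fin_cases j
    · have e0' : x 0 = 0 := e0
      have hj' : L 1 * M 2 - L 2 * M 1 ≠ 0 := hj
      have x1 : x 1 = 0 := by
        apply (mul_eq_zero.1 _).resolve_left hj'
        linear_combination M 2 * e2 - L 2 * e1 - (M 2 * L 0 - L 2 * M 0) * e0'
      have x2 : x 2 = 0 := by
        apply (mul_eq_zero.1 _).resolve_left hj'
        linear_combination L 1 * e1 - M 1 * e2 - (L 1 * M 0 - M 1 * L 0) * e0'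
      exact ext_fin3 e0' x1 x2
    · have e0' : x 1 = 0 := e0
      have hj' : L 2 * M 0 - L 0 * M 2 ≠ 0 := hj
      have x0 : x 0 = 0 := by
        apply (mul_eq_zero.1 _).resolve_left hj'
        linear_combination L 2 * e1 - M 2 * e2 - (L 2 * M 1 - M 2 * L 1) * e0'
      have x2 : x 2 = 0 := by
        apply (mul_eq_zero.1 _).resolve_left hj'
        linear_combination M 0 * e2 - L 0 * e1 - (M 0 * L 1 - L 0 * M 1) * e0'
      exact ext_fin3 x0 e0' x2
    · have e0' : x 2 = 0 := e0
      have hj' : L 0 * M 1 - L 1 * M 0 ≠ 0 := hj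
      have x0 : x 0 = 0 := by
        apply (mul_eq_zero.1 _).resolve_left hj'
        linear_combination M 1 * e2 - L 1 * e1 - (M 1 * L 2 - L 1 * M 2) * e0'
      have x1 : x 1 = 0 := by
        apply (mul_eq_zero.1 _).resolve_left hj'
        linear_combination L 0 * e1 - M 0 * e2 - (L 0 * M 2 - M 0 * L 2) * e0'
      exact ext_fin3 x0 x1 e0')
  exact ⟨g, fun x => by
    rw [hg]
    exact ⟨rfl, rfl⟩⟩

theorem Eqv.lin' {A B : ι → Fin 3 → K} (g g' : (Fin 3 → K) ≃ₗ[K] (Fin 3 → K))
    (h : Eqv (fun i => g (A i)) (fun i => g' (B i))) : Eqv A B := by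
  refine (Eqv.lin A g).trans (h.trans ?_)
  have h1 := Eqv.lin (fun i => g' (B i)) g'.symm
  simp only [g'.symm_apply_apply] at h1
  exact h1

/-- arrangements in the union of two lines (of the dual plane) -/
theorem two_lines' [Finite ι] (h4 : Nat.card K = 4) {A B : ι → Fin 3 → K} (h : SameCl A B)
    (hA : Dist A) {L M : Fin 3 → K} (hLM : cp L M ≠ 0) (hL : ∀ k, dp L (A k) = 0 ↔ dp L (B k) = 0)
    (hM : ∀ k, dp M (A k) = 0 ↔ dp M (B k) = 0) (hor : ∀ k, dp M (A k) = 0 ∨ dp L (A k) = 0) :
    Eqv A B := by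
  obtain ⟨g, hg⟩ := exists_coordMap hLM
  apply Eqv.lin' g g
  have d1 : Dist (fun i => g (A i)) := (SameCl.lin A g).dist hA
  have d2 : Dist (fun i => g (B i)) := (SameCl.lin B g).dist (h.dist hA)
  refine two_lines h4 d1 d2 (fun k => ?_) (fun k => ?_) (fun k => ?_)
  · rw [(hg _).1, (hg _).1]
    exact hM k
  · rw [(hg _).2, (hg _).2]
    exact hL k
  · rw [(hg _).1, (hg _).2]
    exact hor k

/-- conjugation -/
def cj (w : Fin 3 → K) : Fin 3 → K := fun j => w j ^ 2

theorem f4_add (h4 : Nat.card K = 4) (x y : K) : (x + y) ^ 2 = x ^ 2 + y ^ 2 := by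
  linear_combination (x * y) * f4_two h4

theorem f4_sub (h4 : Nat.card K = 4) (x y : K) : (x - y) ^ 2 = x ^ 2 - y ^ 2 := by
  linear_combination (y ^ 2 - x * y) * f4_two h4

theorem f4_pow4 (h4 : Nat.card K = 4) (x : K) : (x ^ 2) ^ 2 = x := by
  rcases eq_or_ne x 0 with rfl | hx
  · simp
  · linear_combination x * f4_cube h4 hx

theorem dt_cj (h4 : Nat.card K = 4) (u v w : Fin 3 → K) :
    dt (cj u) (cj v) (cj w) = dt u v w ^ 2 := by
  simp only [dt, cj]
  rw [f4_add h4, f4_sub h4, mul_pow, mul_pow, mul_pow, f4_sub h4, f4_sub h4, f4_sub h4, mul_pow,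
    mul_pow, mul_pow, mul_pow, mul_pow, mul_pow]

theorem cj_cj (h4 : Nat.card K = 4) (u : Fin 3 → K) : cj (cj u) = u := by
  funext j
  exact f4_pow4 h4 _

theorem cj_smul (c : K) (u : Fin 3 → K) : cj (c • u) = c ^ 2 • cj u := by
  funext j
  simp only [cj, Pi.smul_apply, smul_eq_mul, mul_pow]

/-- patterns determine a vector up to conjugation -/
theorem pattern (h4 : Nat.card K = 4) {w w' : Fin 3 → K} (hw : w ≠ 0)
    (h0 : ∀ j, w j = 0 ↔ w' j = 0) (h1 : ∀ i j, w i = w j ↔ w' i = w' j) :
    (∃ c : K, c ≠ 0 ∧ w' = c • w) ∨ ∃ c : K, c ≠ 0 ∧ w' = c • cj w := by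
  have key : ∀ j a b : Fin 3, w j ≠ 0 → (∀ f g : Fin 3 → K, f j = g j → f a = g a → f b = g b →
      f = g) → (∃ c : K, c ≠ 0 ∧ w' = c • w) ∨ ∃ c : K, c ≠ 0 ∧ w' = c • cj w := by
    intro j a b hj hext
    have hj' : w' j ≠ 0 := fun h => hj ((h0 j).2 h)
    have e1 : ∀ (w : Fin 3 → K), w j ≠ 0 → ∀ i, w i / w j = 1 ↔ w i = w j := fun w hw i =>
      div_eq_one_iff_eq hw
    have e0 : ∀ (w : Fin 3 → K), w j ≠ 0 → ∀ i, w i / w j = 0 ↔ w i = 0 := by
      intro w hw i
      rw [div_eq_zero_iff, or_iff_left hw]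
    have e2 : ∀ (w : Fin 3 → K), w j ≠ 0 → (w a / w j = w b / w j ↔ w a = w b) := by
      intro w hw
      rw [div_left_inj' hw]
    have h := f4_pair h4 (x := w a / w j) (y := w b / w j) (x' := w' a / w' j) (y' := w' b / w' j)
      (by rw [e0 w hj, e0 w' hj', h0]) (by rw [e1 w hj, e1 w' hj', h1])
      (by rw [e0 w hj, e0 w' hj', h0]) (by rw [e1 w hj, e1 w' hj', h1])
      (by rw [e2 w hj, e2 w' hj', h1])
    rcases h with ⟨ha, hb⟩ | ⟨ha, hb⟩
    · left
      refine ⟨w' j / w j, div_ne_zero hj' hj, hext _ _ ?_ ?_ ?_⟩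
      · rw [Pi.smul_apply, smul_eq_mul, div_mul_cancel₀ _ hj]
      · rw [Pi.smul_apply, smul_eq_mul]
        rw [div_eq_div_iff hj' hj] at ha
        rw [div_mul_eq_mul_div, eq_div_iff hj]
        linear_combination ha
      · rw [Pi.smul_apply, smul_eq_mul]
        rw [div_eq_div_iff hj' hj] at hb
        rw [div_mul_eq_mul_div, eq_div_iff hj]
        linear_combination hb
    · right
      have hj2 : w j ^ 2 ≠ 0 := pow_ne_zero 2 hj
      refine ⟨w' j / w j ^ 2, div_ne_zero hj' hj2, hext _ _ ?_ ?_ ?_⟩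
      · rw [Pi.smul_apply, smul_eq_mul, cj, div_mul_cancel₀ _ hj2]
      · rw [Pi.smul_apply, smul_eq_mul, cj]
        rw [div_pow, div_eq_div_iff hj' hj2] at ha
        rw [div_mul_eq_mul_div, eq_div_iff hj2]
        linear_combination ha
      · rw [Pi.smul_apply, smul_eq_mul, cj]
        rw [div_pow, div_eq_div_iff hj' hj2] at hb
        rw [div_mul_eq_mul_div, eq_div_iff hj2]
        linear_combination hb
  by_cases w0 : w 0 = 0
  · by_cases w1 : w 1 = 0
    · have w2 : w 2 ≠ 0 := fun h => hw (ext_fin3 w0 w1 h)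
      exact key 2 0 1 w2 fun f g e2 e0 e1 => ext_fin3 e0 e1 e2
    · exact key 1 0 2 w1 fun f g e1 e0 e2 => ext_fin3 e0 e1 e2
  · exact key 0 1 2 w0 fun f g e0 e1 e2 => ext_fin3 e0 e1 e2

/-- the collinearity lemma -/
theorem real_point (h4 : Nat.card K = 4) {p w z : Fin 3 → K} {c : K} (hc : c ≠ 0)
    (hp : cj p = c • p) (h : dt p w z = 0 ↔ dt p w (cj z) = 0) :
    dt p w (cj w) = 0 ∨ dt p z (cj z) = 0 := by
  have e1 : c * dt p (cj w) (cj z) = dt p w z ^ 2 := by
    rw [← dt_cj h4, hp, dt_smul1]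
  have e2 : c * dt p (cj w) z = dt p w (cj z) ^ 2 := by
    rw [← dt_cj h4, hp, dt_smul1, cj_cj h4]
  have e3 : dt p w (cj w) * dt p z (cj z) =
      dt p w z * dt p (cj w) (cj z) - dt p w (cj z) * dt p (cj w) z := by
    simp only [dt]
    ring
  have e4 : c * (dt p w (cj w) * dt p z (cj z)) = dt p w z ^ 3 - dt p w (cj z) ^ 3 := by
    rw [e3]
    linear_combination dt p w z * e1 - dt p w (cj z) * e2
  have e5 : dt p w z ^ 3 = dt p w (cj z) ^ 3 := by
    by_cases h5 : dt p w z = 0
    · rw [h5, h.1 h5]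
    · rw [f4_cube h4 h5, f4_cube h4 fun h6 => h5 (h.2 h6)]
  rw [e5, sub_self] at e4
  exact mul_eq_zero.1 ((mul_eq_zero.1 e4).resolve_left hc)

/-- functionals with a common zero at each frame point -/
theorem frame_zero {l l' m : Fin 3 → K} (h : ∀ k, l k = 0 ∨ m k = 0)
    (hs : l 0 + l 1 + l 2 = 0 ∨ m 0 + m 1 + m 2 = 0) (h' : ∀ k, l' k = 0 ∨ m k = 0)
    (hs' : l' 0 + l' 1 + l' 2 = 0 ∨ m 0 + m 1 + m 2 = 0) (hm : m ≠ 0) (hl' : l' ≠ 0)
    {p : Fin 3 → K} (hp : dp l' p = 0) : dp l p = 0 := by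
  unfold dp at hp ⊢
  by_cases m0 : m 0 = 0
  · by_cases m1 : m 1 = 0
    · have m2 : m 2 ≠ 0 := fun h => hm (ext_fin3 m0 m1 h)
      have l2 := (h 2).resolve_right m2
      have l2' := (h' 2).resolve_right m2
      have hms : m 0 + m 1 + m 2 ≠ 0 := by rw [m0, m1, zero_add, zero_add]; exact m2
      have s := hs.resolve_right hms
      have s' := hs'.resolve_right hms
      have q0 : l' 0 ≠ 0 := by
        intro q
        apply hl'
        apply ext_fin3 q _ l2'
        have : l' 1 = 0 := by linear_combination s' - q - l2'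
        exact this
      have q : p 0 - p 1 = 0 := by
        apply (mul_eq_zero.1 _).resolve_left q0
        linear_combination hp - p 1 * s' - (p 2 - p 1) * l2'
      linear_combination l 0 * q + p 1 * s + (p 2 - p 1) * l2
    · by_cases m2 : m 2 = 0
      · have l1 := (h 1).resolve_right m1
        have l1' := (h' 1).resolve_right m1
        have hms : m 0 + m 1 + m 2 ≠ 0 := by rw [m0, m2, zero_add, add_zero]; exact m1
        have s := hs.resolve_right hms
        have s' := hs'.resolve_right hms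
        have q0 : l' 0 ≠ 0 := by
          intro q
          apply hl'
          apply ext_fin3 q l1'
          have : l' 2 = 0 := by linear_combination s' - q - l1'
          exact this
        have q : p 0 - p 2 = 0 := by
          apply (mul_eq_zero.1 _).resolve_left q0
          linear_combination hp - p 2 * s' - (p 1 - p 2) * l1'
        linear_combination l 0 * q + p 2 * s + (p 1 - p 2) * l1
      · have l1 := (h 1).resolve_right m1
        have l1' := (h' 1).resolve_right m1
        have l2 := (h 2).resolve_right m2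
        have l2' := (h' 2).resolve_right m2
        have q0 : l' 0 ≠ 0 := fun q => hl' (ext_fin3 q l1' l2')
        have q : p 0 = 0 := by
          apply (mul_eq_zero.1 _).resolve_left q0
          linear_combination hp - p 1 * l1' - p 2 * l2'
        linear_combination l 0 * q + p 1 * l1 + p 2 * l2
  · have l0 := (h 0).resolve_right m0
    have l0' := (h' 0).resolve_right m0
    by_cases m1 : m 1 = 0
    · by_cases m2 : m 2 = 0
      · have hms : m 0 + m 1 + m 2 ≠ 0 := by rw [m1, m2, add_zero, add_zero]; exact m0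
        have s := hs.resolve_right hms
        have s' := hs'.resolve_right hms
        have q0 : l' 1 ≠ 0 := by
          intro q
          apply hl'
          apply ext_fin3 l0' q
          have : l' 2 = 0 := by linear_combination s' - q - l0'
          exact this
        have q : p 1 - p 2 = 0 := by
          apply (mul_eq_zero.1 _).resolve_left q0
          linear_combination hp - p 2 * s' - (p 0 - p 2) * l0'
        linear_combination l 1 * q + p 2 * s + (p 0 - p 2) * l0
      · have l2 := (h 2).resolve_right m2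
        have l2' := (h' 2).resolve_right m2
        have q0 : l' 1 ≠ 0 := fun q => hl' (ext_fin3 l0' q l2')
        have q : p 1 = 0 := by
          apply (mul_eq_zero.1 _).resolve_left q0
          linear_combination hp - p 0 * l0' - p 2 * l2'
        linear_combination l 1 * q + p 0 * l0 + p 2 * l2
    · have l1 := (h 1).resolve_right m1
      have l1' := (h' 1).resolve_right m1
      have q0 : l' 2 ≠ 0 := fun q => hl' (ext_fin3 l0' l1' q)
      have q : p 2 = 0 := by
        apply (mul_eq_zero.1 _).resolve_left q0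
        linear_combination hp - p 0 * l0' - p 1 * l1'
      linear_combination l 2 * q + p 0 * l0 + p 1 * l1

theorem cp_ne_of_disj {l m : Fin 3 → K} (h : ∀ k, l k = 0 ∨ m k = 0) (hl : l ≠ 0) (hm : m ≠ 0) :
    cp l m ≠ 0 := by
  intro hcp
  have c0 : l 1 * m 2 - l 2 * m 1 = 0 := congrFun hcp 0
  have c1 : l 2 * m 0 - l 0 * m 2 = 0 := congrFun hcp 1
  have c2 : l 0 * m 1 - l 1 * m 0 = 0 := congrFun hcp 2
  by_cases l0 : l 0 = 0
  · by_cases l1 : l 1 = 0
    · have l2 : l 2 ≠ 0 := fun h => hl (ext_fin3 l0 l1 h)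
      have m2 := (h 2).resolve_left l2
      have m0 : m 0 = 0 := by
        apply (mul_eq_zero.1 _).resolve_left l2
        linear_combination c1 + l 0 * m2
      have m1 : m 1 = 0 := by
        apply (mul_eq_zero.1 _).resolve_left l2
        linear_combination -c0 + l 1 * m2
      exact hm (ext_fin3 m0 m1 m2)
    · have m1 := (h 1).resolve_left l1
      have m0 : m 0 = 0 := by
        apply (mul_eq_zero.1 _).resolve_left l1
        linear_combination -c2 + l 0 * m1
      have m2 : m 2 = 0 := by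
        apply (mul_eq_zero.1 _).resolve_left l1
        linear_combination c0 + l 2 * m1
      exact hm (ext_fin3 m0 m1 m2)
  · have m0 := (h 0).resolve_left l0
    have m1 : m 1 = 0 := by
      apply (mul_eq_zero.1 _).resolve_left l0
      linear_combination c2 + l 1 * m0
    have m2 : m 2 = 0 := by
      apply (mul_eq_zero.1 _).resolve_left l0
      linear_combination -c1 + l 2 * m0
    exact hm (ext_fin3 m0 m1 m2)

end

end Pool.Agent.H160.PG
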