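import Mathlib
import Pool.Agent.H160.PG.Four2

set_option autoImplicit false

/-! # The field with four elements: arrangements with a frame, final theorem -/

namespace Pool.Agent.H160.PG

open MvPolynomial Pool.Agent.H160.TF

section

variable {K : Type} [Field K] {ι : Type}

theorem cp_dep {w : Fin 3 → K} (hw : w ≠ 0) {v : Fin 3 → K} (h : cp w v = 0) :
    ∃ c : K, v = c • w := by
  have c0 : w 1 * v 2 - w 2 * v 1 = 0 := congrFun h 0
  have c1 : w 2 * v 0 - w 0 * v 2 = 0 := congrFun h 1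
  have c2 : w 0 * v 1 - w 1 * v 0 = 0 := congrFun h 2
  by_cases w0 : w 0 = 0
  · by_cases w1 : w 1 = 0
    · have w2 : w 2 ≠ 0 := fun h => hw (ext_fin3 w0 w1 h)
      refine ⟨v 2 / w 2, ext_fin3 ?_ ?_ ?_⟩
      · rw [Pi.smul_apply, smul_eq_mul, div_mul_eq_mul_div, eq_div_iff w2]
        linear_combination c1
      · rw [Pi.smul_apply, smul_eq_mul, div_mul_eq_mul_div, eq_div_iff w2]
        linear_combination -c0
      · rw [Pi.smul_apply, smul_eq_mul, div_mul_cancel₀ _ w2]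
    · refine ⟨v 1 / w 1, ext_fin3 ?_ ?_ ?_⟩
      · rw [Pi.smul_apply, smul_eq_mul, div_mul_eq_mul_div, eq_div_iff w1]
        linear_combination -c2
      · rw [Pi.smul_apply, smul_eq_mul, div_mul_cancel₀ _ w1]
      · rw [Pi.smul_apply, smul_eq_mul, div_mul_eq_mul_div, eq_div_iff w1]
        linear_combination c0
  · refine ⟨v 0 / w 0, ext_fin3 ?_ ?_ ?_⟩
    · rw [Pi.smul_apply, smul_eq_mul, div_mul_cancel₀ _ w0]
    · rw [Pi.smul_apply, smul_eq_mul, div_mul_eq_mul_div, eq_div_iff w0]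
      linear_combination c2
    · rw [Pi.smul_apply, smul_eq_mul, div_mul_eq_mul_div, eq_div_iff w0]
      linear_combination -c1

theorem cj_ne {w : Fin 3 → K} (hw : w ≠ 0) : cj w ≠ 0 := by
  intro h
  apply hw
  funext j
  exact pow_eq_zero_iff (two_ne_zero) |>.1 (congrFun h j)

/-- arrangements containing the standard frame -/
theorem four_frame [Finite ι] (h4 : Nat.card K = 4) {A B : ι → Fin 3 → K} (hcl : SameCl A B)
    (hA : Dist A) {β : Fin 3 → ι} {i4 : ι} {c c' : Fin 3 → K} (hc : ∀ k, c k ≠ 0)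
    (hc' : ∀ k, c' k ≠ 0) (hAβ : ∀ k, A (β k) = c k • (Pi.single k 1 : Fin 3 → K))
    (hBβ : ∀ k, B (β k) = c' k • (Pi.single k 1 : Fin 3 → K)) (hA4 : A i4 = fun _ => 1)
    (hB4 : B i4 = fun _ => 1) : Eqv A B := by
  classical
  have hB : Dist B := hcl.dist hA
  have ht := tri hcl hA
  -- determinants with the frame
  have d01 : ∀ w : Fin 3 → K, dt (Pi.single 0 1) (Pi.single 1 1) w = w 2 := by
    intro w
    simp [dt]
  have d02 : ∀ w : Fin 3 → K, dt (Pi.single 0 1) (Pi.single 2 1) w = -w 1 := by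
    intro w
    simp [dt]
  have d12 : ∀ w : Fin 3 → K, dt (Pi.single 1 1) (Pi.single 2 1) w = w 0 := by
    intro w
    simp [dt]
  have d04 : ∀ w : Fin 3 → K, dt (Pi.single 0 1) (fun _ => 1) w = w 2 - w 1 := by
    intro w
    simp [dt]
  have d14 : ∀ w : Fin 3 → K, dt (Pi.single 1 1) (fun _ => 1) w = w 0 - w 2 := by
    intro w
    simp [dt]
  have d24 : ∀ w : Fin 3 → K, dt (Pi.single 2 1) (fun _ => 1) w = w 1 - w 0 := by
    intro w
    simp [dt]
  have hz : ∀ k, (A k 0 = 0 ↔ B k 0 = 0) ∧ (A k 1 = 0 ↔ B k 1 = 0) ∧ (A k 2 = 0 ↔ B k 2 = 0) := by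
    intro k
    have h1 := ht (β 0) (β 1) k
    have h2 := ht (β 0) (β 2) k
    have h3 := ht (β 1) (β 2) k
    rw [hAβ, hAβ, hBβ, hBβ, dt_smul1, dt_smul2, dt_smul1, dt_smul2, d01, d01, mul_eq_zero,
      mul_eq_zero, or_iff_right (hc _), or_iff_right (hc _), mul_eq_zero, mul_eq_zero,
      or_iff_right (hc' _), or_iff_right (hc' _)] at h1
    rw [hAβ, hAβ, hBβ, hBβ, dt_smul1, dt_smul2, dt_smul1, dt_smul2, d02, d02, mul_eq_zero,
      mul_eq_zero, or_iff_right (hc _), or_iff_right (hc _), mul_eq_zero, mul_eq_zero,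
      or_iff_right (hc' _), or_iff_right (hc' _), neg_eq_zero, neg_eq_zero] at h2
    rw [hAβ, hAβ, hBβ, hBβ, dt_smul1, dt_smul2, dt_smul1, dt_smul2, d12, d12, mul_eq_zero,
      mul_eq_zero, or_iff_right (hc _), or_iff_right (hc _), mul_eq_zero, mul_eq_zero,
      or_iff_right (hc' _), or_iff_right (hc' _)] at h3
    exact ⟨h3, h2, h1⟩
  have he : ∀ k, (A k 2 = A k 1 ↔ B k 2 = B k 1) ∧ (A k 0 = A k 2 ↔ B k 0 = B k 2) ∧
      (A k 1 = A k 0 ↔ B k 1 = B k 0) := by
    intro k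
    have h1 := ht (β 0) i4 k
    have h2 := ht (β 1) i4 k
    have h3 := ht (β 2) i4 k
    rw [hAβ, hA4, hBβ, hB4, dt_smul1, dt_smul1, d04, d04, mul_eq_zero, or_iff_right (hc _),
      mul_eq_zero, or_iff_right (hc' _), sub_eq_zero, sub_eq_zero] at h1
    rw [hAβ, hA4, hBβ, hB4, dt_smul1, dt_smul1, d14, d14, mul_eq_zero, or_iff_right (hc _),
      mul_eq_zero, or_iff_right (hc' _), sub_eq_zero, sub_eq_zero] at h2
    rw [hAβ, hA4, hBβ, hB4, dt_smul1, dt_smul1, d24, d24, mul_eq_zero, or_iff_right (hc _),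
      mul_eq_zero, or_iff_right (hc' _), sub_eq_zero, sub_eq_zero] at h3
    exact ⟨h1, h2, h3⟩
  have hp : ∀ k, (∃ a : K, a ≠ 0 ∧ B k = a • A k) ∨ ∃ a : K, a ≠ 0 ∧ B k = a • cj (A k) := by
    intro k
    apply pattern h4 (hA.2 k)
    · intro j
      fin_cases j
      · exact (hz k).1
      · exact (hz k).2.1
      · exact (hz k).2.2
    · intro i j
      fin_cases i <;> fin_cases j
      · exact Iff.rfl.trans ⟨fun _ => rfl, fun _ => rfl⟩
      · exact eq_comm.trans ((he k).2.2.trans eq_comm)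
      · exact (he k).2.1
      · exact (he k).2.2
      · exact Iff.rfl.trans ⟨fun _ => rfl, fun _ => rfl⟩
      · exact eq_comm.trans ((he k).1.trans eq_comm)
      · exact eq_comm.trans ((he k).2.1.trans eq_comm)
      · exact (he k).1
      · exact Iff.rfl.trans ⟨fun _ => rfl, fun _ => rfl⟩
  by_cases hT : ∀ k, ∃ a : K, a ≠ 0 ∧ B k = a • A k
  · exact Eqv.of_set (fun k => ⟨k, hT k⟩) fun k => ⟨k, hT k⟩
  by_cases hF : ∀ k, ∃ a : K, a ≠ 0 ∧ B k = a • cj (A k)
  · -- conjugate arrangement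
    have hf : Finite K := Nat.finite_of_card_ne_zero (by omega)
    have hinj : Function.Injective (fun x : K => x ^ 2) := by
      intro x y h
      have h' : x ^ 2 = y ^ 2 := h
      rw [← f4_pow4 h4 x, ← f4_pow4 h4 y, h']
    let τ : K ≃+* K :=
      { Equiv.ofBijective (fun x : K => x ^ 2) (Finite.injective_iff_bijective.1 hinj) with
        map_mul' := fun x y => mul_pow x y 2
        map_add' := fun x y => f4_add h4 x y }
    have h1 : Eqv A (fun i => cj (A i)) := Eqv.conj A τ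
    exact h1.trans (Eqv.of_set (fun k => ⟨k, hF k⟩) fun k => ⟨k, hF k⟩)
  push Not at hT hF
  obtain ⟨j, hj⟩ := hT
  obtain ⟨i, hi⟩ := hF
  have hjF : ∃ a : K, a ≠ 0 ∧ B j = a • cj (A j) := (hp j).resolve_left (by
    rintro ⟨a, ha, h⟩
    exact hj a ha h)
  have hiT : ∃ a : K, a ≠ 0 ∧ B i = a • A i := (hp i).resolve_right (by
    rintro ⟨a, ha, h⟩
    exact hi a ha h)
  -- the lines joining nonreal points to their conjugates
  set lw : (Fin 3 → K) → Fin 3 → K := fun w => cp w (cj w) with hlw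
  have hlwd : ∀ p w : Fin 3 → K, dt p w (cj w) = dp (lw w) p := fun p w => dt_cp p w (cj w)
  have nonreal_F : ∀ k, (∃ a : K, a ≠ 0 ∧ B k = a • A k) →
      (∀ a : K, a ≠ 0 → B k ≠ a • cj (A k)) → lw (A k) ≠ 0 := by
    rintro k ⟨a, ha, h⟩ hk h0
    obtain ⟨b, hb⟩ := cp_dep (hA.2 k) h0
    have hb0 : b ≠ 0 := by
      rintro rfl
      rw [zero_smul] at hb
      exact cj_ne (hA.2 k) hb
    apply hk (a * b⁻¹) (mul_ne_zero ha (inv_ne_zero hb0))
    rw [hb, smul_smul, mul_assoc, inv_mul_cancel₀ hb0, mul_one, h]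
  have nonreal_T : ∀ k, (∃ a : K, a ≠ 0 ∧ B k = a • cj (A k)) →
      (∀ a : K, a ≠ 0 → B k ≠ a • A k) → lw (A k) ≠ 0 := by
    rintro k ⟨a, ha, h⟩ hk h0
    obtain ⟨b, hb⟩ := cp_dep (hA.2 k) h0
    have hb0 : b ≠ 0 := by
      rintro rfl
      rw [zero_smul] at hb
      exact cj_ne (hA.2 k) hb
    apply hk (a * b) (mul_ne_zero ha hb0)
    rw [h, hb, smul_smul]
  -- real points lie on one of the two lines
  have real : ∀ i j, (∃ a : K, a ≠ 0 ∧ B i = a • A i) → (∃ a : K, a ≠ 0 ∧ B j = a • cj (A j)) →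
      ∀ k, (∃ a : K, a ≠ 0 ∧ B k = a • A k) → (∃ a : K, a ≠ 0 ∧ B k = a • cj (A k)) →
      dp (lw (A i)) (A k) = 0 ∨ dp (lw (A j)) (A k) = 0 := by
    rintro i j ⟨a, ha, hBi⟩ ⟨b, hb, hBj⟩ k ⟨x, hx, hk1⟩ ⟨y, hy, hk2⟩
    rw [← hlwd, ← hlwd]
    have e1 : cj (A k) = (y⁻¹ * x) • A k := by
      rw [mul_smul, ← hk1, hk2, smul_smul, inv_mul_cancel₀ hy, one_smul]
    refine real_point h4 (mul_ne_zero (inv_ne_zero hy) hx) e1 ?_
    rw [ht k i j, hk1, hBi, hBj, dt_smul1, dt_smul2, dt_smul3, mul_eq_zero, or_iff_right hx,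
      mul_eq_zero, or_iff_right ha, mul_eq_zero, or_iff_right hb]
  -- frame points
  have fT : ∀ k, (∃ a : K, a ≠ 0 ∧ B (β k) = a • A (β k)) ∧
      ∃ a : K, a ≠ 0 ∧ B (β k) = a • cj (A (β k)) := by
    intro k
    constructor
    · refine ⟨c' k * (c k)⁻¹, mul_ne_zero (hc' k) (inv_ne_zero (hc k)), ?_⟩
      rw [hBβ, hAβ, smul_smul, mul_assoc, inv_mul_cancel₀ (hc k), mul_one]
    · refine ⟨c' k * (c k ^ 2)⁻¹, mul_ne_zero (hc' k) (inv_ne_zero (pow_ne_zero 2 (hc k))), ?_⟩
      rw [hBβ, hAβ, cj_smul, smul_smul, mul_assoc, inv_mul_cancel₀ (pow_ne_zero 2 (hc k)), mul_one]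
      congr 1
      funext j
      rw [cj, Pi.single_apply]
      split_ifs <;> simp
  have f4T : (∃ a : K, a ≠ 0 ∧ B i4 = a • A i4) ∧ ∃ a : K, a ≠ 0 ∧ B i4 = a • cj (A i4) := by
    refine ⟨⟨1, one_ne_zero, by rw [hB4, hA4, one_smul]⟩, ⟨1, one_ne_zero, ?_⟩⟩
    rw [hB4, hA4, one_smul]
    funext j
    simp [cj]
  have frame : ∀ i j, (∃ a : K, a ≠ 0 ∧ B i = a • A i) → (∃ a : K, a ≠ 0 ∧ B j = a • cj (A j)) →
      (∀ k, lw (A i) k = 0 ∨ lw (A j) k = 0) ∧
      (lw (A i) 0 + lw (A i) 1 + lw (A i) 2 = 0 ∨ lw (A j) 0 + lw (A j) 1 + lw (A j) 2 = 0) := by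
    intro i j hi hj
    have dps : ∀ (L : Fin 3 → K) (k : Fin 3), dp L (Pi.single k 1) = L k := by
      intro L k
      fin_cases k <;> simp [dp]
    constructor
    · intro k
      have h1 := real i j hi hj (β k) (fT k).1 (fT k).2
      have e : ∀ L : Fin 3 → K, dp L (A (β k)) = c k * L k := by
        intro L
        rw [hAβ]
        have : dp L (c k • (Pi.single k 1 : Fin 3 → K)) = c k * dp L (Pi.single k 1) := by
          simp only [dp, Pi.smul_apply, smul_eq_mul]
          ring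
        rw [this, dps]
      rw [e, e, mul_eq_zero, or_iff_right (hc k), mul_eq_zero, or_iff_right (hc k)] at h1
      exact h1
    · have h1 := real i j hi hj i4 f4T.1 f4T.2
      rw [hA4] at h1
      simpa [dp] using h1
  have nwi := nonreal_F i hiT hi
  have nwj := nonreal_T j hjF hj
  obtain ⟨fij, sij⟩ := frame i j hiT hjF
  -- all points lie on one of the two lines
  have all : ∀ k, dp (lw (A i)) (A k) = 0 ∨ dp (lw (A j)) (A k) = 0 := by
    intro k
    have self : dp (lw (A k)) (A k) = 0 := by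
      rw [← hlwd]
      exact dt_self _ _
    by_cases kT : ∃ a : K, a ≠ 0 ∧ B k = a • A k
    · by_cases kF : ∃ a : K, a ≠ 0 ∧ B k = a • cj (A k)
      · exact real i j hiT hjF k kT kF
      · left
        have hk : ∀ a : K, a ≠ 0 → B k ≠ a • cj (A k) := fun a ha h => kF ⟨a, ha, h⟩
        obtain ⟨f1, s1⟩ := frame k j kT hjF
        exact frame_zero fij sij f1 s1 nwj (nonreal_F k kT hk) self
    · right
      have kF := (hp k).resolve_left kT
      have hk : ∀ a : K, a ≠ 0 → B k ≠ a • A k := fun a ha h => kT ⟨a, ha, h⟩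
      obtain ⟨f1, s1⟩ := frame i k hiT kF
      exact frame_zero (fun x => (fij x).symm) sij.symm (fun x => (f1 x).symm) s1.symm nwi
        (nonreal_T k kF hk) self
  -- the lines are real
  have lreal : ∀ w k, dp (lw w) (A k) = 0 ↔ dp (lw w) (B k) = 0 := by
    intro w k
    rw [← hlwd, ← hlwd]
    rcases hp k with ⟨a, ha, h⟩ | ⟨a, ha, h⟩
    · rw [h, dt_smul1, mul_eq_zero, or_iff_right ha]
    · rw [h, dt_smul1, mul_eq_zero, or_iff_right ha]
      have h1 : dt (cj (A k)) w (cj w) = -(dt (A k) w (cj w)) ^ 2 := by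
        rw [← dt_cj h4, cj_cj h4]
        simp only [dt]
        ring
      rw [h1, neg_eq_zero, pow_eq_zero_iff two_ne_zero]
  exact two_lines' h4 hcl hA (cp_ne_of_disj (fun k => (fij k).symm) nwj nwi) (lreal _) (lreal _) all

/-- the linear map with given coordinate functions -/
def dpMap (L0 L1 L2 : Fin 3 → K) : (Fin 3 → K) →ₗ[K] (Fin 3 → K) where
  toFun x := ![dp L0 x, dp L1 x, dp L2 x]
  map_add' x y := by
    have h : ∀ L : Fin 3 → K, dp L (x + y) = dp L x + dp L y := by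
      intro L
      simp only [dp, Pi.add_apply]
      ring
    exact ext_fin3 (h L0) (h L1) (h L2)
  map_smul' a x := by
    have h : ∀ L : Fin 3 → K, dp L (a • x) = a * dp L x := by
      intro L
      simp only [dp, Pi.smul_apply, smul_eq_mul]
      ring
    exact ext_fin3 (h L0) (h L1) (h L2)

theorem frame_norm {u v w z : Fin 3 → K} (hD : dt u v w ≠ 0) (h0 : dt v w z ≠ 0)
    (h1 : dt w u z ≠ 0) (h2 : dt u v z ≠ 0) :
    ∃ (g : (Fin 3 → K) ≃ₗ[K] (Fin 3 → K)) (c : Fin 3 → K), (∀ k, c k ≠ 0) ∧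
      g u = c 0 • (Pi.single 0 1 : Fin 3 → K) ∧ g v = c 1 • (Pi.single 1 1 : Fin 3 → K) ∧
      g w = c 2 • (Pi.single 2 1 : Fin 3 → K) ∧ g z = fun _ => 1 := by
  have dsm : ∀ (c : K) (L x : Fin 3 → K), dp (c • L) x = c * dp L x := by
    intro c L x
    simp only [dp, Pi.smul_apply, smul_eq_mul]
    ring
  have e : ∀ u v x : Fin 3 → K, dp (cp u v) x = dt u v x := by
    intro u v x
    simp only [dp, cp_0, cp_1, cp_2, dt]
    ring
  obtain ⟨g, hg⟩ := equiv_of_inj (dpMap ((dt v w z)⁻¹ • cp v w) ((dt w u z)⁻¹ • cp w u)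
    ((dt u v z)⁻¹ • cp u v)) (by
      intro x hx
      have e0 : dp ((dt v w z)⁻¹ • cp v w) x = 0 := congrFun hx 0
      have e1 : dp ((dt w u z)⁻¹ • cp w u) x = 0 := congrFun hx 1
      have e2 : dp ((dt u v z)⁻¹ • cp u v) x = 0 := congrFun hx 2
      rw [dsm, e, mul_eq_zero, or_iff_right (inv_ne_zero h0)] at e0
      rw [dsm, e, mul_eq_zero, or_iff_right (inv_ne_zero h1)] at e1
      rw [dsm, e, mul_eq_zero, or_iff_right (inv_ne_zero h2)] at e2
      have key0 : dt u v w * x 0 = dt v w x * u 0 + dt w u x * v 0 + dt u v x * w 0 := by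
        simp only [dt]
        ring
      have key1 : dt u v w * x 1 = dt v w x * u 1 + dt w u x * v 1 + dt u v x * w 1 := by
        simp only [dt]
        ring
      have key2 : dt u v w * x 2 = dt v w x * u 2 + dt w u x * v 2 + dt u v x * w 2 := by
        simp only [dt]
        ring
      rw [e0, e1, e2, zero_mul, zero_mul, zero_mul, add_zero, add_zero, mul_eq_zero,
        or_iff_right hD] at key0 key1 key2
      exact ext_fin3 key0 key1 key2)
  have g0 : ∀ x, g x 0 = (dt v w z)⁻¹ * dt v w x := by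
    intro x
    have h5 : g x 0 = dp ((dt v w z)⁻¹ • cp v w) x := by
      rw [hg]
      rfl
    rw [h5, dsm, e]
  have g1 : ∀ x, g x 1 = (dt w u z)⁻¹ * dt w u x := by
    intro x
    have h5 : g x 1 = dp ((dt w u z)⁻¹ • cp w u) x := by
      rw [hg]
      rfl
    rw [h5, dsm, e]
  have g2 : ∀ x, g x 2 = (dt u v z)⁻¹ * dt u v x := by
    intro x
    have h5 : g x 2 = dp ((dt u v z)⁻¹ • cp u v) x := by
      rw [hg]
      rfl
    rw [h5, dsm, e]
  have k1 : dt v w u = dt u v w := by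
    simp only [dt]
    ring
  have k2 : dt w u v = dt u v w := by
    simp only [dt]
    ring
  have z1 : ∀ a b : Fin 3 → K, dt a b a = 0 := by
    intro a b
    simp only [dt]
    ring
  have z2 : ∀ a b : Fin 3 → K, dt a b b = 0 := by
    intro a b
    simp only [dt]
    ring
  refine ⟨g, ![(dt v w z)⁻¹ * dt u v w, (dt w u z)⁻¹ * dt u v w, (dt u v z)⁻¹ * dt u v w], ?_,
    ?_, ?_, ?_, ?_⟩
  · intro k
    fin_cases k
    · exact mul_ne_zero (inv_ne_zero h0) hD
    · exact mul_ne_zero (inv_ne_zero h1) hD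
    · exact mul_ne_zero (inv_ne_zero h2) hD
  · apply ext_fin3
    · rw [g0, k1]
      simp
    · rw [g1, z2]
      simp
    · rw [g2, z1]
      simp
  · apply ext_fin3
    · rw [g0, z1]
      simp
    · rw [g1, k2]
      simp
    · rw [g2, z2]
      simp
  · apply ext_fin3
    · rw [g0, z2]
      simp
    · rw [g1, z1]
      simp
    · rw [g2]
      simp
  · apply ext_fin3
    · rw [g0, inv_mul_cancel₀ h0]
    · rw [g1, inv_mul_cancel₀ h1]
    · rw [g2, inv_mul_cancel₀ h2]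

/-- **the field with four elements in dimension three** -/
theorem Eqv.of_four [Finite ι] (h4 : Nat.card K = 4) {A B : ι → Fin 3 → K} (hcl : SameCl A B)
    (hA : Dist A) (hspan : Submodule.span K (Set.range A) = ⊤) : Eqv A B := by
  classical
  obtain ⟨β, hβ⟩ := exists_norm hspan
  obtain ⟨gA, hgA⟩ := exists_coord hβ
  obtain ⟨gB, hgB⟩ := exists_coord (hcl.li hβ)
  apply Eqv.lin' gA gB
  have hcl1 : SameCl (fun i => gA (A i)) (fun i => gB (B i)) :=
    ((SameCl.lin A gA).symm.trans hcl).trans (SameCl.lin B gB)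
  have hA1 : Dist (fun i => gA (A i)) := (SameCl.lin A gA).dist hA
  have hgA' : ∀ k, (fun i => gA (A i)) (β k) = Pi.single k 1 := hgA
  have hgB' : ∀ k, (fun i => gB (B i)) (β k) = Pi.single k 1 := hgB
  generalize (fun i => gA (A i)) = A1 at hcl1 hA1 hgA' ⊢
  generalize (fun i => gB (B i)) = B1 at hcl1 hgB' ⊢
  have ht := tri hcl1 hA1
  by_cases hfr : ∃ i1 i2 i3 i4, dt (A1 i1) (A1 i2) (A1 i3) ≠ 0 ∧ dt (A1 i2) (A1 i3) (A1 i4) ≠ 0 ∧
      dt (A1 i3) (A1 i1) (A1 i4) ≠ 0 ∧ dt (A1 i1) (A1 i2) (A1 i4) ≠ 0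
  · obtain ⟨i1, i2, i3, i4, f1, f2, f3, f4⟩ := hfr
    obtain ⟨g, c, hc, q1, q2, q3, q4⟩ := frame_norm f1 f2 f3 f4
    obtain ⟨g', c', hc', q1', q2', q3', q4'⟩ := frame_norm (fun h => f1 ((ht _ _ _).2 h))
      (fun h => f2 ((ht _ _ _).2 h)) (fun h => f3 ((ht _ _ _).2 h)) (fun h => f4 ((ht _ _ _).2 h))
    apply Eqv.lin' g g'
    refine four_frame h4 (((SameCl.lin A1 g).symm.trans hcl1).trans (SameCl.lin B1 g'))
      ((SameCl.lin A1 g).dist hA1) (β := ![i1, i2, i3]) (i4 := i4) hc hc' ?_ ?_ q4 q4'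
    · intro k
      fin_cases k
      · exact q1
      · exact q2
      · exact q3
    · intro k
      fin_cases k
      · exact q1'
      · exact q2'
      · exact q3'
  · push Not at hfr
    have hz := hcl1.zero_iff hgA' hgB'
    have d01 : ∀ w : Fin 3 → K, dt (Pi.single 0 1) (Pi.single 1 1) w = w 2 := by
      intro w
      simp [dt]
    have d20 : ∀ w : Fin 3 → K, dt (Pi.single 2 1) (Pi.single 0 1) w = w 1 := by
      intro w
      simp [dt]
    have d12 : ∀ w : Fin 3 → K, dt (Pi.single 1 1) (Pi.single 2 1) w = w 0 := by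
      intro w
      simp [dt]
    have full : ∀ k, A1 k 0 ≠ 0 → A1 k 1 ≠ 0 → A1 k 2 = 0 := by
      intro k h0 h1
      have h5 := hfr (β 0) (β 1) (β 2) k
      rw [hgA', hgA', hgA', d01, d12, d20, d01] at h5
      exact h5 (by simp) h0 h1
    have dps : ∀ (k : Fin 3) (x : Fin 3 → K), dp (Pi.single k 1) x = x k := by
      intro k x
      fin_cases k <;> simp [dp]
    have claim : (∀ k, A1 k 0 = 0 ∨ A1 k 1 = 0) ∨ ∀ k, A1 k 0 = 0 ∨ A1 k 2 = 0 := by
      by_contra hcon
      rw [not_or] at hcon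
      obtain ⟨c1, c2⟩ := hcon
      push Not at c1 c2
      obtain ⟨k, a0, a1⟩ := c1
      obtain ⟨k', b0, b2⟩ := c2
      have a2 := full k a0 a1
      have b1 : A1 k' 1 = 0 := by
        by_contra h
        exact b2 (full k' b0 h)
      have h5 := hfr (β 1) (β 2) k k'
      rw [hgA', hgA', d12, d12] at h5
      have e1 : dt (Pi.single 2 1) (A1 k) (A1 k') ≠ 0 := by
        have : dt (Pi.single 2 1) (A1 k) (A1 k') = -(A1 k 1 * A1 k' 0) := by
          simp [dt, b1]
        rw [this]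
        exact neg_ne_zero.2 (mul_ne_zero a1 b0)
      have e2 : dt (A1 k) (Pi.single 1 1) (A1 k') ≠ 0 := by
        have : dt (A1 k) (Pi.single 1 1) (A1 k') = A1 k 0 * A1 k' 2 := by
          simp [dt, a2]
        rw [this]
        exact mul_ne_zero a0 b2
      exact b0 (h5 a0 e1 e2)
    rcases claim with h | h
    · refine two_lines' h4 hcl1 hA1 (L := Pi.single 1 1) (M := Pi.single 0 1) ?_ ?_ ?_ ?_
      · intro h5
        have := congrFun h5 2
        simp [cp_2] at this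
      · intro k
        rw [dps, dps]
        exact hz k 1
      · intro k
        rw [dps, dps]
        exact hz k 0
      · intro k
        rw [dps, dps]
        exact h k
    · refine two_lines' h4 hcl1 hA1 (L := Pi.single 2 1) (M := Pi.single 0 1) ?_ ?_ ?_ ?_
      · intro h5
        have := congrFun h5 1
        simp [cp_1] at this
      · intro k
        rw [dps, dps]
        exact hz k 2
      · intro k
        rw [dps, dps]
        exact hz k 0
      · intro k
        rw [dps, dps]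
        exact h k

end

end Pool.Agent.H160.PG
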