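import Mathlib
import Pool.Agent.H160.PG.Iso

set_option autoImplicit false

/-! # Parameters -/

namespace Pool.Agent.H160.PG

open MvPolynomial Pool.Agent.H160.TF

section

variable {K : Type} [Field K]

theorem bad_big (h2 : (2 : K) ≠ 0) (h3 : (3 : K) ≠ 0) (r : ℕ) : Bad K (r + 3) := by
  have h36 : (36 : K) ≠ 0 := by
    have h : (36 : K) = 2 * 2 * (3 * 3) := by norm_num
    rw [h]
    exact mul_ne_zero (mul_ne_zero h2 h2) (mul_ne_zero h3 h3)
  have i4 : ∀ f : Fin 4 → K, f 0 ≠ f 1 → f 0 ≠ f 2 → f 0 ≠ f 3 → f 1 ≠ f 2 → f 1 ≠ f 3 →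
      f 2 ≠ f 3 → Function.Injective f := by
    intro f h01 h02 h03 h12 h13 h23 a b h
    fin_cases a <;> fin_cases b <;> first | rfl | exact absurd h ‹_› | exact absurd h.symm ‹_›
  have i3 : ∀ f : Fin 3 → K, f 0 ≠ f 1 → f 0 ≠ f 2 → f 1 ≠ f 2 → Function.Injective f := by
    intro f h01 h02 h12 a b h
    fin_cases a <;> fin_cases b <;> first | rfl | exact absurd h ‹_› | exact absurd h.symm ‹_›
  have i2 : ∀ f : Fin 2 → K, f 0 ≠ f 1 → Function.Injective f := by
    intro f h01 a b h
    fin_cases a <;> fin_cases b <;> first | rfl | exact absurd h ‹_› | exact absurd h.symm ‹_›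
  have ne : ∀ (k x y : K), k * (x - y) = 36 → x ≠ y := by
    intro k x y hk h
    apply h36
    rw [← hk, h, sub_self, mul_zero]
  refine bad_of_params (T := Fin 4) (I := Fin 3) (J := Fin 2) r (e := ![-1, 0, 1, 2])
    (ε := ![1, -2, 4, -8]) (i4 _ ?_ ?_ ?_ ?_ ?_ ?_) (i4 _ ?_ ?_ ?_ ?_ ?_ ?_) ?_ (c := ![0, 1, 2])
    (γ := ![-2, 4, -8]) (i3 _ ?_ ?_ ?_) (i3 _ ?_ ?_ ?_) ?_ (b := ![0, 1]) (μ := ![1, -2])
    (i2 _ ?_) (i2 _ ?_) ?_ (fun i j => ![![1, 0], ![2, 1], ![3, 2]] i j) ?_ ?_ 0 0
    (by simp) (by simp) (by simp) (by simp)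
  · exact ne (-36) (-1) 0 (by norm_num)
  · exact ne (-18) (-1) 1 (by norm_num)
  · exact ne (-12) (-1) 2 (by norm_num)
  · exact ne (-36) 0 1 (by norm_num)
  · exact ne (-18) 0 2 (by norm_num)
  · exact ne (-36) 1 2 (by norm_num)
  · exact ne 12 1 (-2) (by norm_num)
  · exact ne (-12) 1 4 (by norm_num)
  · exact ne 4 1 (-8) (by norm_num)
  · exact ne (-6) (-2) 4 (by norm_num)
  · exact ne 6 (-2) (-8) (by norm_num)
  · exact ne 3 4 (-8) (by norm_num)
  · intro t
    fin_cases t
    · exact ne 36 1 0 (by norm_num)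
    · exact ne (-18) (-2) 0 (by norm_num)
    · exact ne 9 4 0 (by norm_num)
    · intro h
      have h8 : (2 : K) * 2 * 2 = 0 := by
        have h' : (-8 : K) = 0 := h
        linear_combination (-1 : K) * h'
      exact mul_ne_zero (mul_ne_zero h2 h2) h2 h8
  · exact ne (-36) 0 1 (by norm_num)
  · exact ne (-18) 0 2 (by norm_num)
  · exact ne (-36) 1 2 (by norm_num)
  · exact ne (-6) (-2) 4 (by norm_num)
  · exact ne 6 (-2) (-8) (by norm_num)
  · exact ne 3 4 (-8) (by norm_num)
  · intro t
    fin_cases t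
    · exact ne (-18) (-2) 0 (by norm_num)
    · exact ne 9 4 0 (by norm_num)
    · intro h
      have h8 : (2 : K) * 2 * 2 = 0 := by
        have h' : (-8 : K) = 0 := h
        linear_combination (-1 : K) * h'
      exact mul_ne_zero (mul_ne_zero h2 h2) h2 h8
  · exact ne (-36) 0 1 (by norm_num)
  · exact ne 12 1 (-2) (by norm_num)
  · intro t
    fin_cases t
    · exact ne 36 1 0 (by norm_num)
    · exact ne (-18) (-2) 0 (by norm_num)
  · intro i j
    fin_cases i <;> fin_cases j
    · show (0 : K) = 0 + 0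
      norm_num
    · show (0 : K) = 1 + -1
      norm_num
    · show (1 : K) = 0 + 1
      norm_num
    · show (1 : K) = 1 + 0
      norm_num
    · show (2 : K) = 0 + 2
      norm_num
    · show (2 : K) = 1 + 1
      norm_num
  · intro i j
    fin_cases i <;> fin_cases j
    · show (-2 : K) = -2 * 1
      norm_num
    · show (-2 : K) = 1 * -2
      norm_num
    · show (4 : K) = 4 * 1
      norm_num
    · show (4 : K) = -2 * -2
      norm_num
    · show (-8 : K) = -8 * 1
      norm_num
    · show (-8 : K) = 4 * -2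
      norm_num

omit [Field K] in
theorem exists_notMem_list (hK : Infinite K ∨ 8 ≤ Nat.card K) (s : List K) (hs : s.length ≤ 7) :
    ∃ v, v ∉ s := by
  classical
  have h1 : s.toFinset.card ≤ 7 := (List.toFinset_card_le s).trans hs
  rcases hK with h | h
  · obtain ⟨v, hv⟩ := Infinite.exists_notMem_finset s.toFinset
    exact ⟨v, fun h => hv (List.mem_toFinset.2 h)⟩
  · have hf : Finite K := Nat.finite_of_card_ne_zero (by omega)
    have : Fintype K := Fintype.ofFinite K
    rw [Nat.card_eq_fintype_card] at h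
    obtain ⟨v, -, hv⟩ := Finset.exists_mem_notMem_of_card_lt_card
      (s := s.toFinset) (t := Finset.univ) (by rw [Finset.card_univ]; omega)
    exact ⟨v, fun h => hv (List.mem_toFinset.2 h)⟩

theorem bad_small (hK : Infinite K ∨ 8 ≤ Nat.card K) (r : ℕ) : Bad K (r + 3) := by
  have i3 : ∀ f : Fin 3 → K, f 0 ≠ f 1 → f 0 ≠ f 2 → f 1 ≠ f 2 → Function.Injective f := by
    intro f h01 h02 h12 a b h
    fin_cases a <;> fin_cases b <;> first | rfl | exact absurd h ‹_› | exact absurd h.symm ‹_›
  have i2 : ∀ f : Fin 2 → K, f 0 ≠ f 1 → Function.Injective f := by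
    intro f h01 a b h
    fin_cases a <;> fin_cases b <;> first | rfl | exact absurd h ‹_› | exact absurd h.symm ‹_›
  -- additive parameters
  obtain ⟨u, hu⟩ := exists_notMem_list hK [0, 1, -1] (by simp)
  obtain ⟨v, hv⟩ := exists_notMem_list hK [0, 1, -1, u, u + 1, u - 1] (by simp)
  simp only [List.mem_cons, List.not_mem_nil, or_false, not_or] at hu hv
  -- multiplicative parameters
  obtain ⟨g, hg⟩ := exists_notMem_list hK [0, 1] (by simp)
  obtain ⟨w, hw⟩ := exists_notMem_list hK [0, 1, g, g⁻¹] (by simp)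
  obtain ⟨x, hx⟩ := exists_notMem_list hK [0, 1, g, g⁻¹, w, w * g, w * g⁻¹] (by simp)
  simp only [List.mem_cons, List.not_mem_nil, or_false, not_or] at hg hw hx
  have hcinj : Function.Injective (![0, u, v] : Fin 3 → K) := by
    apply i3
    · exact fun h => hu.1 h.symm
    · exact fun h => hv.1 h.symm
    · exact fun h => hv.2.2.2.1 h.symm
  have hc1 : ∀ i i' : Fin 3, (![0, u, v] : Fin 3 → K) i + 1 ≠ (![0, u, v] : Fin 3 → K) i' := by
    intro i i' h
    fin_cases i <;> fin_cases i'
    · have h' : (0 : K) + 1 = 0 := h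
      exact one_ne_zero (by linear_combination h')
    · have h' : (0 : K) + 1 = u := h
      exact hu.2.1 (by linear_combination -h')
    · have h' : (0 : K) + 1 = v := h
      exact hv.2.1 (by linear_combination -h')
    · have h' : u + 1 = 0 := h
      exact hu.2.2 (by linear_combination h')
    · have h' : u + 1 = u := h
      exact one_ne_zero (by linear_combination h' : (1 : K) = 0)
    · have h' : u + 1 = v := h
      exact hv.2.2.2.2.1 h'.symm
    · have h' : v + 1 = 0 := h
      exact hv.2.2.1 (by linear_combination h')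
    · have h' : v + 1 = u := h
      exact hv.2.2.2.2.2 (by linear_combination h')
    · have h' : v + 1 = v := h
      exact one_ne_zero (by linear_combination h' : (1 : K) = 0)
  have hγinj : Function.Injective (![1, w, x] : Fin 3 → K) := by
    apply i3
    · exact fun h => hw.2.1 h.symm
    · exact fun h => hx.2.1 h.symm
    · exact fun h => hx.2.2.2.2.1 h.symm
  have hγ1 : ∀ i i' : Fin 3, (![1, w, x] : Fin 3 → K) i * g ≠ (![1, w, x] : Fin 3 → K) i' := by
    have hgi : g * g⁻¹ = 1 := mul_inv_cancel₀ hg.1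
    intro i i' h
    fin_cases i <;> fin_cases i'
    · have h' : (1 : K) * g = 1 := h
      exact hg.2 (by linear_combination h')
    · have h' : (1 : K) * g = w := h
      exact hw.2.2.1 (by linear_combination -h')
    · have h' : (1 : K) * g = x := h
      exact hx.2.2.1 (by linear_combination -h')
    · have h' : w * g = 1 := h
      exact hw.2.2.2 (by linear_combination g⁻¹ * h' - w * hgi)
    · have h' : w * g = w := h
      exact hg.2 (mul_left_cancel₀ hw.1 (by linear_combination h'))
    · have h' : w * g = x := h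
      exact hx.2.2.2.2.2.1 h'.symm
    · have h' : x * g = 1 := h
      exact hx.2.2.2.1 (by linear_combination g⁻¹ * h' - x * hgi)
    · have h' : x * g = w := h
      exact hx.2.2.2.2.2.2 (by linear_combination g⁻¹ * h' - x * hgi)
    · have h' : x * g = x := h
      exact hg.2 (mul_left_cancel₀ hx.1 (by linear_combination h'))
  have hγ0 : ∀ i, (![1, w, x] : Fin 3 → K) i ≠ 0 := by
    intro i
    fin_cases i
    · exact one_ne_zero
    · exact hw.1
    · exact hx.1
  have hμ0 : ∀ j, (![1, g] : Fin 2 → K) j ≠ 0 := by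
    intro j
    fin_cases j
    · exact one_ne_zero
    · exact hg.1
  refine bad_of_params (T := Fin 3 × Fin 2) (I := Fin 3) (J := Fin 2) r
    (e := fun p => (![0, u, v] : Fin 3 → K) p.1 - (![0, 1] : Fin 2 → K) p.2)
    (ε := fun p => (![1, w, x] : Fin 3 → K) p.1 * ((![1, g] : Fin 2 → K) p.2)⁻¹) ?_ ?_ ?_
    hcinj hγinj hγ0 (b := ![0, 1]) (μ := ![1, g]) (i2 _ ?_) (i2 _ ?_) hμ0 (fun i j => (i, j))
    ?_ ?_ 0 0 (by simp) (by simp) (by simp) (by simp)
  · rintro ⟨i, j⟩ ⟨i', j'⟩ h
    simp only at h
    fin_cases j <;> fin_cases j'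
    · have h' : (![0, u, v] : Fin 3 → K) i - 0 = (![0, u, v] : Fin 3 → K) i' - 0 := h
      rw [sub_zero, sub_zero] at h'
      rw [hcinj h']
    · have h' : (![0, u, v] : Fin 3 → K) i - 0 = (![0, u, v] : Fin 3 → K) i' - 1 := h
      exact absurd (by linear_combination h') (hc1 i i')
    · have h' : (![0, u, v] : Fin 3 → K) i - 1 = (![0, u, v] : Fin 3 → K) i' - 0 := h
      exact absurd (by linear_combination -h') (hc1 i' i)
    · have h' : (![0, u, v] : Fin 3 → K) i - 1 = (![0, u, v] : Fin 3 → K) i' - 1 := h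
      have h'' : (![0, u, v] : Fin 3 → K) i = (![0, u, v] : Fin 3 → K) i' := by
        linear_combination h'
      rw [hcinj h'']
  · have hgi : g * g⁻¹ = 1 := mul_inv_cancel₀ hg.1
    rintro ⟨i, j⟩ ⟨i', j'⟩ h
    simp only at h
    fin_cases j <;> fin_cases j'
    · have h' : (![1, w, x] : Fin 3 → K) i * 1⁻¹ = (![1, w, x] : Fin 3 → K) i' * 1⁻¹ := h
      rw [inv_one, mul_one, mul_one] at h'
      rw [hγinj h']
    · have h' : (![1, w, x] : Fin 3 → K) i * 1⁻¹ = (![1, w, x] : Fin 3 → K) i' * g⁻¹ := h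
      rw [inv_one, mul_one] at h'
      exact absurd (by linear_combination g * h' + (![1, w, x] : Fin 3 → K) i' * hgi) (hγ1 i i')
    · have h' : (![1, w, x] : Fin 3 → K) i * g⁻¹ = (![1, w, x] : Fin 3 → K) i' * 1⁻¹ := h
      rw [inv_one, mul_one] at h'
      exact absurd (by linear_combination (-g) * h' + (![1, w, x] : Fin 3 → K) i * hgi) (hγ1 i' i)
    · have h' : (![1, w, x] : Fin 3 → K) i * g⁻¹ = (![1, w, x] : Fin 3 → K) i' * g⁻¹ := h
      rw [hγinj (mul_right_cancel₀ (inv_ne_zero hg.1) h')]
  · intro p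
    exact mul_ne_zero (hγ0 _) (inv_ne_zero (hμ0 _))
  · exact zero_ne_one
  · exact fun h => hg.2 h.symm
  · intro i j
    simp only
    ring
  · intro i j
    simp only
    rw [mul_assoc, inv_mul_cancel₀ (hμ0 j), mul_one]

theorem charP_of {q : ℕ} (hq : q.Prime) (h : (q : K) = 0) : CharP K q := by
  obtain ⟨p, hp⟩ := CharP.exists K
  have h1 : p ∣ q := (CharP.cast_eq_zero_iff K p q).1 h
  rcases (Nat.dvd_prime hq).1 h1 with h2 | h2
  · exact absurd h2 (CharP.char_ne_one K p)
  · rw [← h2]
    exact hp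

/-- **disproof over every field with at least five elements, in every dimension `≥ 3`** -/
theorem bad_all (hK : Infinite K ∨ 5 ≤ Nat.card K) {l : ℕ} (hl : 3 ≤ l) : Bad K l := by
  obtain ⟨r, rfl⟩ := Nat.exists_eq_add_of_le' hl
  by_cases h2 : (2 : K) = 0
  · apply bad_small
    rcases hK with h | h
    · exact Or.inl h
    · right
      have hf : Finite K := Nat.finite_of_card_ne_zero (by omega)
      have : Fintype K := Fintype.ofFinite K
      have hc : CharP K 2 := charP_of Nat.prime_two (by exact_mod_cast h2)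
      obtain ⟨n, -, hn⟩ := FiniteField.card K 2
      rw [Nat.card_eq_fintype_card, hn] at h ⊢
      have h3 : 3 ≤ (n : ℕ) := by
        by_contra hcon
        have h4 : (n : ℕ) ≤ 2 := by omega
        have h5 := Nat.pow_le_pow_right (show 0 < 2 by norm_num) h4
        omega
      have h6 := Nat.pow_le_pow_right (show 0 < 2 by norm_num) h3
      omega
  · by_cases h3 : (3 : K) = 0
    · apply bad_small
      rcases hK with h | h
      · exact Or.inl h
      · right
        have hf : Finite K := Nat.finite_of_card_ne_zero (by omega)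
        have : Fintype K := Fintype.ofFinite K
        have hc : CharP K 3 := charP_of Nat.prime_three (by exact_mod_cast h3)
        obtain ⟨n, -, hn⟩ := FiniteField.card K 3
        rw [Nat.card_eq_fintype_card, hn] at h ⊢
        have h4 : 2 ≤ (n : ℕ) := by
          by_contra hcon
          have h4 : (n : ℕ) ≤ 1 := by omega
          have h5 := Nat.pow_le_pow_right (show 0 < 3 by norm_num) h4
          omega
        have h6 := Nat.pow_le_pow_right (show 0 < 3 by norm_num) h4
        omega
    · exact bad_big h2 h3 r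

end

end Pool.Agent.H160.PG
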