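import Mathlib
import Pool.Agent.H160.PG.Four3

set_option autoImplicit false

/-! # Small fields: final form -/

namespace Pool.Agent.H160.PG

open MvPolynomial Pool.Agent.H160.TF

section

variable {K : Type} [Field K] {l n m : ℕ}

/-- **over a field with at most three elements, and over the field with four elements in dimension
three, plus-one generatedness is determined by the lattice** -/
theorem pos_small (hK : Finite K) (hc : Nat.card K ≤ 3 ∨ (Nat.card K = 4 ∧ l = 3))
    {A : Matrix (Fin n) (Fin l) K} {B : Matrix (Fin m) (Fin l) K} (hA : Dist A) (hB : Dist B)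
    (hA0 : ⨅ i, HH A i = ⊥) (e : ↥(Lat A) ≃o ↥(Lat B)) : Eqv (fun i => A i) (fun i => B i) := by
  obtain ⟨σ, hσ⟩ := exists_sameCl hA hB e
  have h1 : Eqv (fun i => B (σ i)) (fun i => B i) := Eqv.of_LD (LD_comp σ (fun i => B i))
  have hsp := span_of_ess hA0
  refine Eqv.trans ?_ h1
  rcases hc with hc | ⟨hc, rfl⟩
  · have h2 : 2 ≤ Nat.card K := by
      have : Nontrivial K := inferInstance
      exact Finite.one_lt_card
    exact Eqv.of_tern (sign_of_card h2 hc) hσ hsp
  · exact Eqv.of_four hc hσ hA hsp

end

end Pool.Agent.H160.PG
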